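import Mathlib
import Pool.Agent.H671R2.PolyAuto

/-!
# The algorithm on lists
-/

namespace Pool.Agent.H442R3.MPar

/-- dot product modulo `p`, over the index list `R` -/
def dotL (p : ℕ) (R f v : List ℕ) : ℕ := (R.map (fun i => f.getD i 0 * v.getD i 0)).sum % p

/-- linear combination modulo `p` -/
def linL (p : ℕ) (R : List ℕ) (c : ℕ) (v : List ℕ) (d : ℕ) (w : List ℕ) : List ℕ :=
  R.map (fun i => (c * v.getD i 0 + d * w.getD i 0) % p)

/-- one step of the kernel computation -/
def kstep (p : ℕ) (R : List ℕ) (K : List (List ℕ)) (f : List ℕ) : List (List ℕ) :=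
  K.filter (fun v => decide (dotL p R f v = 0)) ++
    ((K.filter (fun v => !decide (dotL p R f v = 0))).tail.map (fun v =>
      linL p R (dotL p R f ((K.filter (fun v => !decide (dotL p R f v = 0))).head?.getD [])) v
        (p - dotL p R f v) ((K.filter (fun v => !decide (dotL p R f v = 0))).head?.getD [])))

/-- standard basis -/
def stdB (R : List ℕ) : List (List ℕ) := R.map (fun i => R.map (fun j => if i = j then 1 else 0))

/-- kernel -/
def kerL (p : ℕ) (R : List ℕ) (rows : List (List ℕ)) : List (List ℕ) :=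
  rows.foldl (kstep p R) (stdB R)

/-- entry of the alternating matrix -/
def ent (p : ℕ) (lines : List (List ℕ × List ℕ)) (x : List ℕ) (r c : ℕ) : ℕ :=
  ((lines.zip x).map (fun y => y.2 * (y.1.2.getD c 0 * y.1.1.getD r 0 +
    (p - (y.1.1.getD c 0 * y.1.2.getD r 0) % p)))).sum % p

/-- rows of the bordered matrix; `Rn` is the list of coordinates of the space -/
def rowsL (p : ℕ) (Rn : List ℕ) (lines : List (List ℕ × List ℕ)) (x : List ℕ)
    (j k : List ℕ × List ℕ) : List (List ℕ) :=
  Rn.map (fun r => Rn.map (fun c => ent p lines x r c) ++ [k.1.getD r 0, k.2.getD r 0]) ++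
    [j.1, j.2]

/-- nullity -/
def nulL (p : ℕ) (Rn RN : List ℕ) (lines : List (List ℕ × List ℕ)) (x : List ℕ)
    (j k : List ℕ × List ℕ) : ℕ := (kerL p RN (rowsL p Rn lines x j k)).length

/-- potential -/
def psiL (p : ℕ) (Rn RN : List ℕ) (lines : List (List ℕ × List ℕ)) (x : List ℕ) : ℕ :=
  ((([], []) :: lines).flatMap (fun j => (([], []) :: lines).map (fun k =>
    nulL p Rn RN lines x j k))).sum

/-- change two coordinates -/
def upd (Im : List ℕ) (x : List ℕ) (k v k' v' : ℕ) : List ℕ :=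
  Im.map (fun i => if i = k' then v' else if i = k then v else x.getD i 0)

/-- neighbours -/
def nbr (Im Fp : List ℕ) (x : List ℕ) : List (List ℕ) :=
  Im.flatMap (fun k => Fp.flatMap (fun v => Im.flatMap (fun k' => Fp.map (fun v' =>
    upd Im x k v k' v'))))

/-- improvement step -/
def impr (p : ℕ) (Rn RN Im Fp : List ℕ) (lines : List (List ℕ × List ℕ)) (x : List ℕ) : List ℕ :=
  ((nbr Im Fp x).filter (fun y => decide (psiL p Rn RN lines y < psiL p Rn RN lines x))).head?.getD x

/-- local search -/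
def search (p : ℕ) (Rn RN Im Fp : List ℕ) (lines : List (List ℕ × List ℕ)) (T : List ℕ) :
    List ℕ :=
  (impr p Rn RN Im Fp lines)^[T.length] (Im.map (fun _ => 0))

/-- half the rank -/
def hrank (p : ℕ) (Rn RN : List ℕ) (lines : List (List ℕ × List ℕ)) (x : List ℕ) : ℕ :=
  (RN.length - nulL p Rn RN lines x ([], []) ([], [])) / 2

end Pool.Agent.H442R3.MPar

namespace Pool.Agent.H442R3.MPar

open Pool.Agent.NPC

variable {α : Type} [TEnc α]

theorem poly_dotL {p : α → ℕ} {R f v : α → List ℕ} (hp : Poly p) (hR : Poly R) (hf : Poly f)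
    (hv : Poly v) : Poly (fun a => dotL (p a) (R a) (f a) (v a)) := by
  unfold dotL
  fun_prop

attribute [fun_prop] poly_dotL

theorem poly_linL {p c d : α → ℕ} {R v w : α → List ℕ} (hp : Poly p) (hc : Poly c) (hd : Poly d)
    (hR : Poly R) (hv : Poly v) (hw : Poly w) :
    Poly (fun a => linL (p a) (R a) (c a) (v a) (d a) (w a)) := by
  unfold linL
  fun_prop

attribute [fun_prop] poly_linL

theorem poly_kstep {p : α → ℕ} {R f : α → List ℕ} {K : α → List (List ℕ)} (hp : Poly p)
    (hR : Poly R) (hf : Poly f) (hK : Poly K) :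
    Poly (fun a => kstep (p a) (R a) (K a) (f a)) := by
  unfold kstep
  fun_prop

attribute [fun_prop] poly_kstep

theorem poly_stdB {R : α → List ℕ} (hR : Poly R) : Poly (fun a => stdB (R a)) := by
  unfold stdB
  fun_prop

attribute [fun_prop] poly_stdB

theorem poly_ent {p r c : α → ℕ} {lines : α → List (List ℕ × List ℕ)} {x : α → List ℕ}
    (hp : Poly p) (hr : Poly r) (hc : Poly c) (hl : Poly lines) (hx : Poly x) :
    Poly (fun a => ent (p a) (lines a) (x a) (r a) (c a)) := by
  unfold ent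
  fun_prop

attribute [fun_prop] poly_ent

theorem poly_rowsL {p : α → ℕ} {Rn x : α → List ℕ} {lines : α → List (List ℕ × List ℕ)}
    {j k : α → List ℕ × List ℕ} (hp : Poly p) (hR : Poly Rn) (hl : Poly lines) (hx : Poly x)
    (hj : Poly j) (hk : Poly k) :
    Poly (fun a => rowsL (p a) (Rn a) (lines a) (x a) (j a) (k a)) := by
  unfold rowsL
  fun_prop

attribute [fun_prop] poly_rowsL

theorem poly_upd {Im x : α → List ℕ} {k v k' v' : α → ℕ} (hI : Poly Im) (hx : Poly x)
    (hk : Poly k) (hv : Poly v) (hk' : Poly k') (hv' : Poly v') :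
    Poly (fun a => upd (Im a) (x a) (k a) (v a) (k' a) (v' a)) := by
  unfold upd
  fun_prop

attribute [fun_prop] poly_upd

theorem poly_nbr {Im Fp x : α → List ℕ} (hI : Poly Im) (hF : Poly Fp) (hx : Poly x) :
    Poly (fun a => nbr (Im a) (Fp a) (x a)) := by
  unfold nbr
  fun_prop

attribute [fun_prop] poly_nbr


/-! ### Size bounds -/

theorem length_filter_add (K : List (List ℕ)) (q : List ℕ → Bool) :
    (K.filter q).length + (K.filter (fun v => !q v)).length = K.length := by
  induction K with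
  | nil => rfl
  | cons a K ih =>
    cases h : q a <;> simp [List.filter_cons, h] <;> omega

theorem kstep_len (p : ℕ) (R : List ℕ) (K : List (List ℕ)) (f : List ℕ) :
    (kstep p R K f).length ≤ K.length := by
  have h := length_filter_add K (fun v => decide (dotL p R f v = 0))
  rw [kstep, List.length_append, List.length_map, List.length_tail]
  omega

theorem kstep_mem {p : ℕ} {R : List ℕ} {K : List (List ℕ)} {f w : List ℕ}
    (h : w ∈ kstep p R K f) : w ∈ K ∨ ∃ c v d u, w = linL p R c v d u := by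
  rw [kstep, List.mem_append] at h
  rcases h with h | h
  · exact Or.inl (List.mem_of_mem_filter h)
  · obtain ⟨v, _, rfl⟩ := List.mem_map.1 h
    exact Or.inr ⟨_, _, _, _, rfl⟩

/-- size bound of vectors -/
def vb (p : ℕ) (R : List ℕ) : ℕ := R.length * (2 * sz p + sz (1 : ℕ) + sz (0 : ℕ) + 1) + 1

theorem sz_linL {p : ℕ} (hp : 0 < p) (R : List ℕ) (c : ℕ) (v : List ℕ) (d : ℕ) (w : List ℕ) :
    sz (linL p R c v d w) ≤ vb p R := by
  have := sz_le_length_mul (linL p R c v d w) (2 * sz p + sz (1 : ℕ) + sz (0 : ℕ)) (by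
    intro a ha
    obtain ⟨i, _, rfl⟩ := List.mem_map.1 ha
    have := sz_nat_mono_le (Nat.mod_lt (c * v.getD i 0 + d * w.getD i 0) hp).le
    omega)
  rw [linL, List.length_map] at this
  rw [linL, vb]
  exact this

theorem sz_stdB {p : ℕ} (R : List ℕ) {v : List ℕ} (hv : v ∈ stdB R) : sz v ≤ vb p R := by
  obtain ⟨i, _, rfl⟩ := List.mem_map.1 hv
  have := sz_le_length_mul (R.map (fun j => if i = j then 1 else 0))
    (2 * sz p + sz (1 : ℕ) + sz (0 : ℕ)) (by
      intro a ha
      obtain ⟨j, _, rfl⟩ := List.mem_map.1 ha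
      split <;> omega)
  rw [List.length_map] at this
  rw [vb]
  exact this

theorem kfold_inv {p : ℕ} (hp : 0 < p) (R : List ℕ) : ∀ (rows : List (List ℕ)) (K : List (List ℕ)),
    (∀ v ∈ K, sz v ≤ vb p R) → (∀ v ∈ rows.foldl (kstep p R) K, sz v ≤ vb p R) ∧
      (rows.foldl (kstep p R) K).length ≤ K.length := by
  intro rows
  induction rows with
  | nil => intro K hK; exact ⟨hK, le_rfl⟩
  | cons f rows ih =>
    intro K hK
    have h1 : ∀ v ∈ kstep p R K f, sz v ≤ vb p R := by
      intro v hv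
      rcases kstep_mem hv with h | ⟨c, v, d, u, rfl⟩
      · exact hK v h
      · exact sz_linL hp _ _ _ _ _
    obtain ⟨h2, h3⟩ := ih _ h1
    exact ⟨h2, h3.trans (kstep_len _ _ _ _)⟩

theorem sz_kfold {p : ℕ} (hp : 0 < p) (R : List ℕ) (rows : List (List ℕ)) :
    sz (rows.foldl (kstep p R) (stdB R)) ≤ R.length * (vb p R + 1) + 1 := by
  obtain ⟨h1, h2⟩ := kfold_inv hp R rows (stdB R) (fun v hv => sz_stdB R hv)
  have h3 := sz_le_length_mul _ _ h1
  have h4 : (stdB R).length = R.length := by rw [stdB, List.length_map]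
  rw [h4] at h2
  refine h3.trans ?_
  have := Nat.mul_le_mul_right (vb p R + 1) h2
  omega

theorem poly_kerL {p : α → ℕ} {R : α → List ℕ} {rows : α → List (List ℕ)} (hp : Poly p)
    (hR : Poly R) (hrows : Poly rows) (hp0 : ∀ a, 0 < p a) :
    Poly (fun a => kerL (p a) (R a) (rows a)) := by
  obtain ⟨rp, hrp⟩ := hp.sz_le
  obtain ⟨rR, hrR⟩ := hR.sz_le
  unfold kerL
  refine NPC.Poly.foldl (l := rows) (s := fun a => stdB (R a))
    (F := fun a K f => kstep (p a) (R a) K f) hrows (by fun_prop) (by fun_prop)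
    (rR * (rR * (2 * rp + Polynomial.C (sz (1 : ℕ)) + Polynomial.C (sz (0 : ℕ)) + 1) + 1 + 1) + 1) ?_
  intro a k _
  refine (sz_kfold (hp0 a) (R a) _).trans ?_
  have h1 := hrp a
  have h2 := hrR a
  have h3 := length_lt_sz (R a)
  have h4 : (R a).length ≤ rR.eval (sz a) := by omega
  simp only [Polynomial.eval_add, Polynomial.eval_mul, Polynomial.eval_C, Polynomial.eval_one,
    Polynomial.eval_ofNat, vb]
  gcongr

theorem poly_nulL {p : α → ℕ} {Rn RN x : α → List ℕ} {lines : α → List (List ℕ × List ℕ)}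
    {j k : α → List ℕ × List ℕ} (hp : Poly p) (hp0 : ∀ a, 0 < p a) (hR : Poly Rn) (hRN : Poly RN)
    (hl : Poly lines) (hx : Poly x) (hj : Poly j) (hk : Poly k) :
    Poly (fun a => nulL (p a) (Rn a) (RN a) (lines a) (x a) (j a) (k a)) := by
  unfold nulL
  exact NPC.Poly.length (poly_kerL hp hRN (by fun_prop) hp0)

theorem poly_psiL {p : α → ℕ} {Rn RN x : α → List ℕ} {lines : α → List (List ℕ × List ℕ)}
    (hp : Poly p) (hp0 : ∀ a, 0 < p a) (hR : Poly Rn) (hRN : Poly RN)
    (hl : Poly lines) (hx : Poly x) :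
    Poly (fun a => psiL (p a) (Rn a) (RN a) (lines a) (x a)) := by
  unfold psiL
  refine NPC.Poly.sum (NPC.Poly.flatMap (F := fun a j => (([], []) :: lines a).map (fun k =>
    nulL (p a) (Rn a) (RN a) (lines a) (x a) j k)) (by fun_prop) ?_)
  refine NPC.Poly.map (l := fun q : α × (List ℕ × List ℕ) => ([], []) :: lines q.1)
    (F := fun q k => nulL (p q.1) (Rn q.1) (RN q.1) (lines q.1) (x q.1) q.2 k) (by fun_prop) ?_
  exact poly_nulL (by fun_prop) (fun q => hp0 _) (by fun_prop) (by fun_prop) (by fun_prop)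
    (by fun_prop) (by fun_prop) (by fun_prop)

theorem poly_impr {p : α → ℕ} {Rn RN Im Fp x : α → List ℕ} {lines : α → List (List ℕ × List ℕ)}
    (hp : Poly p) (hp0 : ∀ a, 0 < p a) (hR : Poly Rn) (hRN : Poly RN) (hI : Poly Im)
    (hF : Poly Fp) (hl : Poly lines) (hx : Poly x) :
    Poly (fun a => impr (p a) (Rn a) (RN a) (Im a) (Fp a) (lines a) (x a)) := by
  unfold impr
  have h1 : Poly (fun a => (nbr (Im a) (Fp a) (x a)).filter (fun y =>
      decide (psiL (p a) (Rn a) (RN a) (lines a) y < psiL (p a) (Rn a) (RN a) (lines a) (x a)))) := by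
    refine NPC.Poly.filter (l := fun a => nbr (Im a) (Fp a) (x a)) (p := fun a y =>
      decide (psiL (p a) (Rn a) (RN a) (lines a) y < psiL (p a) (Rn a) (RN a) (lines a) (x a)))
      (by fun_prop) ?_
    refine NPC.Poly.decide_lt ?_ ?_
    · exact poly_psiL (by fun_prop) (fun q => hp0 _) (by fun_prop) (by fun_prop) (by fun_prop)
        (by fun_prop)
    · exact poly_psiL (by fun_prop) (fun q => hp0 _) (by fun_prop) (by fun_prop) (by fun_prop)
        (by fun_prop)
  fun_prop

/-- states -/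
def IsSt (Im Fp x : List ℕ) : Prop := x.length = Im.length ∧ ∀ v ∈ x, v = 0 ∨ v ∈ Fp

theorem upd_st {Im Fp x : List ℕ} (hx : IsSt Im Fp x) {k v k' v' : ℕ} (hv : v ∈ Fp)
    (hv' : v' ∈ Fp) : IsSt Im Fp (upd Im x k v k' v') := by
  refine ⟨by rw [upd, List.length_map], ?_⟩
  intro w hw
  obtain ⟨i, _, rfl⟩ := List.mem_map.1 hw
  split
  · exact Or.inr hv'
  split
  · exact Or.inr hv
  · by_cases h : i < x.length
    · rw [List.getD_eq_getElem _ _ h]
      exact hx.2 _ (List.getElem_mem h)
    · rw [List.getD_eq_default _ _ (by omega)]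
      exact Or.inl rfl

theorem impr_mem (p : ℕ) (Rn RN Im Fp : List ℕ) (lines : List (List ℕ × List ℕ)) (x : List ℕ) :
    (impr p Rn RN Im Fp lines x = x ∧ ∀ y ∈ nbr Im Fp x,
      psiL p Rn RN lines x ≤ psiL p Rn RN lines y) ∨
    (impr p Rn RN Im Fp lines x ∈ nbr Im Fp x ∧
      psiL p Rn RN lines (impr p Rn RN Im Fp lines x) < psiL p Rn RN lines x) := by
  rw [impr]
  cases h : ((nbr Im Fp x).filter (fun y =>
    decide (psiL p Rn RN lines y < psiL p Rn RN lines x))) with
  | nil =>
    left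
    refine ⟨rfl, fun y hy => ?_⟩
    rw [List.filter_eq_nil_iff] at h
    have := h y hy
    simpa using this
  | cons y l =>
    right
    have h1 : y ∈ (nbr Im Fp x).filter (fun y =>
      decide (psiL p Rn RN lines y < psiL p Rn RN lines x)) := by rw [h]; exact List.mem_cons_self
    rw [List.mem_filter] at h1
    simpa using h1

theorem nbr_st {Im Fp x y : List ℕ} (hx : IsSt Im Fp x) (hy : y ∈ nbr Im Fp x) :
    IsSt Im Fp y := by
  simp only [nbr, List.mem_flatMap, List.mem_map] at hy
  obtain ⟨k, _, v, hv, k', _, v', hv', rfl⟩ := hy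
  exact upd_st hx hv hv'

theorem impr_st {p : ℕ} {Rn RN Im Fp : List ℕ} {lines : List (List ℕ × List ℕ)} {x : List ℕ}
    (hx : IsSt Im Fp x) : IsSt Im Fp (impr p Rn RN Im Fp lines x) := by
  rcases impr_mem p Rn RN Im Fp lines x with h | h
  · rw [h.1]; exact hx
  · exact nbr_st hx h.1

theorem iter_st {p : ℕ} {Rn RN Im Fp : List ℕ} {lines : List (List ℕ × List ℕ)} (k : ℕ) :
    IsSt Im Fp ((impr p Rn RN Im Fp lines)^[k] (Im.map (fun _ => 0))) := by
  induction k with
  | zero =>
    refine ⟨by simp, ?_⟩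
    intro v hv
    simp only [Function.iterate_zero, id_eq, List.mem_map] at hv
    obtain ⟨_, _, rfl⟩ := hv
    exact Or.inl rfl
  | succ k ih =>
    rw [Function.iterate_succ_apply']
    exact impr_st ih

theorem sz_st {Im Fp x : List ℕ} (hx : IsSt Im Fp x) :
    sz x ≤ Im.length * (sz Fp + sz (0 : ℕ) + 1) + 1 := by
  have := sz_le_length_mul x (sz Fp + sz (0 : ℕ)) (by
    intro v hv
    rcases hx.2 v hv with rfl | h
    · omega
    · have := sz_le_of_mem h
      omega)
  rw [hx.1] at this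
  exact this

theorem poly_search {p : α → ℕ} {Rn RN Im Fp T : α → List ℕ} {lines : α → List (List ℕ × List ℕ)}
    (hp : Poly p) (hp0 : ∀ a, 0 < p a) (hR : Poly Rn) (hRN : Poly RN) (hI : Poly Im)
    (hF : Poly Fp) (hl : Poly lines) (hT : Poly T) :
    Poly (fun a => search (p a) (Rn a) (RN a) (Im a) (Fp a) (lines a) (T a)) := by
  obtain ⟨rI, hrI⟩ := hI.sz_le
  obtain ⟨rF, hrF⟩ := hF.sz_le
  unfold search
  refine NPC.Poly.iterLen (l := T) (s := fun a => (Im a).map (fun _ => 0))
    (F := fun a x => impr (p a) (Rn a) (RN a) (Im a) (Fp a) (lines a) x) hT (by fun_prop)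
    (poly_impr (by fun_prop) (fun q => hp0 _) (by fun_prop) (by fun_prop) (by fun_prop)
      (by fun_prop) (by fun_prop) (by fun_prop))
    (rI * (rF + Polynomial.C (sz (0 : ℕ)) + 1) + 1) ?_
  intro a k _
  refine (sz_st (iter_st k)).trans ?_
  have h1 := hrI a
  have h2 := hrF a
  have h3 := length_lt_sz (Im a)
  have h4 : (Im a).length ≤ rI.eval (sz a) := by omega
  simp only [Polynomial.eval_add, Polynomial.eval_mul, Polynomial.eval_C, Polynomial.eval_one]
  gcongr

theorem poly_hrank {p : α → ℕ} {Rn RN x : α → List ℕ} {lines : α → List (List ℕ × List ℕ)}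
    (hp : Poly p) (hp0 : ∀ a, 0 < p a) (hR : Poly Rn) (hRN : Poly RN)
    (hl : Poly lines) (hx : Poly x) :
    Poly (fun a => hrank (p a) (Rn a) (RN a) (lines a) (x a)) := by
  unfold hrank
  have h := poly_nulL (j := fun _ => ([], [])) (k := fun _ => ([], [])) hp hp0 hR hRN hl hx
    (NPC.Poly.const _) (NPC.Poly.const _)
  fun_prop

end Pool.Agent.H442R3.MPar
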