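import Mathlib

/-!
# Linear matroid parity: alternating maps `V* → V`
-/

namespace Pool.Agent.H442R3.MPar

open Module

section basic

variable {F : Type*} [Field F] {V : Type*} [AddCommGroup V] [Module F V]

/-- `a ∧ b` as an alternating map `V* → V` -/
def bv (a b : V) : Dual F V →ₗ[F] V where
  toFun φ := φ b • a - φ a • b
  map_add' φ ψ := by
    simp only [LinearMap.add_apply, add_smul]
    abel
  map_smul' c φ := by
    simp only [LinearMap.smul_apply, smul_eq_mul, mul_smul, RingHom.id_apply, smul_sub]

theorem bv_apply (a b : V) (φ : Dual F V) : bv a b φ = φ b • a - φ a • b := rfl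

/-- alternating maps -/
def Alt (A : Dual F V →ₗ[F] V) : Prop := ∀ φ : Dual F V, φ (A φ) = 0

theorem alt_bv (a b : V) : Alt (bv (F := F) a b) := by
  intro φ
  simp only [bv_apply, map_sub, map_smul, smul_eq_mul]
  ring

theorem Alt.zero : Alt (0 : Dual F V →ₗ[F] V) := by
  intro φ
  simp

theorem Alt.add {A B : Dual F V →ₗ[F] V} (hA : Alt A) (hB : Alt B) : Alt (A + B) := by
  intro φ
  simp only [LinearMap.add_apply, map_add, hA φ, hB φ, add_zero]

theorem Alt.smul {A : Dual F V →ₗ[F] V} (hA : Alt A) (c : F) : Alt (c • A) := by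
  intro φ
  simp only [LinearMap.smul_apply, map_smul, hA φ, smul_zero]

theorem Alt.sum {ι : Type*} (S : Finset ι) {A : ι → Dual F V →ₗ[F] V} (hA : ∀ i, Alt (A i)) :
    Alt (∑ i ∈ S, A i) := by
  classical
  induction S using Finset.induction_on with
  | empty => simpa using Alt.zero
  | insert i S hi ih => rw [Finset.sum_insert hi]; exact (hA i).add ih

theorem Alt.skew {A : Dual F V →ₗ[F] V} (hA : Alt A) (φ ψ : Dual F V) :
    φ (A ψ) = - ψ (A φ) := by
  have h := hA (φ + ψ)
  simp only [LinearMap.add_apply, map_add] at h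
  rw [hA φ, hA ψ] at h
  linear_combination h

theorem Alt.skew' {A : Dual F V →ₗ[F] V} (hA : Alt A) (φ ψ : Dual F V) (h : φ (A ψ) = 0) :
    ψ (A φ) = 0 := by
  rw [hA.skew, h, neg_zero]

theorem Alt.ker_kills {A : Dual F V →ₗ[F] V} (hA : Alt A) {η : Dual F V} (hη : A η = 0)
    {p : V} (hp : p ∈ LinearMap.range A) : η p = 0 := by
  obtain ⟨ψ, rfl⟩ := hp
  rw [hA.skew, hη, map_zero, neg_zero]

variable [FiniteDimensional F V]

theorem Alt.range_eq {A : Dual F V →ₗ[F] V} (hA : Alt A) :
    LinearMap.range A = (LinearMap.ker A).dualCoannihilator := by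
  apply Submodule.eq_of_le_of_finrank_eq
  · intro p hp
    rw [Submodule.mem_dualCoannihilator]
    intro φ hφ
    exact hA.ker_kills hφ hp
  · have h1 := LinearMap.finrank_range_add_finrank_ker A
    have h2 := Subspace.finrank_add_finrank_dualCoannihilator_eq (LinearMap.ker A)
    have h3 : finrank F (Dual F V) = finrank F V := Subspace.dual_finrank_eq
    omega

theorem Alt.mem_range_iff {A : Dual F V →ₗ[F] V} (hA : Alt A) {p : V} :
    p ∈ LinearMap.range A ↔ ∀ η, A η = 0 → η p = 0 := by
  rw [hA.range_eq, Submodule.mem_dualCoannihilator]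
  rfl

end basic

section odd

variable {F : Type*} [Field F] {X : Type*} [AddCommGroup X] [Module F X] [FiniteDimensional F X]

/-- an alternating form on an odd-dimensional space is degenerate -/
theorem exists_radical (h2 : (2 : F) ≠ 0) (B : X →ₗ[F] X →ₗ[F] F) (hB : ∀ x, B x x = 0)
    (hodd : Odd (finrank F X)) : ∃ r, r ≠ 0 ∧ ∀ y, B r y = 0 := by
  classical
  have hskew : ∀ x y, B x y = - B y x := by
    intro x y
    have h := hB (x + y)
    simp only [LinearMap.add_apply, map_add] at h
    rw [hB x, hB y] at h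
    linear_combination h
  let e := finBasis F X
  let G : Matrix (Fin (finrank F X)) (Fin (finrank F X)) F := fun i j => B (e i) (e j)
  have hG : G.transpose = - G := by
    ext i j
    exact hskew _ _
  have hdet : G.det = 0 := by
    have h1 : G.transpose.det = (-G).det := by rw [hG]
    rw [Matrix.det_transpose, Matrix.det_neg, Fintype.card_fin, hodd.neg_one_pow] at h1
    have h3 : 2 * G.det = 0 := by linear_combination h1
    exact (mul_eq_zero.1 h3).resolve_left h2
  obtain ⟨v, hv0, hv⟩ := Matrix.exists_mulVec_eq_zero_iff.2 hdet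
  refine ⟨∑ j, v j • e j, ?_, ?_⟩
  · intro h
    apply hv0
    have := e.linearIndependent
    rw [Fintype.linearIndependent_iff] at this
    exact funext (this v h)
  · intro y
    have h1 : ∀ i, B (e i) (∑ j, v j • e j) = 0 := by
      intro i
      have := congrFun hv i
      simp only [Matrix.mulVec, dotProduct, Pi.zero_apply] at this
      rw [map_sum]
      simp only [map_smul, smul_eq_mul]
      rw [← this]
      apply Finset.sum_congr rfl
      intro j _
      simp only [G]
      ring
    have h2 : B y (∑ j, v j • e j) = 0 := by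
      have h5 : y = ∑ i, e.repr y i • e i := (e.sum_repr y).symm
      generalize (∑ j, v j • e j) = w at h1 ⊢
      rw [h5, map_sum, LinearMap.sum_apply]
      apply Finset.sum_eq_zero
      intro i _
      rw [map_smul, LinearMap.smul_apply, h1, smul_zero]
    rw [hskew, h2, neg_zero]

end odd

section parity

variable {F : Type*} [Field F] {V : Type*} [AddCommGroup V] [Module F V] [FiniteDimensional F V]

/-- the rank of an alternating map is even -/
theorem Alt.even_rank (h2 : (2 : F) ≠ 0) {A : Dual F V →ₗ[F] V} (hA : Alt A) :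
    Even (finrank F (LinearMap.range A)) := by
  by_contra hno
  rw [Nat.not_even_iff_odd] at hno
  obtain ⟨D, hD⟩ := (LinearMap.ker A).exists_isCompl
  have hdim : finrank F D = finrank F (LinearMap.range A) := by
    have h1 := LinearMap.finrank_range_add_finrank_ker A
    have h2 := Submodule.finrank_add_eq_of_isCompl hD
    omega
  let B : D →ₗ[F] D →ₗ[F] F :=
    { toFun := fun φ => (φ : Dual F V).comp (A.comp D.subtype)
      map_add' := fun φ ψ => by
        ext x
        simp
      map_smul' := fun c φ => by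
        ext x
        simp }
  have hBa : ∀ (φ ψ : D), B φ ψ = (φ : Dual F V) (A (ψ : Dual F V)) := fun φ ψ => rfl
  have hBx : ∀ x : D, B x x = 0 := fun x => hA _
  have hodd : Odd (finrank F D) := by rwa [hdim]
  obtain ⟨r, hr0, hr⟩ := exists_radical (X := D) h2 B hBx hodd
  apply hr0
  have h3 : ∀ ψ : Dual F V, (r : Dual F V) (A ψ) = 0 := by
    intro ψ
    have : ψ ∈ LinearMap.ker A ⊔ D := by rw [hD.sup_eq_top]; trivial
    obtain ⟨k, hk, d, hd, rfl⟩ := Submodule.mem_sup.1 this
    rw [map_add, map_add, LinearMap.mem_ker.1 hk, map_zero, zero_add]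
    exact hr ⟨d, hd⟩
  have h4 : A (r : Dual F V) = 0 := by
    rw [← Module.forall_dual_apply_eq_zero_iff F]
    intro ψ
    rw [hA.skew, h3, neg_zero]
  have h5 : (r : Dual F V) ∈ LinearMap.ker A ⊓ D := ⟨h4, r.2⟩
  rw [hD.inf_eq_bot] at h5
  exact Subtype.ext ((Submodule.mem_bot F).1 h5)

end parity

end Pool.Agent.H442R3.MPar
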