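import Pool.Agent.H442R3.MPar.Inst

/-!
# Matchings of blocks correspond to matchings of lines
-/

namespace Pool.Agent.H442R3.MPar

open Module

section

variable (p : ℕ) [hp : Fact p.Prime] (B : List (List ℕ × List ℕ))

/-- side offset -/
def so (s : Bool) : ℕ := bif s then 1 else 0

theorem so_lt (s : Bool) : so s < 2 := by cases s <;> simp [so]

theorem so_inj {s s' : Bool} (h : so s = so s') : s = s' := by
  cases s <;> cases s' <;> simp [so] at h ⊢

theorem edge_names {x : ℕ × Bool} (hx : x.1 < B.length) {u : ℕ} (h : u ∈ edgeOf B x) :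
    u ∈ names B := by
  obtain ⟨j, s⟩ := x
  cases s
  · exact mem_names hx (Or.inl (List.mem_toFinset.1 h))
  · exact mem_names hx (Or.inr (List.mem_toFinset.1 h))

theorem desc_mem {x : ℕ × Bool} (hx : x.1 < B.length) {u v : ℕ} (huv : u ≠ v)
    (hu : u ∈ edgeOf B x) (hv : v ∈ edgeOf B x) : (2 * x.1 + so x.2, u, v) ∈ descs B := by
  obtain ⟨j, s⟩ := x
  rw [mem_descs]
  refine ⟨j, hx, ?_⟩
  cases s
  · exact Or.inl ⟨rfl, huv, List.mem_toFinset.1 hu, List.mem_toFinset.1 hv⟩
  · exact Or.inr (Or.inl ⟨rfl, huv, List.mem_toFinset.1 hu, List.mem_toFinset.1 hv⟩)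

theorem desc_cases {d : ℕ × ℕ × ℕ} (hd : d ∈ descs B) :
    (∃ x : ℕ × Bool, x.1 < B.length ∧ d.1 = 2 * x.1 + so x.2 ∧ d.2.1 ≠ d.2.2 ∧
      d.2.1 ∈ edgeOf B x ∧ d.2.2 ∈ edgeOf B x) ∨ (∃ j < B.length, d = (2 * j, 0, 0)) := by
  obtain ⟨j, hj, h | h | h⟩ := mem_descs.1 hd
  · left
    exact ⟨(j, false), hj, h.1, h.2.1, List.mem_toFinset.2 h.2.2.1, List.mem_toFinset.2 h.2.2.2⟩
  · left
    exact ⟨(j, true), hj, h.1, h.2.1, List.mem_toFinset.2 h.2.2.1, List.mem_toFinset.2 h.2.2.2⟩
  · exact Or.inr ⟨j, hj, h⟩

theorem match_to_lines (M : Finset ℕ) (hM : IsMatch B M) :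
    ∃ M' : Finset (Fin (linesOf p B).length), IndepSet (ZMod p)
      (la p (dimOf B) (linesOf p B)) (lb p (dimOf B) (linesOf p B)) M' ∧
      M'.card = B.length + M.card := by
  classical
  obtain ⟨hMr, hMi⟩ := hM
  set X : Finset (ℕ × Bool) := M ×ˢ (Finset.univ : Finset Bool) with hX
  set R : Finset ℕ := Finset.range B.length \ M with hR
  obtain ⟨u, v, huv, hfor⟩ := trim _ X (edgeOf B) rfl hMi
  have hXlt : ∀ x ∈ X, x.1 < B.length := fun x hx =>
    Finset.mem_range.1 (hMr (Finset.mem_product.1 hx).1)
  let dsc : X ⊕ R → ℕ × ℕ × ℕ := Sum.elim (fun x => (2 * x.1.1 + so x.1.2, u x.1, v x.1))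
    (fun j => (2 * j.1, 0, 0))
  have hdsc : ∀ s, dsc s ∈ descs B := by
    rintro (⟨x, hx⟩ | ⟨j, hj⟩)
    · obtain ⟨h1, h2, h3⟩ := huv x hx
      exact desc_mem B (hXlt x hx) h1 h2 h3
    · rw [mem_descs]
      exact ⟨j, Finset.mem_range.1 (Finset.mem_sdiff.1 hj).1, Or.inr (Or.inr rfl)⟩
  have hidx : ∀ s, ∃ i, dd p B i = dsc s := fun s => exists_idx p B (hdsc s)
  choose g hg using hidx
  have hginj : Function.Injective g := by
    intro s s' h
    have h1 : dsc s = dsc s' := by rw [← hg, ← hg, h]
    rcases s with ⟨x, hx⟩ | ⟨j, hj⟩ <;> rcases s' with ⟨x', hx'⟩ | ⟨j', hj'⟩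
    · simp only [dsc, Sum.elim_inl, Prod.mk.injEq] at h1
      have h2 := so_lt x.2
      have h3 := so_lt x'.2
      have h4 : x.1 = x'.1 := by omega
      have h5 : x.2 = x'.2 := so_inj (by omega)
      have h6 : x = x' := Prod.ext h4 h5
      subst h6
      rfl
    · simp only [dsc, Sum.elim_inl, Sum.elim_inr, Prod.mk.injEq] at h1
      exact absurd (h1.2.1.trans h1.2.2.symm) (huv x hx).1
    · simp only [dsc, Sum.elim_inl, Sum.elim_inr, Prod.mk.injEq] at h1
      exact absurd (h1.2.1.symm.trans h1.2.2) (huv x' hx').1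
    · simp only [dsc, Sum.elim_inr, Prod.mk.injEq] at h1
      have : j = j' := by omega
      subst this
      rfl
  have hsum : ∀ f : Fin (linesOf p B).length → ZMod p,
      ∑ i ∈ Finset.univ.map ⟨g, hginj⟩, f i = ∑ x : X, f (g (Sum.inl x)) +
        ∑ j : R, f (g (Sum.inr j)) := by
    intro f
    rw [Finset.sum_map, Fintype.sum_sum_type]
    rfl
  refine ⟨Finset.univ.map ⟨g, hginj⟩, ?_, ?_⟩
  · intro α β h0
    rw [sum_zero_iff] at h0
    obtain ⟨hV, hE⟩ := h0
    simp only [hsum, hg] at hV hE
    have ea1 : ∀ (x : X) t, ea p (dsc (Sum.inl x)) t = 0 := by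
      intro x t
      rw [ea, if_neg]
      exact (huv x.1 x.2).1
    have eb1 : ∀ (x : X) t, eb p (dsc (Sum.inl x)) t = if t = 2 * x.1.1 + so x.1.2 then 1 else 0 := by
      intro x t
      rw [eb, if_neg]
      · rfl
      · exact (huv x.1 x.2).1
    have ea2 : ∀ (j : R) t, ea p (dsc (Sum.inr j)) t = if t = 2 * j.1 then 1 else 0 := by
      intro x t
      rw [ea, if_pos]
      · rfl
      · rfl
    have eb2 : ∀ (j : R) t, eb p (dsc (Sum.inr j)) t = if t = 2 * j.1 + 1 then 1 else 0 := by
      intro x t
      rw [eb, if_pos]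
      · rfl
      · rfl
    have va1 : ∀ (x : X) w, va p (dsc (Sum.inl x)) w =
        (if w = u x.1 then 1 else 0) - (if w = v x.1 then 1 else 0) := by
      intro x w
      rw [va, if_neg]
      · rfl
      · exact (huv x.1 x.2).1
    have va2 : ∀ (j : R) w, va p (dsc (Sum.inr j)) w = 0 := by
      intro x w
      rw [va, if_pos]
      rfl
    simp only [ea1, eb1, ea2, eb2, va1, va2, mul_zero, zero_add, Finset.sum_const_zero,
      add_zero] at hV hE
    have hα : ∀ x : X, α (g (Sum.inl x)) = 0 := by
      have h1 := forest_indep (F := ZMod p) X u v (fun x hx => (huv x hx).1) hfor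
        (fun x => if h : x ∈ X then α (g (Sum.inl ⟨x, h⟩)) else 0) (by
          intro w
          by_cases hw : w ∈ names B
          · refine Eq.trans ?_ (hV w hw)
            rw [← Finset.sum_coe_sort X]
            apply Finset.sum_congr rfl
            intro x _
            simp only [x.2, dif_pos, Subtype.coe_eta]
          · apply Finset.sum_eq_zero
            intro x hx
            obtain ⟨h1, h2, h3⟩ := huv x hx
            rw [if_neg (fun h => hw (by rw [h]; exact edge_names B (hXlt x hx) h2)),
              if_neg (fun h => hw (by rw [h]; exact edge_names B (hXlt x hx) h3)), sub_zero,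
              mul_zero])
      intro x
      have := h1 x.1 x.2
      simpa [x.2] using this
    have hβ : ∀ x : X, β (g (Sum.inl x)) = 0 := by
      intro x
      have h2 := so_lt x.1.2
      have h1 := hE (2 * x.1.1 + so x.1.2) (by
        have := hXlt x.1 x.2
        omega)
      rw [Finset.sum_eq_single x, if_pos rfl, mul_one] at h1
      · rw [Finset.sum_eq_zero, add_zero] at h1
        · exact h1
        · intro j _
          have h3 : j.1 ≠ x.1.1 := by
            intro h
            exact (Finset.mem_sdiff.1 j.2).2 (by rw [h]; exact (Finset.mem_product.1 x.2).1)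
          rw [if_neg (by omega), if_neg (by omega), mul_zero, mul_zero, add_zero]
      · intro y _ hy
        rw [if_neg, mul_zero]
        intro h
        apply hy
        have h4 := so_lt y.1.2
        have h5 : x.1.1 = y.1.1 := by omega
        have h6 : x.1.2 = y.1.2 := so_inj (by omega)
        exact Subtype.ext (Prod.ext h5.symm h6.symm)
      · intro h
        exact absurd (Finset.mem_univ _) h
    have hR2 : ∀ j : R, α (g (Sum.inr j)) = 0 ∧ β (g (Sum.inr j)) = 0 := by
      intro j
      have hj : j.1 < B.length := Finset.mem_range.1 (Finset.mem_sdiff.1 j.2).1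
      have hz : ∀ t, t / 2 = j.1 → ∑ x : X, β (g (Sum.inl x)) *
          (if t = 2 * x.1.1 + so x.1.2 then (1 : ZMod p) else 0) = 0 := by
        intro t _
        apply Finset.sum_eq_zero
        intro x _
        rw [hβ, zero_mul]
      constructor
      · have h1 := hE (2 * j.1) (by omega)
        rw [hz _ (by omega), zero_add, Finset.sum_eq_single j] at h1
        · rw [if_pos rfl, if_neg (by omega), mul_one, mul_zero, add_zero] at h1
          exact h1
        · intro y _ hy
          have h3 : y.1 ≠ j.1 := fun h => hy (Subtype.ext h)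
          rw [if_neg (by omega), if_neg (by omega), mul_zero, mul_zero, add_zero]
        · intro h
          exact absurd (Finset.mem_univ _) h
      · have h1 := hE (2 * j.1 + 1) (by omega)
        rw [hz _ (by omega), zero_add, Finset.sum_eq_single j] at h1
        · rw [if_neg (by omega), if_pos rfl, mul_one, mul_zero, zero_add] at h1
          exact h1
        · intro y _ hy
          have h3 : y.1 ≠ j.1 := fun h => hy (Subtype.ext h)
          rw [if_neg (by omega), if_neg (by omega), mul_zero, mul_zero, add_zero]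
        · intro h
          exact absurd (Finset.mem_univ _) h
    intro i hi
    obtain ⟨s, _, rfl⟩ := Finset.mem_map.1 hi
    rcases s with x | j
    · exact ⟨hα x, hβ x⟩
    · exact hR2 j
  · rw [Finset.card_map, Finset.card_univ, Fintype.card_sum, Fintype.card_coe, Fintype.card_coe,
      hX, Finset.card_product, Finset.card_univ, Fintype.card_bool, hR,
      Finset.card_sdiff_of_subset hMr, Finset.card_range]
    have := Finset.card_le_card hMr
    rw [Finset.card_range] at this
    omega

theorem lines_to_match (M' : Finset (Fin (linesOf p B).length)) (hM' : IndepSet (ZMod p)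
      (la p (dimOf B) (linesOf p B)) (lb p (dimOf B) (linesOf p B)) M') :
    ∃ M : Finset ℕ, IsMatch B M ∧ M'.card ≤ B.length + M.card := by
  classical
  -- two vectors of different lines of `M'` never coincide
  have hne_bb : ∀ i ∈ M', ∀ i' ∈ M', i ≠ i' →
      lb p (dimOf B) (linesOf p B) i ≠ lb p (dimOf B) (linesOf p B) i' := by
    intro i hi i' hi' hne h
    have h1 := hM' 0 (fun k => if k = i then 1 else if k = i' then -1 else 0) (by
      rw [← Finset.add_sum_erase _ _ hi, ← Finset.add_sum_erase _ _
        (Finset.mem_erase.2 ⟨hne.symm, hi'⟩)]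
      rw [Finset.sum_eq_zero]
      · rw [if_pos rfl, if_neg hne.symm, if_pos rfl, h]
        simp
      · intro k hk
        rw [Finset.mem_erase, Finset.mem_erase] at hk
        rw [if_neg hk.2.1, if_neg hk.1]
        simp) i hi
    simp at h1
  have hne_aa : ∀ i ∈ M', ∀ i' ∈ M', i ≠ i' →
      la p (dimOf B) (linesOf p B) i ≠ la p (dimOf B) (linesOf p B) i' := by
    intro i hi i' hi' hne h
    have h1 := hM' (fun k => if k = i then 1 else if k = i' then -1 else 0) 0 (by
      rw [← Finset.add_sum_erase _ _ hi, ← Finset.add_sum_erase _ _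
        (Finset.mem_erase.2 ⟨hne.symm, hi'⟩)]
      rw [Finset.sum_eq_zero]
      · rw [if_pos rfl, if_neg hne.symm, if_pos rfl, h]
        simp
      · intro k hk
        rw [Finset.mem_erase, Finset.mem_erase] at hk
        rw [if_neg hk.2.1, if_neg hk.1]
        simp) i hi
    simp at h1
  have hne_ab : ∀ i ∈ M', ∀ i' ∈ M', i ≠ i' →
      la p (dimOf B) (linesOf p B) i ≠ lb p (dimOf B) (linesOf p B) i' := by
    intro i hi i' hi' hne h
    have h1 := hM' (fun k => if k = i then 1 else 0) (fun k => if k = i' then -1 else 0) (by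
      rw [← Finset.add_sum_erase _ _ hi, ← Finset.add_sum_erase _ _
        (Finset.mem_erase.2 ⟨hne.symm, hi'⟩)]
      rw [Finset.sum_eq_zero]
      · rw [if_pos rfl, if_neg hne.symm, if_neg hne, if_pos rfl, h]
        simp
      · intro k hk
        rw [Finset.mem_erase, Finset.mem_erase] at hk
        rw [if_neg hk.2.1, if_neg hk.1]
        simp) i hi
    simp at h1
  -- the vectors in terms of descriptions
  have hla : ∀ i, (dd p B i).2.1 = (dd p B i).2.2 → la p (dimOf B) (linesOf p B) i =
      vec p (dimOf B) (ev (names B) (List.range (2 * B.length)) (dd p B i).1) := by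
    intro i h
    rw [la, get_lines, lineOf, if_pos h]
  have hlb1 : ∀ i, (dd p B i).2.1 = (dd p B i).2.2 → lb p (dimOf B) (linesOf p B) i =
      vec p (dimOf B) (ev (names B) (List.range (2 * B.length)) ((dd p B i).1 + 1)) := by
    intro i h
    rw [lb, get_lines, lineOf, if_pos h]
  have hlb2 : ∀ i, (dd p B i).2.1 ≠ (dd p B i).2.2 → lb p (dimOf B) (linesOf p B) i =
      vec p (dimOf B) (ev (names B) (List.range (2 * B.length)) (dd p B i).1) := by
    intro i h
    rw [lb, get_lines, lineOf, if_neg h]
  -- block lines exclude everything else in the block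
  have hblk : ∀ i ∈ M', ∀ i' ∈ M', i ≠ i' → (dd p B i).1 / 2 = (dd p B i').1 / 2 →
      (dd p B i).2.1 ≠ (dd p B i).2.2 := by
    intro i hi i' hi' hne hb heq
    have h1 : ∃ j, dd p B i = (2 * j, 0, 0) := by
      rcases desc_cases B (dd_mem p B i) with ⟨x, _, _, h, _⟩ | ⟨j, _, h⟩
      · exact absurd heq h
      · exact ⟨j, h⟩
    obtain ⟨j, hj⟩ := h1
    have hj1 : (dd p B i).1 = 2 * j := by rw [hj]
    by_cases h2 : (dd p B i').2.1 = (dd p B i').2.2
    · have h3 : ∃ j', dd p B i' = (2 * j', 0, 0) := by
        rcases desc_cases B (dd_mem p B i') with ⟨x, _, _, h, _⟩ | ⟨j', _, h⟩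
        · exact absurd h2 h
        · exact ⟨j', h⟩
      obtain ⟨j', hj'⟩ := h3
      have hj1' : (dd p B i').1 = 2 * j' := by rw [hj']
      apply hne_aa i hi i' hi' hne
      rw [hla i heq, hla i' h2, hj1, hj1']
      congr 2
      omega
    · have h4 : (dd p B i').1 = 2 * j ∨ (dd p B i').1 = 2 * j + 1 := by omega
      rcases h4 with h4 | h4
      · apply hne_ab i hi i' hi' hne
        rw [hla i heq, hlb2 i' h2, hj1, h4]
      · apply hne_bb i hi i' hi' hne
        rw [hlb1 i heq, hlb2 i' h2, hj1, h4]
  have hedge : ∀ i ∈ M', ∀ i' ∈ M', (dd p B i).2.1 ≠ (dd p B i).2.2 →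
      (dd p B i').2.1 ≠ (dd p B i').2.2 → (dd p B i).1 = (dd p B i').1 → i = i' := by
    intro i hi i' hi' h1 h2 h3
    by_contra hne
    apply hne_bb i hi i' hi' hne
    rw [hlb2 i h1, hlb2 i' h2, h3]
  set M : Finset ℕ := (Finset.range B.length).filter (fun j => ∀ s : Bool, ∃ i ∈ M',
    (dd p B i).2.1 ≠ (dd p B i).2.2 ∧ (dd p B i).1 = 2 * j + so s) with hM
  refine ⟨M, ⟨Finset.filter_subset _ _, ?_⟩, ?_⟩
  · -- independence
    intro Y hY hYne
    have hsel : ∀ x : Y, ∃ i ∈ M', (dd p B i).2.1 ≠ (dd p B i).2.2 ∧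
        (dd p B i).1 = 2 * x.1.1 + so x.1.2 := by
      intro x
      exact (Finset.mem_filter.1 (Finset.mem_product.1 (hY x.2)).1).2 x.1.2
    choose ix hix1 hix2 hix3 using hsel
    have hinj : Function.Injective ix := by
      intro x x' h
      have h1 : 2 * x.1.1 + so x.1.2 = 2 * x'.1.1 + so x'.1.2 := by rw [← hix3, ← hix3, h]
      have h2 := so_lt x.1.2
      have h3 := so_lt x'.1.2
      exact Subtype.ext (Prod.ext (by omega) (so_inj (by omega)))
    have hmem : ∀ x : Y, (dd p B (ix x)).2.1 ∈ edgeOf B x.1 ∧ (dd p B (ix x)).2.2 ∈ edgeOf B x.1 := by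
      intro x
      rcases desc_cases B (dd_mem p B (ix x)) with ⟨y, _, h1, _, h2, h3⟩ | ⟨j, _, h⟩
      · have h4 : y = x.1 := by
          have h5 := hix3 x
          have h6 := so_lt x.1.2
          have h7 := so_lt y.2
          exact Prod.ext (by omega) (so_inj (by omega))
        rw [h4] at h2 h3
        exact ⟨h2, h3⟩
      · exact absurd (by rw [h]) (hix2 x)
    refine diff_card (F := ZMod p) Y (Y.biUnion (edgeOf B))
      (fun x => if h : x ∈ Y then (dd p B (ix ⟨x, h⟩)).2.1 else 0)
      (fun x => if h : x ∈ Y then (dd p B (ix ⟨x, h⟩)).2.2 else 0) ?_ hYne ?_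
    · intro x hx
      simp only [hx, dif_pos]
      exact ⟨Finset.mem_biUnion.2 ⟨x, hx, (hmem ⟨x, hx⟩).1⟩,
        Finset.mem_biUnion.2 ⟨x, hx, (hmem ⟨x, hx⟩).2⟩⟩
    · intro α hα
      have hsub : Finset.univ.map ⟨ix, hinj⟩ ⊆ M' := by
        intro i hi
        obtain ⟨x, _, rfl⟩ := Finset.mem_map.1 hi
        exact hix1 x
      have hI := hM'.mono hsub
      have hYn : Nonempty Y := ⟨⟨hYne.choose, hYne.choose_spec⟩⟩
      have h1 := hI (fun i => α ((Function.invFun ix i : Y) : ℕ × Bool)) 0 (by
        rw [sum_zero_iff]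
        constructor
        · intro w _
          rw [Finset.sum_map]
          simp only [Function.Embedding.coeFn_mk]
          have e1 : ∀ x : Y, α ((Function.invFun ix (ix x) : Y) : ℕ × Bool) *
              va p (dd p B (ix x)) w = α x.1 * ((if w = (dd p B (ix x)).2.1 then 1 else 0) -
                (if w = (dd p B (ix x)).2.2 then 1 else 0)) := by
            intro x
            rw [Function.leftInverse_invFun hinj x, va, if_neg (hix2 x)]
          rw [Finset.sum_congr rfl (fun x _ => e1 x)]
          by_cases hw : w ∈ Y.biUnion (edgeOf B)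
          · refine Eq.trans ?_ (hα w hw)
            rw [← Finset.sum_coe_sort Y]
            apply Finset.sum_congr rfl
            intro x _
            simp only [x.2, dif_pos, Subtype.coe_eta]
          · apply Finset.sum_eq_zero
            intro x _
            rw [if_neg, if_neg, sub_zero, mul_zero]
            · intro h
              exact hw (Finset.mem_biUnion.2 ⟨x.1, x.2, by rw [h]; exact (hmem x).2⟩)
            · intro h
              exact hw (Finset.mem_biUnion.2 ⟨x.1, x.2, by rw [h]; exact (hmem x).1⟩)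
        · intro t _
          rw [Finset.sum_map]
          apply Finset.sum_eq_zero
          intro x _
          simp only [Function.Embedding.coeFn_mk]
          rw [ea, if_neg (hix2 x)]
          simp)
      intro x hx
      have h2 := (h1 (ix ⟨x, hx⟩) (Finset.mem_map.2 ⟨⟨x, hx⟩, Finset.mem_univ _, rfl⟩)).1
      simp only [Function.leftInverse_invFun hinj ⟨x, hx⟩] at h2
      exact h2
  · -- counting
    have hmaps : ∀ i ∈ M', (dd p B i).1 / 2 ∈ Finset.range B.length := by
      intro i _
      rw [Finset.mem_range]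
      rcases desc_cases B (dd_mem p B i) with ⟨y, hy, h1, _⟩ | ⟨j, hj, h⟩
      · have := so_lt y.2
        omega
      · rw [h]
        omega
    rw [Finset.card_eq_sum_card_fiberwise hmaps]
    have hfib : ∀ j ∈ Finset.range B.length,
        (M'.filter (fun i => (dd p B i).1 / 2 = j)).card ≤ 1 + if j ∈ M then 1 else 0 := by
      intro j hj
      by_contra hgt
      push Not at hgt
      have h1 : 1 < (M'.filter (fun i => (dd p B i).1 / 2 = j)).card := by omega
      have hall : ∀ i ∈ M'.filter (fun i => (dd p B i).1 / 2 = j),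
          (dd p B i).2.1 ≠ (dd p B i).2.2 := by
        intro i hi
        obtain ⟨i', hi', hne⟩ := Finset.exists_mem_ne h1 i
        rw [Finset.mem_filter] at hi hi'
        exact hblk i hi.1 i' hi'.1 hne.symm (by rw [hi.2, hi'.2])
      have hinj : Set.InjOn (fun i => (dd p B i).1) (M'.filter (fun i => (dd p B i).1 / 2 = j)) := by
        intro i hi i' hi' h
        have a1 := hall i hi
        have a2 := hall i' hi'
        rw [Finset.mem_coe, Finset.mem_filter] at hi hi'
        exact hedge i hi.1 i' hi'.1 a1 a2 h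
      have himg : (M'.filter (fun i => (dd p B i).1 / 2 = j)).image (fun i => (dd p B i).1) ⊆
          {2 * j, 2 * j + 1} := by
        intro t ht
        obtain ⟨i, hi, rfl⟩ := Finset.mem_image.1 ht
        rw [Finset.mem_filter] at hi
        rw [Finset.mem_insert, Finset.mem_singleton]
        omega
      have hcard2 := Finset.card_le_card himg
      rw [Finset.card_image_of_injOn hinj] at hcard2
      have hc2 : ({2 * j, 2 * j + 1} : Finset ℕ).card = 2 := Finset.card_pair (by omega)
      have hjM : j ∈ M := by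
        have heq : (M'.filter (fun i => (dd p B i).1 / 2 = j)).image (fun i => (dd p B i).1) =
            {2 * j, 2 * j + 1} := by
          apply Finset.eq_of_subset_of_card_le himg
          rw [Finset.card_image_of_injOn hinj, hc2]
          omega
        rw [hM, Finset.mem_filter]
        refine ⟨hj, fun s => ?_⟩
        have hs : 2 * j + so s ∈ ({2 * j, 2 * j + 1} : Finset ℕ) := by
          cases s <;> simp [so]
        rw [← heq] at hs
        obtain ⟨i, hi, hi2⟩ := Finset.mem_image.1 hs
        exact ⟨i, (Finset.mem_filter.1 hi).1, hall i hi, hi2⟩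
      rw [if_pos hjM] at hgt
      omega
    refine (Finset.sum_le_sum hfib).trans ?_
    rw [Finset.sum_add_distrib, Finset.sum_const, smul_eq_mul, mul_one, Finset.card_range]
    rw [← Finset.card_filter]
    apply Nat.add_le_add_left
    exact Finset.card_le_card (fun j hj => (Finset.mem_filter.1 hj).2)

end

end Pool.Agent.H442R3.MPar
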