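import Mathlib

/-!
# Trimming hyperforests
-/

namespace Pool.Agent.H442R3.MPar

open Finset

/-- hypergraphic independence of a family of hyperedges -/
def HypIndep {ε : Type*} (h : ε → Finset ℕ) (X : Finset ε) : Prop :=
  ∀ Y ⊆ X, Y.Nonempty → Y.card + 1 ≤ (Y.biUnion h).card

section

variable {ε : Type*} [DecidableEq ε]

theorem trim_step (X : Finset ε) (h : ε → Finset ℕ) (hI : HypIndep h X) (x0 : ε)
    (h3 : 3 ≤ (h x0).card) :
    ∃ v ∈ h x0, HypIndep (Function.update h x0 ((h x0).erase v)) X := by
  by_contra hno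
  push Not at hno
  obtain ⟨v, hv⟩ : ∃ v, v ∈ h x0 := by
    have : (h x0).Nonempty := by rw [← Finset.card_pos]; omega
    exact this
  obtain ⟨w, hw⟩ : ∃ w, w ∈ (h x0).erase v := by
    have : ((h x0).erase v).Nonempty := by
      rw [← Finset.card_pos, Finset.card_erase_of_mem hv]; omega
    exact this
  have hwv : w ≠ v := Finset.ne_of_mem_erase hw
  have hw' : w ∈ h x0 := Finset.mem_of_mem_erase hw
  -- violating sets
  have key : ∀ z ∈ h x0, ∃ A ⊆ X, x0 ∉ A ∧ x0 ∈ X ∧
      (A.biUnion h ∪ (h x0).erase z).card ≤ A.card + 1 := by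
    intro z hz
    have h1 := hno z hz
    rw [HypIndep] at h1
    push Not at h1
    obtain ⟨Y, hYX, hYne, hYc⟩ := h1
    by_cases hx : x0 ∈ Y
    · refine ⟨Y.erase x0, (Finset.erase_subset _ _).trans hYX, Finset.notMem_erase _ _,
        hYX hx, ?_⟩
      have e1 : Y.biUnion (Function.update h x0 ((h x0).erase z)) =
          (Y.erase x0).biUnion h ∪ (h x0).erase z := by
        ext y
        simp only [Finset.mem_biUnion, Finset.mem_union, Finset.mem_erase]
        constructor
        · rintro ⟨a, ha, hy⟩
          by_cases hax : a = x0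
          · subst hax
            rw [Function.update_self, Finset.mem_erase] at hy
            exact Or.inr hy
          · rw [Function.update_of_ne hax] at hy
            exact Or.inl ⟨a, ⟨hax, ha⟩, hy⟩
        · rintro (⟨a, ⟨hax, ha⟩, hy⟩ | hy)
          · exact ⟨a, ha, by rwa [Function.update_of_ne hax]⟩
          · exact ⟨x0, hx, by rw [Function.update_self, Finset.mem_erase]; exact hy⟩
      rw [e1] at hYc
      rw [Finset.card_erase_of_mem hx]
      have : 0 < Y.card := Finset.card_pos.2 hYne
      omega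
    · exfalso
      have e1 : Y.biUnion (Function.update h x0 ((h x0).erase z)) = Y.biUnion h := by
        apply Finset.biUnion_congr rfl
        intro a ha
        rw [Function.update_of_ne]
        rintro rfl
        exact hx ha
      rw [e1] at hYc
      have := hI Y hYX hYne
      omega
  obtain ⟨A, hAX, hA0, hx0, hAc⟩ := key v hv
  obtain ⟨B, hBX, hB0, _, hBc⟩ := key w hw'
  have hun : (insert x0 (A ∪ B)).card + 1 ≤
      ((A.biUnion h ∪ (h x0).erase v) ∪ (B.biUnion h ∪ (h x0).erase w)).card := by
    have h1 := hI (insert x0 (A ∪ B)) (Finset.insert_subset hx0 (Finset.union_subset hAX hBX))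
      (Finset.insert_nonempty _ _)
    refine h1.trans (Finset.card_le_card ?_)
    intro y hy
    simp only [Finset.mem_biUnion, Finset.mem_insert, Finset.mem_union, Finset.mem_erase] at hy ⊢
    obtain ⟨a, rfl | ha | ha, hy⟩ := hy
    · by_cases hyv : y = v
      · subst hyv
        exact Or.inr (Or.inr ⟨fun h => hwv h.symm, hy⟩)
      · exact Or.inl (Or.inr ⟨hyv, hy⟩)
    · exact Or.inl (Or.inl ⟨a, ha, hy⟩)
    · exact Or.inr (Or.inl ⟨a, ha, hy⟩)
  have hin : (A ∩ B).card + 1 ≤
      ((A.biUnion h ∪ (h x0).erase v) ∩ (B.biUnion h ∪ (h x0).erase w)).card := by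
    by_cases hAB : (A ∩ B).Nonempty
    · have h1 := hI (A ∩ B) (Finset.inter_subset_left.trans hAX) hAB
      refine h1.trans (Finset.card_le_card ?_)
      intro y hy
      simp only [Finset.mem_biUnion, Finset.mem_inter, Finset.mem_union] at hy ⊢
      obtain ⟨a, ⟨ha, hb⟩, hy⟩ := hy
      exact ⟨Or.inl ⟨a, ha, hy⟩, Or.inl ⟨a, hb, hy⟩⟩
    · rw [Finset.not_nonempty_iff_eq_empty] at hAB
      rw [hAB, Finset.card_empty, zero_add]
      have h1 : 0 < (((h x0).erase v).erase w).card := by
        rw [Finset.card_erase_of_mem hw, Finset.card_erase_of_mem hv]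
        omega
      refine h1.trans_le (Finset.card_le_card ?_)
      intro y hy
      simp only [Finset.mem_erase, Finset.mem_inter, Finset.mem_union] at hy ⊢
      exact ⟨Or.inr ⟨hy.2.1, hy.2.2⟩, Or.inr ⟨hy.1, hy.2.2⟩⟩
  have c1 := Finset.card_union_add_card_inter (A.biUnion h ∪ (h x0).erase v)
    (B.biUnion h ∪ (h x0).erase w)
  have c2 := Finset.card_union_add_card_inter A B
  rw [Finset.card_insert_of_notMem (by simp [hA0, hB0])] at hun
  omega

/-- A hyperforest can be trimmed to a forest. -/
theorem trim : ∀ (k : ℕ) (X : Finset ε) (h : ε → Finset ℕ), (∑ x ∈ X, (h x).card) = k →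
    HypIndep h X → ∃ u v : ε → ℕ, (∀ x ∈ X, u x ≠ v x ∧ u x ∈ h x ∧ v x ∈ h x) ∧
      HypIndep (fun x => ({u x, v x} : Finset ℕ)) X := by
  intro k
  induction k using Nat.strong_induction_on with
  | _ k ih =>
    intro X h hk hI
    have h2 : ∀ x ∈ X, 2 ≤ (h x).card := by
      intro x hx
      have := hI {x} (Finset.singleton_subset_iff.2 hx) (Finset.singleton_nonempty _)
      simpa using this
    by_cases hall : ∀ x ∈ X, (h x).card = 2
    · have h4 : ∀ x, ∃ u v : ℕ, x ∈ X → (u ≠ v ∧ h x = {u, v}) := by
        intro x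
        by_cases hx : x ∈ X
        · obtain ⟨u, v, huv, he⟩ := Finset.card_eq_two.1 (hall x hx)
          exact ⟨u, v, fun _ => ⟨huv, he⟩⟩
        · exact ⟨0, 0, fun h => absurd h hx⟩
      choose u v huv using h4
      refine ⟨u, v, fun x hx => ?_, ?_⟩
      · obtain ⟨h5, h6⟩ := huv x hx
        refine ⟨h5, ?_, ?_⟩ <;> rw [h6] <;> simp
      · intro Y hY hYne
        have e1 : Y.biUnion (fun x => ({u x, v x} : Finset ℕ)) = Y.biUnion h := by
          apply Finset.biUnion_congr rfl
          intro x hx
          exact (huv x (hY hx)).2.symm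
        rw [e1]
        exact hI Y hY hYne
    · push Not at hall
      obtain ⟨x0, hx0, hne⟩ := hall
      have h3 : 3 ≤ (h x0).card := by
        have := h2 x0 hx0
        omega
      obtain ⟨z, hz, hI'⟩ := trim_step X h hI x0 h3
      have hlt : (∑ x ∈ X, (Function.update h x0 ((h x0).erase z) x).card) < k := by
        rw [← hk]
        apply Finset.sum_lt_sum
        · intro x _
          by_cases hxx : x = x0
          · subst hxx
            rw [Function.update_self]
            exact Finset.card_le_card (Finset.erase_subset _ _)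
          · rw [Function.update_of_ne hxx]
        · refine ⟨x0, hx0, ?_⟩
          rw [Function.update_self]
          exact Finset.card_erase_lt_of_mem hz
      obtain ⟨u, v, huv, hI''⟩ := ih _ hlt X _ rfl hI'
      refine ⟨u, v, fun x hx => ?_, hI''⟩
      obtain ⟨h5, h6, h7⟩ := huv x hx
      have hsub : Function.update h x0 ((h x0).erase z) x ⊆ h x := by
        by_cases hxx : x = x0
        · subst hxx
          rw [Function.update_self]
          exact Finset.erase_subset _ _
        · rw [Function.update_of_ne hxx]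
      exact ⟨h5, hsub h6, hsub h7⟩

omit [DecidableEq ε] in
/-- In a forest the difference vectors are independent. -/
theorem forest_indep {F : Type*} [Field F] (X : Finset ε) (u v : ε → ℕ)
    (huv : ∀ x ∈ X, u x ≠ v x) (hI : HypIndep (fun x => ({u x, v x} : Finset ℕ)) X)
    (α : ε → F) (h0 : ∀ w : ℕ, ∑ x ∈ X, α x * ((if w = u x then 1 else 0) -
      (if w = v x then 1 else 0)) = 0) : ∀ x ∈ X, α x = 0 := by
  classical
  by_contra hno
  push Not at hno
  obtain ⟨x1, hx1, hne⟩ := hno
  set Y := X.filter (fun x => α x ≠ 0) with hY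
  have hYne : Y.Nonempty := ⟨x1, Finset.mem_filter.2 ⟨hx1, hne⟩⟩
  have h1 := hI Y (Finset.filter_subset _ _) hYne
  set U := Y.biUnion (fun x => ({u x, v x} : Finset ℕ)) with hU
  have hdeg : ∀ w ∈ U, 2 ≤ (Y.filter (fun x => w ∈ ({u x, v x} : Finset ℕ))).card := by
    intro w hw
    obtain ⟨x, hx, hwx⟩ := Finset.mem_biUnion.1 hw
    by_contra hlt
    push Not at hlt
    have hx' : x ∈ Y.filter (fun x => w ∈ ({u x, v x} : Finset ℕ)) :=
      Finset.mem_filter.2 ⟨hx, hwx⟩
    have huniq : ∀ y ∈ Y, w ∈ ({u y, v y} : Finset ℕ) → y = x := by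
      intro y hy hwy
      have hy' : y ∈ Y.filter (fun x => w ∈ ({u x, v x} : Finset ℕ)) :=
        Finset.mem_filter.2 ⟨hy, hwy⟩
      exact Finset.card_le_one.1 (by omega) _ hy' _ hx'
    have h2 := h0 w
    rw [Finset.sum_eq_single x] at h2
    · have hxX := (Finset.mem_filter.1 hx).1
      have hxa := (Finset.mem_filter.1 hx).2
      have hne' := huv x hxX
      simp only [Finset.mem_insert, Finset.mem_singleton] at hwx
      rcases hwx with rfl | rfl
      · rw [if_pos rfl, if_neg hne', sub_zero, mul_one] at h2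
        exact hxa h2
      · rw [if_neg (Ne.symm hne'), if_pos rfl, zero_sub, mul_neg, mul_one, neg_eq_zero] at h2
        exact hxa h2
    · intro y hy hyx
      by_cases hya : α y = 0
      · rw [hya, zero_mul]
      · have hyY : y ∈ Y := Finset.mem_filter.2 ⟨hy, hya⟩
        have : w ∉ ({u y, v y} : Finset ℕ) := fun h => hyx (huniq y hyY h)
        simp only [Finset.mem_insert, Finset.mem_singleton, not_or] at this
        rw [if_neg this.1, if_neg this.2, sub_zero, mul_zero]
    · intro hx'
      exact absurd (Finset.mem_filter.1 hx).1 hx'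
  have hcount : ∑ w ∈ U, (Y.filter (fun x => w ∈ ({u x, v x} : Finset ℕ))).card = 2 * Y.card := by
    simp only [Finset.card_filter]
    rw [Finset.sum_comm]
    have : ∀ x ∈ Y, ∑ w ∈ U, (if w ∈ ({u x, v x} : Finset ℕ) then 1 else 0) = 2 := by
      intro x hx
      rw [← Finset.card_filter]
      have e1 : U.filter (fun w => w ∈ ({u x, v x} : Finset ℕ)) = {u x, v x} := by
        ext w
        rw [Finset.mem_filter]
        constructor
        · exact fun h => h.2
        · exact fun h => ⟨Finset.mem_biUnion.2 ⟨x, hx, h⟩, h⟩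
      rw [e1, Finset.card_pair (huv x (Finset.mem_filter.1 hx).1)]
    rw [Finset.sum_congr rfl this, Finset.sum_const, smul_eq_mul, mul_comm]
  have h3 : 2 * U.card ≤ 2 * Y.card := by
    rw [← hcount, mul_comm]
    rw [← smul_eq_mul]
    exact Finset.card_nsmul_le_sum _ _ _ hdeg
  omega

/-- Independent difference vectors supported on `U` number at most `|U| - 1`. -/
theorem diff_card {F : Type*} [Field F] (Y : Finset ε) (U : Finset ℕ) (u v : ε → ℕ)
    (hu : ∀ x ∈ Y, u x ∈ U ∧ v x ∈ U) (hY : Y.Nonempty)
    (hI : ∀ α : ε → F, (∀ w ∈ U, ∑ x ∈ Y, α x * ((if w = u x then 1 else 0) -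
      (if w = v x then 1 else 0)) = 0) → ∀ x ∈ Y, α x = 0) : Y.card + 1 ≤ U.card := by
  classical
  let T : (Y → F) →ₗ[F] (U → F) := Fintype.linearCombination F
    (fun (x : Y) (w : U) => ((if (w : ℕ) = u x then 1 else 0) - (if (w : ℕ) = v x then 1 else 0) : F))
  have hT : ∀ α w, T α w = ∑ x : Y, α x * ((if (w : ℕ) = u x then 1 else 0) -
      (if (w : ℕ) = v x then 1 else 0)) := by
    intro α w
    rw [Fintype.linearCombination_apply, Finset.sum_apply]
    rfl
  have hinj : Function.Injective T := by
    rw [← LinearMap.ker_eq_bot, LinearMap.ker_eq_bot']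
    intro α h0
    have h1 := hI (fun x => if h : x ∈ Y then α ⟨x, h⟩ else 0) (by
      intro w hw
      have h2 := congrFun h0 ⟨w, hw⟩
      rw [hT, Pi.zero_apply] at h2
      refine Eq.trans ?_ h2
      rw [← Finset.sum_coe_sort Y]
      apply Finset.sum_congr rfl
      intro x _
      simp only [x.2, dif_pos, Subtype.coe_eta])
    funext x
    have := h1 x x.2
    simpa [x.2] using this
  let S : (U → F) →ₗ[F] F := ∑ w : U, LinearMap.proj w
  have hS : ∀ y, S y = ∑ w, y w := by
    intro y
    rw [LinearMap.sum_apply]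
    rfl
  obtain ⟨x0, hx0⟩ := hY
  have hS0 : S ≠ 0 := by
    intro h
    have h1 := LinearMap.congr_fun h (Pi.single ⟨u x0, (hu x0 hx0).1⟩ 1)
    rw [hS, LinearMap.zero_apply] at h1
    simp at h1
  have hle : LinearMap.range T ≤ LinearMap.ker S := by
    rintro _ ⟨α, rfl⟩
    rw [LinearMap.mem_ker, hS]
    simp only [hT]
    rw [Finset.sum_comm]
    apply Finset.sum_eq_zero
    intro x _
    rw [← Finset.mul_sum, Finset.sum_sub_distrib]
    have e1 : ∑ w : U, (if (w : ℕ) = u x then (1 : F) else 0) = 1 := by
      rw [Finset.sum_eq_single (⟨u x, (hu x x.2).1⟩ : U)]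
      · rw [if_pos rfl]
      · intro w _ hw
        rw [if_neg]
        intro h
        exact hw (Subtype.ext h)
      · intro h
        exact absurd (Finset.mem_univ _) h
    have e2 : ∑ w : U, (if (w : ℕ) = v x then (1 : F) else 0) = 1 := by
      rw [Finset.sum_eq_single (⟨v x, (hu x x.2).2⟩ : U)]
      · rw [if_pos rfl]
      · intro w _ hw
        rw [if_neg]
        intro h
        exact hw (Subtype.ext h)
      · intro h
        exact absurd (Finset.mem_univ _) h
    rw [e1, e2, sub_self, mul_zero]
  have d1 := Submodule.finrank_mono hle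
  rw [LinearMap.finrank_range_of_inj hinj, Module.finrank_fintype_fun_eq_card,
    Fintype.card_coe] at d1
  have d2 := Module.Dual.finrank_ker_add_one_of_ne_zero hS0
  rw [Module.finrank_fintype_fun_eq_card, Fintype.card_coe] at d2
  omega

end

end Pool.Agent.H442R3.MPar
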