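import Pool.Agent.H442R3.MPar.Sem

/-!
# Correctness of the local search
-/

namespace Pool.Agent.H442R3.MPar

open Module

section

variable (p : ℕ) [hp : Fact p.Prime] (n : ℕ)

theorem upd_vec (m : ℕ) (x : List ℕ) (k k' : Fin m) (v v' : ℕ) :
    vec p m (upd (List.range m) x k v k' v') =
      Function.update (Function.update (vec p m x) k (v : ZMod p)) k' (v' : ZMod p) := by
  funext i
  rw [vec, upd, getD_map_range]
  by_cases h : i = k'
  · subst h
    rw [if_pos rfl, Function.update_self]
  · have h' : (i : ℕ) ≠ k' := fun e => h (Fin.ext e)
    rw [if_neg h', Function.update_of_ne h]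
    by_cases h2 : i = k
    · subst h2
      rw [if_pos rfl, Function.update_self]
    · have h2' : (i : ℕ) ≠ k := fun e => h2 (Fin.ext e)
      rw [if_neg h2', Function.update_of_ne h2]
      rfl

theorem iter_dec {Rn RN Im Fp : List ℕ} {lines : List (List ℕ × List ℕ)} (x0 : List ℕ) (k : ℕ) :
    (∀ y ∈ nbr Im Fp ((impr p Rn RN Im Fp lines)^[k] x0),
      psiL p Rn RN lines ((impr p Rn RN Im Fp lines)^[k] x0) ≤ psiL p Rn RN lines y) ∨
    psiL p Rn RN lines ((impr p Rn RN Im Fp lines)^[k] x0) + k ≤ psiL p Rn RN lines x0 := by
  induction k with
  | zero => right; simp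
  | succ k ih =>
    rw [Function.iterate_succ_apply']
    set x := (impr p Rn RN Im Fp lines)^[k] x0
    rcases impr_mem p Rn RN Im Fp lines x with h | h
    · left
      rw [h.1]
      exact h.2
    · rcases ih with ih | ih
      · exact absurd (ih _ h.1) (not_le.2 h.2)
      · right
        have := h.2
        omega

theorem nulL_le (Rn RN : List ℕ) (lines : List (List ℕ × List ℕ)) (x : List ℕ)
    (j k : List ℕ × List ℕ) : nulL p Rn RN lines x j k ≤ RN.length := by
  rw [nulL, kerL]
  have := (kfold_inv hp.out.pos RN (rowsL p Rn lines x j k) (stdB RN)
    (fun v hv => sz_stdB RN hv)).2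
  rwa [stdB, List.length_map] at this

theorem psiL_le (Rn RN : List ℕ) (lines : List (List ℕ × List ℕ)) (x : List ℕ) :
    psiL p Rn RN lines x ≤ (lines.length + 1) ^ 2 * RN.length := by
  rw [psiL, sum_flatMap']
  have h1 : ∀ l : List (List ℕ × List ℕ), ∀ f : List ℕ × List ℕ → ℕ, ∀ B, (∀ j, f j ≤ B) →
      (l.map f).sum ≤ l.length * B := by
    intro l f B hB
    induction l with
    | nil => simp
    | cons a l ih =>
      rw [List.map_cons, List.sum_cons, List.length_cons]
      have := hB a
      nlinarith
  refine (h1 _ _ ((lines.length + 1) * RN.length) fun j => ?_).trans ?_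
  · refine (h1 _ _ RN.length fun k => nulL_le p _ _ _ _ _ _).trans ?_
    rw [List.length_cons]
  · rw [List.length_cons, sq, mul_assoc]

/-- **Correctness of the matroid parity algorithm.** -/
theorem lines_correct (lines : List (List ℕ × List ℕ))
    (hlen : ∀ l ∈ lines, l.1.length ≤ n ∧ l.2.length ≤ n)
    (hdim : ∀ i, finrank (ZMod p) (ln (ZMod p) (la p n lines i) (lb p n lines i)) = 2)
    (hpb : (lines.length + 1) ^ 2 * (n + 2) + 2 < p) (T : List ℕ)
    (hT : (lines.length + 1) ^ 2 * (n + 2) ≤ T.length) :
    (∀ M, IndepSet (ZMod p) (la p n lines) (lb p n lines) M → M.card ≤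
      hrank p (List.range n) (List.range (n + 2)) lines
        (search p (List.range n) (List.range (n + 2)) (List.range lines.length)
          (List.range p) lines T)) ∧
    ∃ M, IndepSet (ZMod p) (la p n lines) (lb p n lines) M ∧ M.card =
      hrank p (List.range n) (List.range (n + 2)) lines
        (search p (List.range n) (List.range (n + 2)) (List.range lines.length)
          (List.range p) lines T) := by
  set xl := search p (List.range n) (List.range (n + 2)) (List.range lines.length)
          (List.range p) lines T with hxl
  have hst : IsSt (List.range lines.length) (List.range p) xl := iter_st T.length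
  have hlx : xl.length = lines.length := by
    rw [hst.1, List.length_range]
  have hmin : ∀ y ∈ nbr (List.range lines.length) (List.range p) xl,
      psiL p (List.range n) (List.range (n + 2)) lines xl ≤
      psiL p (List.range n) (List.range (n + 2)) lines y := by
    rcases iter_dec p (Rn := List.range n) (RN := List.range (n + 2))
      (Im := List.range lines.length) (Fp := List.range p) (lines := lines)
      ((List.range lines.length).map (fun _ => 0)) T.length with h | h
    · exact h
    · intro y _
      have h1 := psiL_le p (List.range n) (List.range (n + 2)) lines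
        ((List.range lines.length).map (fun _ => 0))
      rw [List.length_range] at h1
      have h2 : psiL p (List.range n) (List.range (n + 2)) lines xl = 0 := by
        have h3 : psiL p (List.range n) (List.range (n + 2)) lines xl + T.length ≤
          psiL p (List.range n) (List.range (n + 2)) lines
            ((List.range lines.length).map (fun _ => 0)) := h
        omega
      rw [h2]
      exact Nat.zero_le _
  have h2 : (2 : ZMod p) ≠ 0 := by
    intro h0
    have h3 : ((2 : ℕ) : ZMod p) = 0 := by exact_mod_cast h0
    rw [ZMod.natCast_eq_zero_iff] at h3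
    have := Nat.le_of_dvd (by norm_num) h3
    omega
  have hcard : (Fintype.card (Fin lines.length) + 1) ^ 2 *
      (finrank (ZMod p) (Fin n → ZMod p) + 2) + 2 < Fintype.card (ZMod p) := by
    rw [Fintype.card_fin, Module.finrank_fintype_fun_eq_card, Fintype.card_fin, ZMod.card]
    exact hpb
  have hm : ∀ k v k' v', Psi (la p n lines) (lb p n lines) (vec p lines.length xl) ≤
      Psi (la p n lines) (lb p n lines)
        (Function.update (Function.update (vec p lines.length xl) k v) k' v') := by
    intro k v k' v'
    have h5 : upd (List.range lines.length) xl k v.val k' v'.val ∈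
        nbr (List.range lines.length) (List.range p) xl := by
      simp only [nbr, List.mem_flatMap, List.mem_map]
      exact ⟨k, List.mem_range.2 k.2, v.val, List.mem_range.2 (ZMod.val_lt v), k',
        List.mem_range.2 k'.2, v'.val, List.mem_range.2 (ZMod.val_lt v'), rfl⟩
    have h6 := hmin _ h5
    rw [psiL_eq p n lines hlen xl hlx, psiL_eq p n lines hlen _ (by
      rw [upd, List.length_map, List.length_range]), upd_vec] at h6
    rwa [ZMod.natCast_zmod_val, ZMod.natCast_zmod_val] at h6
  obtain ⟨h3, M, hM, hMc⟩ := rank_of_min h2 (la p n lines) (lb p n lines) hdim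
    (vec p lines.length xl) hcard hm
  have hr : 2 * hrank p (List.range n) (List.range (n + 2)) lines xl = finrank (ZMod p)
      (LinearMap.range (AL (la p n lines) (lb p n lines) (vec p lines.length xl))) := by
    have e1 : nulL p (List.range n) (List.range (n + 2)) lines xl ([], []) ([], []) =
        finrank (ZMod p)
          (LinearMap.ker (AL (la p n lines) (lb p n lines) (vec p lines.length xl))) + 2 := by
      rw [← nl_none (la p n lines) (lb p n lines)]
      exact nulL_eq p n lines hlen xl hlx none none
    have e2 := LinearMap.finrank_range_add_finrank_ker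
      (AL (la p n lines) (lb p n lines) (vec p lines.length xl))
    have e3 : finrank (ZMod p) (Dual (ZMod p) (Fin n → ZMod p)) = n := by
      rw [Subspace.dual_finrank_eq, Module.finrank_fintype_fun_eq_card, Fintype.card_fin]
    rw [hrank, e1, List.length_range]
    omega
  refine ⟨fun M' hM' => ?_, M, hM, ?_⟩
  · have := h3 M' hM'
    omega
  · omega

end

end Pool.Agent.H442R3.MPar
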