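import Pool.Agent.H442R3.MPar.Hyp
import Pool.Agent.H442R3.MPar.Loop

/-!
# From hypergraphic matroid matching to lines
-/

namespace Pool.Agent.H442R3.MPar

open Module

/-- The hyperedge of the element `(i, s)`: the first (`s = false`) or second (`s = true`) member of
the `i`-th pair. -/
def edgeOf (B : List (List ℕ × List ℕ)) (x : ℕ × Bool) : Finset ℕ :=
  bif x.2 then (B.getD x.1 ([], [])).2.toFinset else (B.getD x.1 ([], [])).1.toFinset

/-- `M` is a set of pairs whose union is independent in the hypergraphic matroid. -/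
def IsMatch (B : List (List ℕ × List ℕ)) (M : Finset ℕ) : Prop :=
  M ⊆ Finset.range B.length ∧ HypIndep (edgeOf B) (M ×ˢ (Finset.univ : Finset Bool))

/-- vertex names -/
def names (B : List (List ℕ × List ℕ)) : List ℕ := B.flatMap (fun e => e.1 ++ e.2)

/-- descriptions of the lines of one hyperedge -/
def ed (e : List ℕ) (t : ℕ) : List (ℕ × ℕ × ℕ) :=
  e.flatMap (fun u => (e.filter (fun v => !decide (u = v))).map (fun v => (t, u, v)))

/-- descriptions of all lines -/
def descs (B : List (List ℕ × List ℕ)) : List (ℕ × ℕ × ℕ) :=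
  B.zipIdx.flatMap (fun q => ed q.1.1 (2 * q.2) ++ ed q.1.2 (2 * q.2 + 1) ++ [(2 * q.2, 0, 0)])

/-- difference vector -/
def dv (p : ℕ) (W : List ℕ) (u v : ℕ) : List ℕ :=
  W.map (fun w => if w = u then 1 else if w = v then p - 1 else 0)

/-- auxiliary unit vector -/
def ev (W E : List ℕ) (t : ℕ) : List ℕ :=
  W.map (fun _ => 0) ++ E.map (fun t' => if t' = t then 1 else 0)

/-- the line of a description -/
def lineOf (p : ℕ) (W E : List ℕ) (d : ℕ × ℕ × ℕ) : List ℕ × List ℕ :=
  if d.2.1 = d.2.2 then (ev W E d.1, ev W E (d.1 + 1)) else (dv p W d.2.1 d.2.2, ev W E d.1)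

/-- all lines -/
def linesOf (p : ℕ) (B : List (List ℕ × List ℕ)) : List (List ℕ × List ℕ) :=
  (descs B).map (lineOf p (names B) (List.range (2 * B.length)))

/-- dimension -/
def dimOf (B : List (List ℕ × List ℕ)) : ℕ := (names B).length + 2 * B.length

theorem mem_ed {e : List ℕ} {t : ℕ} {d : ℕ × ℕ × ℕ} :
    d ∈ ed e t ↔ d.1 = t ∧ d.2.1 ≠ d.2.2 ∧ d.2.1 ∈ e ∧ d.2.2 ∈ e := by
  obtain ⟨s, u, v⟩ := d
  simp only [ed, List.mem_flatMap, List.mem_map, List.mem_filter, Prod.mk.injEq,
    Bool.not_eq_eq_eq_not, Bool.not_true, decide_eq_false_iff_not]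
  constructor
  · rintro ⟨a, ha, b, ⟨hb, hab⟩, rfl, rfl, rfl⟩
    exact ⟨rfl, hab, ha, hb⟩
  · rintro ⟨rfl, h1, h2, h3⟩
    exact ⟨u, h2, v, ⟨h3, h1⟩, rfl, rfl, rfl⟩

theorem mem_descs {B : List (List ℕ × List ℕ)} {d : ℕ × ℕ × ℕ} :
    d ∈ descs B ↔ ∃ j < B.length,
      (d.1 = 2 * j ∧ d.2.1 ≠ d.2.2 ∧ d.2.1 ∈ (B.getD j ([], [])).1 ∧ d.2.2 ∈ (B.getD j ([], [])).1) ∨
      (d.1 = 2 * j + 1 ∧ d.2.1 ≠ d.2.2 ∧ d.2.1 ∈ (B.getD j ([], [])).2 ∧
        d.2.2 ∈ (B.getD j ([], [])).2) ∨
      d = (2 * j, 0, 0) := by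
  rw [descs, List.mem_flatMap]
  constructor
  · rintro ⟨⟨e, j⟩, hq, hd⟩
    rw [List.mem_zipIdx_iff_getElem?] at hq
    obtain ⟨hj, hq⟩ := List.getElem?_eq_some_iff.1 hq
    have hg : B.getD j ([], []) = e := by rw [List.getD_eq_getElem _ _ hj]; exact hq
    refine ⟨j, hj, ?_⟩
    simp only at hd
    rw [hg]
    rw [List.mem_append, List.mem_append, mem_ed, mem_ed, List.mem_singleton] at hd
    tauto
  · rintro ⟨j, hj, hd⟩
    refine ⟨(B.getD j ([], []), j), ?_, ?_⟩
    · rw [List.mem_zipIdx_iff_getElem?, List.getD_eq_getElem _ _ hj]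
      exact List.getElem?_eq_getElem hj
    · rw [List.mem_append, List.mem_append, mem_ed, mem_ed, List.mem_singleton]
      tauto

theorem mem_names {B : List (List ℕ × List ℕ)} {j : ℕ} (hj : j < B.length) {u : ℕ}
    (h : u ∈ (B.getD j ([], [])).1 ∨ u ∈ (B.getD j ([], [])).2) : u ∈ names B := by
  rw [names, List.mem_flatMap]
  refine ⟨B.getD j ([], []), ?_, ?_⟩
  · rw [List.getD_eq_getElem _ _ hj]; exact List.getElem_mem hj
  · rw [List.mem_append]; exact h

section

variable (p : ℕ) [hp : Fact p.Prime]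

/-- vertex part of the first vector -/
def va (d : ℕ × ℕ × ℕ) (w : ℕ) : ZMod p :=
  if d.2.1 = d.2.2 then 0 else (if w = d.2.1 then 1 else 0) - (if w = d.2.2 then 1 else 0)

/-- auxiliary part of the first vector -/
def ea (d : ℕ × ℕ × ℕ) (t : ℕ) : ZMod p :=
  if d.2.1 = d.2.2 then (if t = d.1 then 1 else 0) else 0

/-- auxiliary part of the second vector -/
def eb (d : ℕ × ℕ × ℕ) (t : ℕ) : ZMod p :=
  if d.2.1 = d.2.2 then (if t = d.1 + 1 then 1 else 0) else (if t = d.1 then 1 else 0)

variable (B : List (List ℕ × List ℕ))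

/-- description of a line index -/
def dd (i : Fin (linesOf p B).length) : ℕ × ℕ × ℕ := (descs B).getD i (0, 0, 0)

omit hp in
theorem idx_lt (i : Fin (linesOf p B).length) : (i : ℕ) < (descs B).length :=
  i.2.trans_eq (by rw [linesOf, List.length_map])

omit hp in
theorem dd_mem (i : Fin (linesOf p B).length) : dd p B i ∈ descs B := by
  have hi := idx_lt p B i
  rw [dd, List.getD_eq_getElem _ _ hi]
  exact List.getElem_mem hi

omit hp in
theorem exists_idx {d : ℕ × ℕ × ℕ} (hd : d ∈ descs B) : ∃ i, dd p B i = d := by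
  obtain ⟨i, hi, rfl⟩ := List.getElem_of_mem hd
  exact ⟨⟨i, by rw [linesOf, List.length_map]; exact hi⟩, List.getD_eq_getElem _ _ hi⟩

omit hp in
theorem get_lines (i : Fin (linesOf p B).length) : (linesOf p B).get i =
    lineOf p (names B) (List.range (2 * B.length)) (dd p B i) := by
  have hi := idx_lt p B i
  rw [dd, List.getD_eq_getElem _ _ hi]
  exact List.getElem_map _

theorem vec_dv_low (u v : ℕ) (huv : u ≠ v) (c : Fin (dimOf B)) (hc : (c : ℕ) < (names B).length) :
    vec p (dimOf B) (dv p (names B) u v) c =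
      (if (names B)[(c : ℕ)] = u then 1 else 0) - (if (names B)[(c : ℕ)] = v then 1 else 0) := by
  rw [vec, dv, List.getD_eq_getElem _ _ (by rw [List.length_map]; exact hc), List.getElem_map]
  by_cases h1 : (names B)[(c : ℕ)] = u
  · rw [if_pos h1, if_pos h1, if_neg (by rw [h1]; exact huv)]
    simp
  · rw [if_neg h1, if_neg h1]
    by_cases h2 : (names B)[(c : ℕ)] = v
    · rw [if_pos h2, if_pos h2, Nat.cast_sub hp.out.one_lt.le, ZMod.natCast_self]
      simp
    · rw [if_neg h2, if_neg h2]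
      simp

theorem vec_dv_high (u v : ℕ) (c : Fin (dimOf B)) (hc : ¬ (c : ℕ) < (names B).length) :
    vec p (dimOf B) (dv p (names B) u v) c = 0 := by
  rw [vec, dv, List.getD_eq_default _ _ (by rw [List.length_map]; omega)]
  simp

theorem vec_ev_low (t : ℕ) (c : Fin (dimOf B)) (hc : (c : ℕ) < (names B).length) :
    vec p (dimOf B) (ev (names B) (List.range (2 * B.length)) t) c = 0 := by
  rw [vec, ev, List.getD_eq_getElem?_getD, List.getElem?_append_left
    (by rw [List.length_map]; exact hc)]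
  simp [hc]

theorem vec_ev_high (t : ℕ) (c : Fin (dimOf B)) (hc : ¬ (c : ℕ) < (names B).length) :
    vec p (dimOf B) (ev (names B) (List.range (2 * B.length)) t) c =
      if (c : ℕ) - (names B).length = t then 1 else 0 := by
  have h2 : (c : ℕ) < (names B).length + 2 * B.length := c.2
  have h3 : (c : ℕ) - (names B).length < 2 * B.length := by omega
  rw [vec, ev, List.getD_eq_getElem?_getD, List.getElem?_append_right
    (by rw [List.length_map]; omega)]
  rw [List.length_map, List.getElem?_map, List.getElem?_range h3]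
  simp only [Option.map_some, Option.getD_some]
  split <;> simp

theorem la_low (i : Fin (linesOf p B).length) (c : Fin (dimOf B)) (hc : (c : ℕ) < (names B).length) :
    la p (dimOf B) (linesOf p B) i c = va p (dd p B i) ((names B)[(c : ℕ)]) := by
  rw [la, get_lines, lineOf, va]
  split
  · exact vec_ev_low p B _ c hc
  · rename_i h
    exact vec_dv_low p B _ _ h c hc

theorem la_high (i : Fin (linesOf p B).length) (c : Fin (dimOf B))
    (hc : ¬ (c : ℕ) < (names B).length) :
    la p (dimOf B) (linesOf p B) i c = ea p (dd p B i) ((c : ℕ) - (names B).length) := by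
  rw [la, get_lines, lineOf, ea]
  split
  · exact vec_ev_high p B _ c hc
  · exact vec_dv_high p B _ _ c hc

theorem lb_low (i : Fin (linesOf p B).length) (c : Fin (dimOf B)) (hc : (c : ℕ) < (names B).length) :
    lb p (dimOf B) (linesOf p B) i c = 0 := by
  rw [lb, get_lines, lineOf]
  split
  · exact vec_ev_low p B _ c hc
  · exact vec_ev_low p B _ c hc

theorem lb_high (i : Fin (linesOf p B).length) (c : Fin (dimOf B))
    (hc : ¬ (c : ℕ) < (names B).length) :
    lb p (dimOf B) (linesOf p B) i c = eb p (dd p B i) ((c : ℕ) - (names B).length) := by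
  rw [lb, get_lines, lineOf, eb]
  split
  · exact vec_ev_high p B _ c hc
  · exact vec_ev_high p B _ c hc

theorem sum_zero_iff (M : Finset (Fin (linesOf p B).length))
    (α β : Fin (linesOf p B).length → ZMod p) :
    ∑ i ∈ M, (α i • la p (dimOf B) (linesOf p B) i + β i • lb p (dimOf B) (linesOf p B) i) = 0 ↔
      (∀ w ∈ names B, ∑ i ∈ M, α i * va p (dd p B i) w = 0) ∧
      (∀ t < 2 * B.length, ∑ i ∈ M, (α i * ea p (dd p B i) t + β i * eb p (dd p B i) t) = 0) := by
  constructor
  · intro h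
    constructor
    · intro w hw
      obtain ⟨c, hc, rfl⟩ := List.getElem_of_mem hw
      have h1 := congrFun h ⟨c, by rw [dimOf]; omega⟩
      rw [Finset.sum_apply, Pi.zero_apply] at h1
      refine Eq.trans ?_ h1
      apply Finset.sum_congr rfl
      intro i _
      rw [Pi.add_apply, Pi.smul_apply, Pi.smul_apply, la_low p B i _ hc, lb_low p B i _ hc,
        smul_zero, add_zero, smul_eq_mul]
    · intro t ht
      have h1 := congrFun h ⟨(names B).length + t, by rw [dimOf]; omega⟩
      rw [Finset.sum_apply, Pi.zero_apply] at h1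
      refine Eq.trans ?_ h1
      apply Finset.sum_congr rfl
      intro i _
      have hc : ¬ ((⟨(names B).length + t, by rw [dimOf]; omega⟩ : Fin (dimOf B)) : ℕ) <
        (names B).length := by simp
      rw [Pi.add_apply, Pi.smul_apply, Pi.smul_apply, la_high p B i _ hc, lb_high p B i _ hc]
      simp
  · rintro ⟨h1, h2⟩
    funext c
    rw [Finset.sum_apply, Pi.zero_apply]
    by_cases hc : (c : ℕ) < (names B).length
    · refine Eq.trans ?_ (h1 _ (List.getElem_mem hc))
      apply Finset.sum_congr rfl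
      intro i _
      rw [Pi.add_apply, Pi.smul_apply, Pi.smul_apply, la_low p B i _ hc, lb_low p B i _ hc,
        smul_zero, add_zero, smul_eq_mul]
    · have h3 : (c : ℕ) < (names B).length + 2 * B.length := c.2
      have h4 : (c : ℕ) - (names B).length < 2 * B.length := by
        omega
      refine Eq.trans ?_ (h2 _ h4)
      apply Finset.sum_congr rfl
      intro i _
      rw [Pi.add_apply, Pi.smul_apply, Pi.smul_apply, la_high p B i _ hc, lb_high p B i _ hc,
        smul_eq_mul, smul_eq_mul]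

theorem line_dim (i : Fin (linesOf p B).length) : finrank (ZMod p)
    (ln (ZMod p) (la p (dimOf B) (linesOf p B) i) (lb p (dimOf B) (linesOf p B) i)) = 2 := by
  apply finrank_of_pair
  intro α β h
  have h0 := (sum_zero_iff p B {i} (fun _ => α) (fun _ => β)).1 (by
    rw [Finset.sum_singleton]; exact h)
  simp only [Finset.sum_singleton] at h0
  obtain ⟨h1, h2⟩ := h0
  obtain ⟨j, hj, hd⟩ := mem_descs.1 (dd_mem p B i)
  set d := dd p B i
  rcases hd with ⟨e1, e2, e3, e4⟩ | ⟨e1, e2, e3, e4⟩ | hd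
  · have h3 := h2 (2 * j) (by omega)
    rw [ea, eb, if_neg e2, if_neg e2, e1, if_pos rfl, mul_zero, zero_add, mul_one] at h3
    have h4 := h1 _ (mem_names hj (Or.inl e3))
    rw [va, if_neg e2, if_pos rfl, if_neg e2, sub_zero, mul_one] at h4
    exact ⟨h4, h3⟩
  · have h3 := h2 (2 * j + 1) (by omega)
    rw [ea, eb, if_neg e2, if_neg e2, e1, if_pos rfl, mul_zero, zero_add, mul_one] at h3
    have h4 := h1 _ (mem_names hj (Or.inr e3))
    rw [va, if_neg e2, if_pos rfl, if_neg e2, sub_zero, mul_one] at h4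
    exact ⟨h4, h3⟩
  · have h3 := h2 (2 * j) (by omega)
    have h4 := h2 (2 * j + 1) (by omega)
    rw [hd] at h3 h4
    simp [ea, eb] at h3 h4
    exact ⟨h3, h4⟩

omit hp in
theorem line_len : ∀ l ∈ linesOf p B, l.1.length ≤ dimOf B ∧ l.2.length ≤ dimOf B := by
  intro l hl
  rw [linesOf, List.mem_map] at hl
  obtain ⟨d, _, rfl⟩ := hl
  rw [lineOf]
  split
  · simp [ev, dimOf]
  · simp [ev, dv, dimOf]

end

end Pool.Agent.H442R3.MPar
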