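import Pool.Agent.H442R3.MPar.Opt

/-!
# The potential: local minima are two-step stuck
-/

namespace Pool.Agent.H442R3.MPar

open Module

section pencil

variable {F : Type*} [Field F] {E : Type*} [AddCommGroup E] [Module F E] [FiniteDimensional F E]
  {E' : Type*} [AddCommGroup E'] [Module F E'] [FiniteDimensional F E']

omit [FiniteDimensional F E'] in
theorem pencil [DecidableEq F] (S T : E →ₗ[F] E') : ∃ B : Finset F, B.card ≤ finrank F E ∧
    ∀ z ∉ B, finrank F (LinearMap.ker (S + z • T)) ≤ finrank F (LinearMap.ker S) := by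
  classical
  obtain ⟨E1, hE1⟩ := (LinearMap.ker S).exists_isCompl
  have hinj : LinearMap.ker (S.domRestrict E1) = ⊥ := by
    rw [LinearMap.ker_eq_bot']
    rintro ⟨v, hv⟩ h
    have : v ∈ LinearMap.ker S ⊓ E1 := ⟨h, hv⟩
    rw [hE1.inf_eq_bot] at this
    exact Subtype.ext ((Submodule.mem_bot F).1 this)
  obtain ⟨R, hR⟩ := (S.domRestrict E1).exists_leftInverse_of_injective hinj
  let D : Module.End F E1 := R.comp (T.domRestrict E1)
  refine ⟨D.charpoly.roots.toFinset.image (fun r => - r⁻¹), ?_, ?_⟩
  · refine Finset.card_image_le.trans ?_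
    refine (Multiset.toFinset_card_le _).trans ?_
    refine (Polynomial.card_roots' _).trans ?_
    rw [LinearMap.charpoly_natDegree]
    exact Submodule.finrank_le _
  · intro z hz
    have hdis : Disjoint (LinearMap.ker (S + z • T)) E1 := by
      rw [disjoint_iff, Submodule.eq_bot_iff]
      rintro v ⟨hv1, hv2⟩
      by_contra hv0
      have h1 : R (S v) = ⟨v, hv2⟩ := by
        have := LinearMap.congr_fun hR ⟨v, hv2⟩
        simpa using this
      have h2 : (⟨v, hv2⟩ : E1) + z • D ⟨v, hv2⟩ = 0 := by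
        have h3 : S v + z • T v = 0 := hv1
        have h4 := congrArg R h3
        rw [map_add, map_smul, h1, map_zero] at h4
        exact h4
      have hz0 : z ≠ 0 := by
        rintro rfl
        rw [zero_smul, add_zero] at h2
        exact hv0 (congrArg Subtype.val h2)
      apply hz
      rw [Finset.mem_image]
      refine ⟨-z⁻¹, ?_, by field_simp⟩
      rw [Multiset.mem_toFinset, Polynomial.mem_roots (LinearMap.charpoly_monic D).ne_zero]
      rw [← Module.End.hasEigenvalue_iff_isRoot_charpoly]
      apply Module.End.hasEigenvalue_of_hasEigenvector (x := (⟨v, hv2⟩ : E1))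
      rw [Module.End.hasEigenvector_iff]
      refine ⟨?_, fun h => hv0 (congrArg Subtype.val h)⟩
      rw [Module.End.mem_eigenspace_iff]
      have h5 : z • D ⟨v, hv2⟩ = - (⟨v, hv2⟩ : E1) := by
        rw [eq_neg_iff_add_eq_zero, add_comm]
        exact h2
      calc D ⟨v, hv2⟩ = z⁻¹ • (z • D ⟨v, hv2⟩) := by rw [smul_smul, inv_mul_cancel₀ hz0, one_smul]
        _ = -z⁻¹ • ⟨v, hv2⟩ := by rw [h5, smul_neg, neg_smul]
    have h6 := Submodule.finrank_add_finrank_le_of_disjoint hdis
    have h7 := Submodule.finrank_add_eq_of_isCompl hE1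
    omega

omit [FiniteDimensional F E'] in
theorem finrank_map_add (K : Submodule F E) (f : E →ₗ[F] E') :
    finrank F (K.map f) + finrank F ↥(K ⊓ LinearMap.ker f) = finrank F K := by
  have h1 := LinearMap.finrank_range_add_finrank_ker (f.domRestrict K)
  rw [LinearMap.range_domRestrict] at h1
  have e2 : (LinearMap.ker (f.domRestrict K)).map K.subtype = K ⊓ LinearMap.ker f := by
    ext x
    constructor
    · rintro ⟨⟨y, hy⟩, h5, rfl⟩
      exact ⟨hy, h5⟩
    · rintro ⟨hx, h5⟩
      exact ⟨⟨x, hx⟩, h5, rfl⟩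
  have e3 : finrank F ↥((LinearMap.ker (f.domRestrict K)).map K.subtype) =
      finrank F (LinearMap.ker (f.domRestrict K)) :=
    Submodule.finrank_map_subtype_eq _ _
  rw [← e2, e3]
  exact h1

end pencil

section

variable {F : Type*} [Field F] {V : Type*} [AddCommGroup V] [Module F V]
variable {ι : Type*}

/-- the vectors of an optional line -/
def ov (a : ι → V) (j : Option ι) : V := j.elim 0 a

/-- the bordered map -/
def TM (a b : ι → V) (A : Dual F V →ₗ[F] V) (j k : Option ι) :
    (Dual F V × F × F) →ₗ[F] (V × F × F) :=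
  LinearMap.prod
    (A.comp (LinearMap.fst F _ _) +
      (LinearMap.toSpanSingleton F V (ov a k)).comp ((LinearMap.fst F F F).comp (LinearMap.snd F _ _)) +
      (LinearMap.toSpanSingleton F V (ov b k)).comp ((LinearMap.snd F F F).comp (LinearMap.snd F _ _)))
    (LinearMap.prod ((Dual.eval F V (ov a j)).comp (LinearMap.fst F _ _))
      ((Dual.eval F V (ov b j)).comp (LinearMap.fst F _ _)))

theorem TM_apply (a b : ι → V) (A : Dual F V →ₗ[F] V) (j k : Option ι) (φ : Dual F V) (s t : F) :
    TM a b A j k (φ, s, t) = (A φ + s • ov a k + t • ov b k, φ (ov a j), φ (ov b j)) := rfl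

/-- the nullity -/
noncomputable def nl (a b : ι → V) (A : Dual F V →ₗ[F] V) (j k : Option ι) : ℕ :=
  finrank F (LinearMap.ker (TM a b A j k))

/-- optional line -/
def Lo (F : Type*) [Field F] {V : Type*} [AddCommGroup V] [Module F V] {ι : Type*}
    (a b : ι → V) (j : Option ι) : Submodule F V := ln F (ov a j) (ov b j)

theorem Lo_none (a b : ι → V) : Lo F a b none = ⊥ := by
  simp [Lo, ov, ln]

theorem Lo_some (a b : ι → V) (j : ι) : Lo F a b (some j) = ln F (a j) (b j) := rfl

/-- the geometric nullity -/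
noncomputable def gn (a b : ι → V) (A : Dual F V →ₗ[F] V) (j k : Option ι) : ℕ :=
  finrank F ↥(Submodule.comap A (Lo F a b k) ⊓ (Lo F a b j).dualAnnihilator)

variable [FiniteDimensional F V]

theorem nl_eq (a b : ι → V) (k : Option ι) : ∃ d : ℕ, ∀ (A : Dual F V →ₗ[F] V) (j : Option ι),
    nl a b A j k = gn a b A j k + d := by
  let D : Submodule F (Dual F V × F × F) :=
    LinearMap.ker (TM a b (0 : Dual F V →ₗ[F] V) none k) ⊓
      LinearMap.ker (LinearMap.fst F (Dual F V) (F × F))
  refine ⟨finrank F D, fun A j => ?_⟩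
  have h1 := finrank_map_add (E := Dual F V × F × F) (E' := Dual F V)
    (LinearMap.ker (TM a b A j k)) (LinearMap.fst F (Dual F V) (F × F))
  have h2 : (LinearMap.ker (TM a b A j k)).map (LinearMap.fst F (Dual F V) (F × F)) =
      Submodule.comap A (Lo F a b k) ⊓ (Lo F a b j).dualAnnihilator := by
    ext φ
    constructor
    · rintro ⟨⟨φ', s, t⟩, hv, rfl⟩
      have hv' := LinearMap.mem_ker.1 hv
      rw [TM_apply, Prod.mk_eq_zero, Prod.mk_eq_zero] at hv'
      obtain ⟨e1, e2, e3⟩ := hv'
      refine ⟨?_, ?_⟩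
      · change A φ' ∈ Lo F a b k
        refine mem_ln.2 ⟨-s, -t, ?_⟩
        have : A φ' = -(s • ov a k + t • ov b k) := by
          rw [eq_neg_iff_add_eq_zero, ← add_assoc]
          exact e1
        rw [this, neg_smul, neg_smul, neg_add]
      · rw [SetLike.mem_coe, Submodule.mem_dualAnnihilator]
        intro p hp
        obtain ⟨α, β, rfl⟩ := mem_ln.1 hp
        change φ' _ = 0
        rw [map_add, map_smul, map_smul, e2, e3, smul_zero, smul_zero, add_zero]
    · rintro ⟨h3, h4⟩
      obtain ⟨s, t, hst⟩ := mem_ln.1 h3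
      rw [SetLike.mem_coe, Submodule.mem_dualAnnihilator] at h4
      refine ⟨(φ, -s, -t), ?_, rfl⟩
      rw [SetLike.mem_coe, LinearMap.mem_ker, TM_apply, Prod.mk_eq_zero, Prod.mk_eq_zero]
      refine ⟨?_, h4 _ (Submodule.subset_span (by simp)), h4 _ (Submodule.subset_span (by simp))⟩
      rw [← hst, neg_smul, neg_smul]
      abel
  have h3 : LinearMap.ker (TM a b A j k) ⊓ LinearMap.ker (LinearMap.fst F (Dual F V) (F × F)) = D := by
    ext ⟨φ, s, t⟩
    simp only [D, Submodule.mem_inf, LinearMap.mem_ker, TM_apply, LinearMap.fst_apply]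
    constructor
    · rintro ⟨h4, rfl⟩
      refine ⟨?_, rfl⟩
      rw [map_zero] at h4
      rw [map_zero]
      rw [Prod.mk_eq_zero] at h4 ⊢
      exact ⟨h4.1, rfl⟩
    · rintro ⟨h4, rfl⟩
      refine ⟨?_, rfl⟩
      rw [map_zero] at h4
      rw [map_zero]
      rw [Prod.mk_eq_zero] at h4 ⊢
      exact ⟨h4.1, rfl⟩
  rw [h2, h3] at h1
  exact h1.symm

omit [FiniteDimensional F V] in
theorem gn_nn (a b : ι → V) (A : Dual F V →ₗ[F] V) :
    gn a b A none none = finrank F (LinearMap.ker A) := by
  rw [gn, Lo_none, Submodule.dualAnnihilator_bot, inf_top_eq]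
  rfl

theorem gn_sn (a b : ι → V) {A : Dual F V →ₗ[F] V} (hA : Alt A) (j : ι) :
    gn a b A (some j) none + finrank F (LinearMap.range A) + finrank F (ln F (a j) (b j)) =
      finrank F V + finrank F ↥(LinearMap.range A ⊓ ln F (a j) (b j)) := by
  have e1 : LinearMap.ker A = (LinearMap.range A).dualAnnihilator := by
    rw [hA.range_eq, Subspace.dualCoannihilator_dualAnnihilator_eq]
  have e2 : gn a b A (some j) none =
      finrank F (LinearMap.range A ⊔ ln F (a j) (b j)).dualAnnihilator := by
    rw [gn, Lo_none, Lo_some, Submodule.dualAnnihilator_sup_eq, ← e1]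
    rfl
  have e3 := Subspace.finrank_add_finrank_dualAnnihilator_eq (LinearMap.range A ⊔ ln F (a j) (b j))
  have e4 := Submodule.finrank_sup_add_finrank_inf_eq (LinearMap.range A) (ln F (a j) (b j))
  omega

theorem na_iff (a b : ι → V) {A : Dual F V →ₗ[F] V} (hA : Alt A) (j m : ι) :
    NA A (ln F (a j) (b j)) (ln F (a m) (b m)) ↔
      gn a b A none (some j) + gn a b A (some m) none =
        gn a b A none none + gn a b A (some m) (some j) := by
  have e0 : LinearMap.ker A = (LinearMap.range A).dualAnnihilator := by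
    rw [hA.range_eq, Subspace.dualCoannihilator_dualAnnihilator_eq]
  set P := ln F (a j) (b j)
  set Q := ln F (a m) (b m)
  have g1 : gn a b A none (some j) = finrank F (Submodule.comap A P) := by
    rw [gn, Lo_none, Submodule.dualAnnihilator_bot, inf_top_eq]
    rfl
  have g2 : gn a b A (some m) none = finrank F ↥(LinearMap.ker A ⊓ Q.dualAnnihilator) := by
    rw [gn, Lo_none]
    rfl
  have g3 : gn a b A (some m) (some j) =
      finrank F ↥(Submodule.comap A P ⊓ Q.dualAnnihilator) := rfl
  rw [g1, g2, g3, gn_nn]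
  have hle : LinearMap.ker A ≤ Submodule.comap A P := by
    intro φ hφ
    rw [Submodule.mem_comap, LinearMap.mem_ker.1 hφ]
    exact Submodule.zero_mem _
  have d1 := Submodule.finrank_sup_add_finrank_inf_eq (Submodule.comap A P) Q.dualAnnihilator
  have d2 := Submodule.finrank_sup_add_finrank_inf_eq (LinearMap.ker A) Q.dualAnnihilator
  have hNA : NA A P Q ↔ Submodule.comap A P ≤ LinearMap.ker A ⊔ Q.dualAnnihilator := by
    rw [e0, ← Subspace.dualAnnihilator_inf_eq]
    constructor
    · intro h φ hφ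
      rw [Submodule.mem_dualAnnihilator]
      rintro p ⟨⟨ψ, rfl⟩, hp⟩
      exact h φ ψ hφ hp
    · intro h φ ψ hφ hψ
      exact (Submodule.mem_dualAnnihilator _).1 (h hφ) _ ⟨⟨ψ, rfl⟩, hψ⟩
  rw [hNA]
  constructor
  · intro h
    have h3 : Submodule.comap A P ⊔ Q.dualAnnihilator = LinearMap.ker A ⊔ Q.dualAnnihilator :=
      le_antisymm (sup_le h le_sup_right) (sup_le_sup_right hle _)
    rw [h3] at d1
    omega
  · intro h
    have h3 : LinearMap.ker A ⊔ Q.dualAnnihilator = Submodule.comap A P ⊔ Q.dualAnnihilator := by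
      apply Submodule.eq_of_le_of_finrank_eq (sup_le_sup_right hle _)
      omega
    rw [h3]
    exact le_sup_left

theorem same_of_nl {a b : ι → V} {A A' : Dual F V →ₗ[F] V} (hA : Alt A) (hA' : Alt A')
    (h : ∀ j k, nl a b A' j k = nl a b A j k) : Same a b A A' := by
  have hg : ∀ j k, gn a b A' j k = gn a b A j k := by
    intro j k
    obtain ⟨d, hd⟩ := nl_eq (F := F) a b k
    have e1 := hd A j
    have e2 := hd A' j
    have e3 := h j k
    omega
  have hrk : finrank F (LinearMap.range A') = finrank F (LinearMap.range A) := by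
    have e1 := LinearMap.finrank_range_add_finrank_ker A
    have e2 := LinearMap.finrank_range_add_finrank_ker A'
    have e3 := hg none none
    rw [gn_nn, gn_nn] at e3
    omega
  refine ⟨hrk, fun j => ?_, fun j m => ?_⟩
  · have e1 := gn_sn a b hA j
    have e2 := gn_sn a b hA' j
    have e3 := hg (some j) none
    omega
  · rw [na_iff a b hA, na_iff a b hA', hg, hg, hg, hg]

end

section potential

variable {F : Type*} [Field F] {V : Type*} [AddCommGroup V] [Module F V] [FiniteDimensional F V]
variable {ι : Type*} [Fintype ι] [DecidableEq ι]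

/-- the alternating map of a coefficient vector -/
noncomputable def AL (a b : ι → V) (x : ι → F) : Dual F V →ₗ[F] V :=
  ∑ i, x i • bv (F := F) (a i) (b i)

omit [FiniteDimensional F V] [DecidableEq ι] in
theorem alt_AL (a b : ι → V) (x : ι → F) : Alt (AL a b x) := Alt.sum _ fun _ => (alt_bv _ _).smul _

omit [FiniteDimensional F V] in
theorem AL_update (a b : ι → V) (x : ι → F) (k : ι) (v : F) :
    AL a b (Function.update x k v) = mv (AL a b x) (v - x k) (a k) (b k) := by
  rw [mv, AL, AL, ← Finset.add_sum_erase _ _ (Finset.mem_univ k),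
    ← Finset.add_sum_erase (Finset.univ) (fun i => x i • bv (F := F) (a i) (b i))
      (Finset.mem_univ k)]
  rw [Function.update_self]
  have : ∑ i ∈ Finset.univ.erase k, Function.update x k v i • bv (F := F) (a i) (b i) =
      ∑ i ∈ Finset.univ.erase k, x i • bv (F := F) (a i) (b i) := by
    apply Finset.sum_congr rfl
    intro i hi
    rw [Function.update_of_ne (Finset.ne_of_mem_erase hi)]
  rw [this, sub_smul]
  abel

/-- the potential -/
noncomputable def Psi (a b : ι → V) (x : ι → F) : ℕ :=
  ∑ p : Option ι × Option ι, nl a b (AL a b x) p.1 p.2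

theorem good_z [Fintype F] (a b : ι → V) (A : Dual F V →ₗ[F] V) (k : ι)
    (hcard : (Fintype.card ι + 1) ^ 2 * (finrank F V + 2) + 2 < Fintype.card F)
    (E : Finset F) (hE : E.card ≤ 2) :
    ∃ z ∉ E, ∀ j k', nl a b (mv A z (a k) (b k)) j k' ≤ nl a b A j k' := by
  classical
  let S1 : (Dual F V × F × F) →ₗ[F] (V × F × F) :=
    LinearMap.prod ((bv (F := F) (a k) (b k)).comp (LinearMap.fst F _ _)) 0
  have hT : ∀ z j k', TM a b (mv A z (a k) (b k)) j k' = TM a b A j k' + z • S1 := by
    intro z j k'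
    apply LinearMap.ext
    rintro ⟨φ, s, t⟩
    have e1 : S1 (φ, s, t) = (bv (a k) (b k) φ, 0) := rfl
    rw [LinearMap.add_apply, LinearMap.smul_apply, TM_apply, TM_apply, e1]
    refine Prod.ext ?_ ?_
    · simp only [Prod.fst_add, Prod.smul_fst, mv, LinearMap.add_apply, LinearMap.smul_apply]
      abel
    · simp only [Prod.snd_add, Prod.smul_snd, smul_zero, add_zero]
  have hB : ∀ p : Option ι × Option ι, ∃ B : Finset F, B.card ≤ finrank F V + 2 ∧
      ∀ z ∉ B, nl a b (mv A z (a k) (b k)) p.1 p.2 ≤ nl a b A p.1 p.2 := by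
    intro p
    obtain ⟨B, hB1, hB2⟩ := pencil (TM a b A p.1 p.2) S1
    refine ⟨B, ?_, fun z hz => ?_⟩
    · have e1 : finrank F (Dual F V × F × F) = finrank F V + 2 := by
        rw [Module.finrank_prod, Module.finrank_prod, Subspace.dual_finrank_eq]
        simp
      rwa [e1] at hB1
    · rw [nl, nl, hT]
      exact hB2 z hz
  choose B hB1 hB2 using hB
  have hc : (E ∪ Finset.univ.biUnion B).card < Fintype.card F := by
    have c1 := Finset.card_union_le E (Finset.univ.biUnion B)
    have c2 : (Finset.univ.biUnion B).card ≤ (Fintype.card ι + 1) ^ 2 * (finrank F V + 2) := by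
      refine Finset.card_biUnion_le.trans ?_
      refine (Finset.sum_le_card_nsmul _ _ _ (fun p _ => hB1 p)).trans ?_
      rw [Finset.card_univ, Fintype.card_prod, Fintype.card_option, smul_eq_mul, sq]
    omega
  obtain ⟨z, hz⟩ : ∃ z, z ∉ E ∪ Finset.univ.biUnion B := by
    by_contra hno
    push Not at hno
    have : E ∪ Finset.univ.biUnion B = Finset.univ := Finset.eq_univ_iff_forall.2 hno
    rw [this, Finset.card_univ] at hc
    exact lt_irrefl _ hc
  rw [Finset.mem_union, not_or] at hz
  refine ⟨z, hz.1, fun j k' => hB2 (j, k') z fun h => hz.2 ?_⟩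
  exact Finset.mem_biUnion.2 ⟨(j, k'), Finset.mem_univ _, h⟩

theorem one_step [Fintype F] (a b : ι → V) (x : ι → F)
    (hcard : (Fintype.card ι + 1) ^ 2 * (finrank F V + 2) + 2 < Fintype.card F)
    (k : ι) (hmin : ∀ v, Psi a b x ≤ Psi a b (Function.update x k v))
    (E : Finset F) (hE : E.card ≤ 2) :
    ∃ z ∉ E, Same a b (AL a b x) (mv (AL a b x) z (a k) (b k)) ∧
      Psi a b (Function.update x k (x k + z)) = Psi a b x := by
  obtain ⟨z, hz, hle⟩ := good_z a b (AL a b x) k hcard E hE
  have e1 : AL a b (Function.update x k (x k + z)) = mv (AL a b x) z (a k) (b k) := by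
    rw [AL_update, add_sub_cancel_left]
  have h1 : Psi a b (Function.update x k (x k + z)) ≤ Psi a b x := by
    rw [Psi, Psi, e1]
    exact Finset.sum_le_sum fun p _ => hle p.1 p.2
  have h2 := le_antisymm h1 (hmin (x k + z))
  refine ⟨z, hz, ?_, h2⟩
  have h3 := h2
  rw [Psi, Psi, e1] at h3
  rw [Finset.sum_eq_sum_iff_of_le (fun p _ => hle p.1 p.2)] at h3
  exact same_of_nl (alt_AL a b x) (alt_mv (alt_AL a b x) _ _ _)
    fun j k' => h3 (j, k') (Finset.mem_univ _)

/-- **A local minimum of the potential is two-step stuck.** -/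
theorem stuck_of_min [Fintype F] (a b : ι → V) (x : ι → F)
    (hcard : (Fintype.card ι + 1) ^ 2 * (finrank F V + 2) + 2 < Fintype.card F)
    (hmin : ∀ k v k' v', Psi a b x ≤ Psi a b (Function.update (Function.update x k v) k' v')) :
    S2 a b (AL a b x) := by
  intro k E hE
  have hm1 : ∀ v, Psi a b x ≤ Psi a b (Function.update x k v) := by
    intro v
    have := hmin k v k v
    rwa [Function.update_idem] at this
  obtain ⟨z, hz, hs, hps⟩ := one_step a b x hcard k hm1 E hE
  refine ⟨z, hz, hs, ?_⟩
  have e1 : AL a b (Function.update x k (x k + z)) = mv (AL a b x) z (a k) (b k) := by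
    rw [AL_update, add_sub_cancel_left]
  rw [← e1]
  intro k' E' hE'
  obtain ⟨z', hz', hs', _⟩ := one_step a b (Function.update x k (x k + z)) hcard k'
    (fun v' => by rw [hps]; exact hmin k (x k + z) k' v') E' hE'
  exact ⟨z', hz', hs'⟩

/-- **Main algebraic theorem.** -/
theorem rank_of_min [Fintype F] (h2 : (2 : F) ≠ 0) (a b : ι → V)
    (hdim : ∀ i, finrank F (ln F (a i) (b i)) = 2) (x : ι → F)
    (hcard : (Fintype.card ι + 1) ^ 2 * (finrank F V + 2) + 2 < Fintype.card F)
    (hmin : ∀ k v k' v', Psi a b x ≤ Psi a b (Function.update (Function.update x k v) k' v')) :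
    (∀ M, IndepSet F a b M → 2 * M.card ≤ finrank F (LinearMap.range (AL a b x))) ∧
    ∃ M, IndepSet F a b M ∧ 2 * M.card = finrank F (LinearMap.range (AL a b x)) := by
  refine ⟨fun M hM => stuck_opt h2 (alt_AL a b x) (stuck_of_min a b x hcard hmin) hdim M hM, ?_⟩
  obtain ⟨r, hr⟩ := (alt_AL a b x).even_rank h2
  obtain ⟨M, _, hMc, hM⟩ := exists_matching h2 r V a b Finset.univ x (by
    rw [AL] at hr
    omega)
  exact ⟨M, hM, by rw [hMc]; omega⟩

end potential

end Pool.Agent.H442R3.MPar
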