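import Pool.Agent.H442R3.MPar.Alg
import Pool.Agent.H442R3.MPar.Pot

/-!
# Correctness of the kernel computation
-/

namespace Pool.Agent.H442R3.MPar

open Module

section

variable (p : ℕ) [hp : Fact p.Prime]

/-- the vector of a list -/
def vec (N : ℕ) (l : List ℕ) : Fin N → ZMod p := fun i => ((l.getD i 0 : ℕ) : ZMod p)

theorem sum_range_list (n : ℕ) (f : ℕ → ℕ) :
    ((List.range n).map f).sum = ∑ i : Fin n, f i := by
  induction n with
  | zero => simp
  | succ n ih =>
    rw [List.range_succ, List.map_append, List.sum_append, ih, Fin.sum_univ_castSucc]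
    simp

theorem dotL_cast (N : ℕ) (f v : List ℕ) :
    ((dotL p (List.range N) f v : ℕ) : ZMod p) = ∑ i, vec p N f i * vec p N v i := by
  rw [dotL, ZMod.natCast_mod, sum_range_list, Nat.cast_sum]
  apply Finset.sum_congr rfl
  intro i _
  rw [Nat.cast_mul]
  rfl

theorem dotL_lt (R f v : List ℕ) : dotL p R f v < p := Nat.mod_lt _ hp.out.pos

theorem getD_map_range (N : ℕ) (f : ℕ → ℕ) (i : Fin N) :
    ((List.range N).map f).getD i 0 = f i := by
  rw [List.getD_eq_getElem _ _ (by simp)]
  simp

theorem linL_vec (N c d : ℕ) (v w : List ℕ) :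
    vec p N (linL p (List.range N) c v d w) = (c : ZMod p) • vec p N v + (d : ZMod p) • vec p N w := by
  funext i
  rw [vec, linL, getD_map_range, ZMod.natCast_mod]
  simp only [vec, Pi.add_apply, Pi.smul_apply, smul_eq_mul, Nat.cast_add, Nat.cast_mul]

/-- the functional of a list -/
def DL (N : ℕ) (f : List ℕ) : (Fin N → ZMod p) →ₗ[ZMod p] ZMod p :=
  ∑ i, vec p N f i • LinearMap.proj i

theorem DL_apply (N : ℕ) (f : List ℕ) (y : Fin N → ZMod p) :
    DL p N f y = ∑ i, vec p N f i * y i := by
  rw [DL, LinearMap.sum_apply]
  rfl

theorem dotL_eq_zero (N : ℕ) (f v : List ℕ) :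
    dotL p (List.range N) f v = 0 ↔ DL p N f (vec p N v) = 0 := by
  rw [DL_apply, ← dotL_cast, ZMod.natCast_eq_zero_iff]
  constructor
  · intro h; rw [h]; exact dvd_zero _
  · intro h
    exact Nat.eq_zero_of_dvd_of_lt h (dotL_lt p _ _ _)

/-- invariant -/
def KI (N : ℕ) (K : List (List ℕ)) (U : Submodule (ZMod p) (Fin N → ZMod p)) : Prop :=
  Submodule.span (ZMod p) {y | ∃ v ∈ K, vec p N v = y} = U ∧ K.length = finrank (ZMod p) U

theorem KI_std (N : ℕ) : KI p N (stdB (List.range N)) ⊤ := by
  constructor
  · rw [eq_top_iff]
    intro y _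
    have : y = ∑ i, y i • (Pi.single i 1 : Fin N → ZMod p) := by
      funext j
      simp [Finset.sum_apply, Pi.single_apply]
    rw [this]
    refine Submodule.sum_mem _ fun i _ => Submodule.smul_mem _ _ (Submodule.subset_span ?_)
    refine ⟨_, List.mem_map.2 ⟨i, List.mem_range.2 i.2, rfl⟩, ?_⟩
    funext j
    rw [vec, getD_map_range]
    by_cases h : i = j
    · subst h; simp
    · have h' : (i : ℕ) ≠ j := fun h' => h (Fin.ext h')
      rw [if_neg h', Pi.single_eq_of_ne (Ne.symm h)]
      simp
  · rw [finrank_top, Module.finrank_fintype_fun_eq_card, Fintype.card_fin, stdB, List.length_map,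
      List.length_range]

theorem KI_step (N : ℕ) (K : List (List ℕ)) (U : Submodule (ZMod p) (Fin N → ZMod p))
    (h : KI p N K U) (f : List ℕ) :
    KI p N (kstep p (List.range N) K f) (U ⊓ LinearMap.ker (DL p N f)) := by
  obtain ⟨hs, hl⟩ := h
  have hU : ∀ v ∈ K, vec p N v ∈ U := fun v hv => by
    rw [← hs]; exact Submodule.subset_span ⟨v, hv, rfl⟩
  have hlen := length_filter_add K (fun v => decide (dotL p (List.range N) f v = 0))
  cases hNZ : K.filter (fun v => !decide (dotL p (List.range N) f v = 0)) with
  | nil =>
    have hall : ∀ v ∈ K, dotL p (List.range N) f v = 0 := by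
      intro v hv
      rw [List.filter_eq_nil_iff] at hNZ
      have := hNZ v hv
      simpa using this
    have hk : kstep p (List.range N) K f = K := by
      rw [kstep, hNZ]
      simp only [List.tail_nil, List.map_nil, List.append_nil]
      exact List.filter_eq_self.2 fun v hv => by simpa using hall v hv
    rw [hk]
    have hle : U ≤ LinearMap.ker (DL p N f) := by
      rw [← hs, Submodule.span_le]
      rintro _ ⟨v, hv, rfl⟩
      exact (dotL_eq_zero p N f v).1 (hall v hv)
    rw [inf_eq_left.2 hle]
    exact ⟨hs, hl⟩
  | cons v0 rest =>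
    rw [hNZ] at hlen
    have hv0K : v0 ∈ K ∧ dotL p (List.range N) f v0 ≠ 0 := by
      have : v0 ∈ K.filter (fun v => !decide (dotL p (List.range N) f v = 0)) := by
        rw [hNZ]; exact List.mem_cons_self
      rw [List.mem_filter] at this
      simpa using this
    have hD0 : DL p N f (vec p N v0) ≠ 0 := fun h => hv0K.2 ((dotL_eq_zero p N f v0).2 h)
    have hk : kstep p (List.range N) K f =
        K.filter (fun v => decide (dotL p (List.range N) f v = 0)) ++
        rest.map (fun v => linL p (List.range N) (dotL p (List.range N) f v0) v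
          (p - dotL p (List.range N) f v) v0) := by
      rw [kstep, hNZ]
      rfl
    have hg : ∀ v, vec p N (linL p (List.range N) (dotL p (List.range N) f v0) v
          (p - dotL p (List.range N) f v) v0) =
        (DL p N f (vec p N v0)) • vec p N v - (DL p N f (vec p N v)) • vec p N v0 := by
      intro v
      rw [linL_vec, Nat.cast_sub (dotL_lt p _ _ _).le, ZMod.natCast_self, dotL_cast, dotL_cast,
        DL_apply, DL_apply, zero_sub, neg_smul, sub_eq_add_neg]
    constructor
    · apply le_antisymm
      · rw [Submodule.span_le]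
        rintro _ ⟨v, hv, rfl⟩
        rw [hk, List.mem_append] at hv
        rcases hv with hv | hv
        · rw [List.mem_filter] at hv
          exact ⟨hU v hv.1, (dotL_eq_zero p N f v).1 (by simpa using hv.2)⟩
        · obtain ⟨w, hw, rfl⟩ := List.mem_map.1 hv
          have hwK : w ∈ K := by
            have : w ∈ K.filter (fun v => !decide (dotL p (List.range N) f v = 0)) := by
              rw [hNZ]; exact List.mem_cons_of_mem _ hw
            exact List.mem_of_mem_filter this
          rw [hg]
          refine ⟨Submodule.sub_mem _ (Submodule.smul_mem _ _ (hU _ hwK))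
            (Submodule.smul_mem _ _ (hU _ hv0K.1)), ?_⟩
          rw [SetLike.mem_coe, LinearMap.mem_ker, map_sub, map_smul, map_smul, smul_eq_mul,
            smul_eq_mul]
          ring
      · set S' := Submodule.span (ZMod p) {y | ∃ v ∈ kstep p (List.range N) K f, vec p N v = y}
        have key : ∀ y ∈ U, (DL p N f (vec p N v0)) • y - (DL p N f y) • vec p N v0 ∈ S' := by
          intro y hy
          rw [← hs] at hy
          induction hy using Submodule.span_induction with
          | mem y hy =>
            obtain ⟨v, hv, rfl⟩ := hy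
            by_cases hd : dotL p (List.range N) f v = 0
            · rw [(dotL_eq_zero p N f v).1 hd, zero_smul, sub_zero]
              refine Submodule.smul_mem _ _ (Submodule.subset_span ⟨v, ?_, rfl⟩)
              rw [hk, List.mem_append]
              exact Or.inl (List.mem_filter.2 ⟨hv, by simpa using hd⟩)
            · have hv' : v ∈ K.filter (fun v => !decide (dotL p (List.range N) f v = 0)) :=
                List.mem_filter.2 ⟨hv, by simpa using hd⟩
              rw [hNZ, List.mem_cons] at hv'
              rcases hv' with rfl | hv'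
              · rw [sub_self]; exact Submodule.zero_mem _
              · rw [← hg]
                refine Submodule.subset_span ⟨_, ?_, rfl⟩
                rw [hk, List.mem_append]
                exact Or.inr (List.mem_map.2 ⟨v, hv', rfl⟩)
          | zero => simp
          | add y z _ _ hy hz =>
            have := Submodule.add_mem _ hy hz
            convert this using 1
            rw [map_add, smul_add, add_smul]
            abel
          | smul c y _ hy =>
            have := Submodule.smul_mem _ c hy
            convert this using 1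
            rw [map_smul, smul_sub, smul_smul, smul_smul, smul_eq_mul, smul_smul,
              mul_comm (DL p N f (vec p N v0)) c]
        rintro y ⟨hy, hyk⟩
        have h1 := key y hy
        rw [LinearMap.mem_ker.1 hyk, zero_smul, sub_zero] at h1
        have h2 := Submodule.smul_mem _ (DL p N f (vec p N v0))⁻¹ h1
        rwa [smul_smul, inv_mul_cancel₀ hD0, one_smul] at h2
    · have h1 := finrank_map_add U (DL p N f)
      have h2 : U.map (DL p N f) = ⊤ := by
        rw [eq_top_iff]
        intro c _
        refine ⟨(c * (DL p N f (vec p N v0))⁻¹) • vec p N v0,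
          Submodule.smul_mem _ _ (hU _ hv0K.1), ?_⟩
        rw [map_smul, smul_eq_mul, mul_assoc, inv_mul_cancel₀ hD0, mul_one]
      rw [h2, finrank_top, Module.finrank_self] at h1
      rw [hk, List.length_append, List.length_map]
      rw [List.length_cons] at hlen
      omega

theorem KI_fold (N : ℕ) : ∀ (rows : List (List ℕ)) (K : List (List ℕ))
    (U : Submodule (ZMod p) (Fin N → ZMod p)), KI p N K U →
    ∃ U' : Submodule (ZMod p) (Fin N → ZMod p),
      (∀ y, y ∈ U' ↔ y ∈ U ∧ ∀ f ∈ rows, DL p N f y = 0) ∧
      KI p N (rows.foldl (kstep p (List.range N)) K) U' := by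
  intro rows
  induction rows with
  | nil => intro K U h; exact ⟨U, fun y => by simp, h⟩
  | cons f rows ih =>
    intro K U h
    obtain ⟨U', h1, h2⟩ := ih _ _ (KI_step p N K U h f)
    refine ⟨U', fun y => ?_, h2⟩
    rw [h1, Submodule.mem_inf, LinearMap.mem_ker, List.forall_mem_cons, and_assoc]

theorem kerL_length (N : ℕ) (rows : List (List ℕ)) (U : Submodule (ZMod p) (Fin N → ZMod p))
    (hU : ∀ y, y ∈ U ↔ ∀ f ∈ rows, DL p N f y = 0) :
    (kerL p (List.range N) rows).length = finrank (ZMod p) U := by
  obtain ⟨U', h1, h2⟩ := KI_fold p N rows _ _ (KI_std p N)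
  have : U' = U := by
    ext y
    rw [h1, hU]
    simp
  rw [kerL, ← this]
  exact h2.2

end

end Pool.Agent.H442R3.MPar
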