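import Pool.Agent.H442R3.MPar.Up

/-!
# Local analysis of one or two coordinate moves
-/

namespace Pool.Agent.H442R3.MPar

open Module

section

variable {F : Type*} [Field F] {V : Type*} [AddCommGroup V] [Module F V]

/-- the span of a line -/
abbrev ln (F : Type*) [Field F] {V : Type*} [AddCommGroup V] [Module F V] (a b : V) :
    Submodule F V := Submodule.span F {a, b}

/-- `P` and `Q` do not interact -/
def NA (A : Dual F V →ₗ[F] V) (P Q : Submodule F V) : Prop :=
  ∀ φ ψ : Dual F V, A φ ∈ P → A ψ ∈ Q → φ (A ψ) = 0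

theorem NA.symm {A : Dual F V →ₗ[F] V} (hA : Alt A) {P Q : Submodule F V} (h : NA A P Q) :
    NA A Q P := fun φ ψ h1 h2 => hA.skew' _ _ (h ψ φ h2 h1)

theorem mem_ln {a b p : V} : p ∈ ln F a b ↔ ∃ α β : F, α • a + β • b = p :=
  Submodule.mem_span_pair

/-- one coordinate move -/
def mv (A : Dual F V →ₗ[F] V) (z : F) (a b : V) : Dual F V →ₗ[F] V := A + z • bv (F := F) a b

theorem mv_apply (A : Dual F V →ₗ[F] V) (z : F) (a b : V) (φ : Dual F V) :
    mv A z a b φ = A φ + z • (φ b • a - φ a • b) := rfl

theorem alt_mv {A : Dual F V →ₗ[F] V} (hA : Alt A) (z : F) (a b : V) : Alt (mv A z a b) :=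
  hA.add ((alt_bv a b).smul z)

/-- kernel element after a move -/
theorem move_ker {A : Dual F V →ₗ[F] V} (hA : Alt A) {a b : V} {u η : Dual F V} (hu : A u = a)
    (hη : A η = 0) (hηb : η b = 1) {z s : F} (hs : s * (1 + z * u b) = z) :
    mv A z a b (η - s • u) = 0 := by
  have h1 : η a = 0 := by rw [← hu]; exact hA.ker_kills hη ⟨u, rfl⟩
  have h2 : u a = 0 := by rw [← hu]; exact hA u
  have e1 : mv A z a b η = z • a := by
    rw [mv_apply, hη, hηb, h1, zero_add, one_smul, zero_smul, sub_zero]
  have e2 : mv A z a b u = (1 + z * u b) • a := by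
    rw [mv_apply, hu, h2, zero_smul, sub_zero, add_smul, one_smul, mul_smul]
  rw [map_sub, map_smul, e1, e2, smul_smul, hs, sub_self]

/-- kernel elements after a move, converse -/
theorem move_ker' {A : Dual F V →ₗ[F] V} (hA : Alt A) {a b : V} {u η : Dual F V} (hu : A u = a)
    (hη : A η = 0) (hηb : η b = 1) {z : F} (hz : z ≠ 0) {η' : Dual F V}
    (h : mv A z a b η' = 0) : A (η' + (z * η' b) • u) = 0 := by
  have h1 : η a = 0 := by rw [← hu]; exact hA.ker_kills hη ⟨u, rfl⟩
  have h0 : η (A η') = 0 := hA.ker_kills hη ⟨η', rfl⟩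
  rw [mv_apply] at h
  have h2 := congrArg η h
  rw [map_add, map_smul, map_sub, map_smul, map_smul, h1, hηb, h0, map_zero] at h2
  simp only [smul_eq_mul, mul_zero, mul_one, zero_sub, zero_add, mul_neg,
    neg_eq_zero, mul_eq_zero, hz, false_or] at h2
  rw [h2, zero_smul, sub_zero, smul_smul] at h
  rw [map_add, map_smul, hu, h]

/-- preimages after a move -/
theorem move_pre {A : Dual F V →ₗ[F] V} (hA : Alt A) {a b : V} {u η : Dual F V} (hu : A u = a)
    (hη : A η = 0) (hηb : η b = 1) (z : F) (w : Dual F V) :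
    mv A z a b (w - w b • η) = A w - (z * w a) • b := by
  have h1 : η a = 0 := by rw [← hu]; exact hA.ker_kills hη ⟨u, rfl⟩
  have e1 : mv A z a b η = z • a := by
    rw [mv_apply, hη, hηb, h1, zero_add, one_smul, zero_smul, sub_zero]
  rw [map_sub, map_smul, e1, mv_apply, smul_sub, smul_smul, smul_smul, smul_smul]
  rw [mul_comm (w b) z]
  abel

variable [FiniteDimensional F V]

/-- normal form of a line of type 1 -/
theorem nf {A : Dual F V →ₗ[F] V} (hA : Alt A) {a b : V} (h2 : finrank F (ln F a b) = 2)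
    (h1 : finrank F ↥(LinearMap.range A ⊓ ln F a b) = 1) :
    ∃ (a' b' : V) (u η : Dual F V) (c : F), c ≠ 0 ∧ ln F a b = ln F a' b' ∧ A u = a' ∧
      A η = 0 ∧ η b' = 1 ∧ bv (F := F) a b = c • bv a' b' := by
  have hne : LinearMap.range A ⊓ ln F a b ≠ ⊥ := by
    intro h
    rw [h, finrank_bot] at h1
    omega
  obtain ⟨p, hp, hp0⟩ := Submodule.exists_mem_ne_zero_of_ne_bot hne
  obtain ⟨⟨u, hu⟩, hpl⟩ := hp
  obtain ⟨α, β, rfl⟩ := mem_ln.1 hpl
  -- a general completion
  have key : ∀ (b' : V) (c : F), c ≠ 0 → ln F a b = ln F (α • a + β • b) b' →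
      bv (F := F) a b = c • bv (α • a + β • b) b' → ∃ (a' b' : V) (u η : Dual F V) (c : F),
      c ≠ 0 ∧ ln F a b = ln F a' b' ∧ A u = a' ∧
      A η = 0 ∧ η b' = 1 ∧ bv (F := F) a b = c • bv a' b' := by
    intro b' c hc hl hb
    have hb' : b' ∉ LinearMap.range A := by
      intro hb'
      have : ln F a b ≤ LinearMap.range A := by
        rw [hl, Submodule.span_le]
        intro x hx
        rcases hx with rfl | hx
        · exact ⟨u, hu⟩
        · rw [Set.mem_singleton_iff] at hx
          subst hx
          exact hb'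
      rw [inf_eq_right.2 this] at h1
      omega
    rw [hA.mem_range_iff] at hb'
    push Not at hb'
    obtain ⟨η, hη, hηb⟩ := hb'
    refine ⟨_, b', u, (η b')⁻¹ • η, c, hc, hl, hu, by rw [map_smul, hη, smul_zero], ?_, hb⟩
    rw [LinearMap.smul_apply, smul_eq_mul, inv_mul_cancel₀ hηb]
  by_cases hα : α = 0
  · subst hα
    have hβ : β ≠ 0 := by
      rintro rfl
      simp at hp0
    refine key a (-β⁻¹) (neg_ne_zero.2 (inv_ne_zero hβ)) ?_ ?_
    · rw [zero_smul, zero_add]
      apply le_antisymm
      · rw [ln, Submodule.span_le]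
        intro x hx
        rcases hx with rfl | hx
        · exact Submodule.subset_span (by simp)
        · rw [Set.mem_singleton_iff] at hx
          subst hx
          exact mem_ln.2 ⟨β⁻¹, 0, by rw [smul_smul, inv_mul_cancel₀ hβ]; simp⟩
      · rw [ln, Submodule.span_le]
        intro x hx
        rcases hx with rfl | hx
        · exact mem_ln.2 ⟨0, β, by simp⟩
        · rw [Set.mem_singleton_iff] at hx
          subst hx
          exact Submodule.subset_span (by simp)
    · ext φ
      simp only [bv_apply, LinearMap.smul_apply, zero_smul, zero_add, map_smul, smul_eq_mul,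
        smul_sub, smul_smul]
      have e1 : -β⁻¹ * (φ a * β) = - φ a := by field_simp
      have e2 : -β⁻¹ * (β * φ b) = - φ b := by field_simp
      rw [e1, e2]
      simp only [neg_smul]
      abel
  · refine key b α⁻¹ (inv_ne_zero hα) ?_ ?_
    · apply le_antisymm
      · rw [ln, Submodule.span_le]
        intro x hx
        rcases hx with rfl | hx
        · refine mem_ln.2 ⟨α⁻¹, - (α⁻¹ * β), ?_⟩
          rw [smul_add, smul_smul, inv_mul_cancel₀ hα, one_smul, smul_smul, add_assoc, ← add_smul,
            add_neg_cancel, zero_smul, add_zero]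
        · rw [Set.mem_singleton_iff] at hx
          subst hx
          exact Submodule.subset_span (by simp)
      · rw [ln, Submodule.span_le]
        intro x hx
        rcases hx with rfl | hx
        · exact hpl
        · rw [Set.mem_singleton_iff] at hx
          subst hx
          exact Submodule.subset_span (by simp)
    · ext φ
      simp only [bv_apply, LinearMap.smul_apply, map_add, map_smul, smul_eq_mul, smul_sub,
        smul_add, smul_smul, add_smul]
      have e1 : α⁻¹ * (φ b * α) = φ b := by field_simp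
      have e2 : α⁻¹ * (α * φ a) = φ a := by field_simp
      have e3 : α⁻¹ * (φ b * β) = α⁻¹ * (β * φ b) := by ring
      rw [e1, e2, e3]
      abel

omit [FiniteDimensional F V] in
/-- in normal form, the intersection with the range is spanned by `a'` -/
theorem nf_inter {A : Dual F V →ₗ[F] V} (hA : Alt A) {a' b' : V} {u η : Dual F V}
    (hu : A u = a') (hη : A η = 0) (hηb : η b' = 1) {p : V} (hp : p ∈ ln F a' b')
    (hr : p ∈ LinearMap.range A) : ∃ t : F, p = t • a' := by
  obtain ⟨α, β, rfl⟩ := mem_ln.1 hp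
  have h1 := hA.ker_kills hη hr
  have h2 : η a' = 0 := by rw [← hu]; exact hA.ker_kills hη ⟨u, rfl⟩
  rw [map_add, map_smul, map_smul, h2, hηb, smul_zero, zero_add, smul_eq_mul, mul_one] at h1
  exact ⟨α, by rw [h1, zero_smul, add_zero]⟩

omit [FiniteDimensional F V] in
theorem NA.ker_pre {A : Dual F V →ₗ[F] V} (hA : Alt A) {φ ψ : Dual F V} (h : A φ = A ψ) {p : V}
    (hp : p ∈ LinearMap.range A) : φ p = ψ p := by
  have h1 : A (φ - ψ) = 0 := by rw [map_sub, h, sub_self]
  have := hA.ker_kills h1 hp
  rwa [LinearMap.sub_apply, sub_eq_zero] at this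

end

end Pool.Agent.H442R3.MPar
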