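import Pool.Agent.H442R3.MPar.Alt

/-!
# A combination of bivectors of rank `2r` yields `r` independent lines
-/

namespace Pool.Agent.H442R3.MPar

open Module

/-- The vectors `a i, b i` (`i ∈ M`) are linearly independent (as a family of `2|M|` vectors). -/
def IndepSet (F : Type*) [Field F] {V : Type*} [AddCommGroup V] [Module F V] {ι : Type*}
    (a b : ι → V) (M : Finset ι) : Prop :=
  ∀ α β : ι → F, ∑ i ∈ M, (α i • a i + β i • b i) = 0 → ∀ i ∈ M, α i = 0 ∧ β i = 0

section

variable {F : Type*} [Field F]

theorem finrank_pair_le {V : Type*} [AddCommGroup V] [Module F V] (a b : V) :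
    finrank F (Submodule.span F {a, b}) ≤ 2 := by
  classical
  have h := finrank_span_finset_le_card (R := F) ({a, b} : Finset V)
  rw [Finset.coe_insert, Finset.coe_singleton] at h
  exact h.trans Finset.card_le_two

theorem pair_of_finrank {V : Type*} [AddCommGroup V] [Module F V] {a b : V}
    (h : finrank F (Submodule.span F {a, b}) = 2) (α β : F) (h0 : α • a + β • b = 0) :
    α = 0 ∧ β = 0 := by
  have h1 : LinearIndependent F ![a, b] := by
    rw [linearIndependent_iff_card_eq_finrank_span, Set.finrank]
    rw [Matrix.range_cons, Matrix.range_cons, Matrix.range_empty, Set.union_empty]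
    rw [Fintype.card_fin]
    have h3 : ({a} ∪ {b} : Set V) = {a, b} := by
      ext x
      simp only [Set.mem_union, Set.mem_singleton_iff, Set.mem_insert_iff]
    have h4 : ({b} ∪ {a} : Set V) = {a, b} := by
      rw [Set.union_comm, h3]
    first | rw [h3, h] | rw [h4, h]
  rw [LinearIndependent.pair_iff] at h1
  exact h1 α β h0

theorem finrank_of_pair {V : Type*} [AddCommGroup V] [Module F V] {a b : V}
    (h : ∀ α β : F, α • a + β • b = 0 → α = 0 ∧ β = 0) :
    finrank F (Submodule.span F {a, b}) = 2 := by
  have h1 : LinearIndependent F ![a, b] := LinearIndependent.pair_iff.2 h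
  rw [linearIndependent_iff_card_eq_finrank_span, Set.finrank] at h1
  rw [Matrix.range_cons, Matrix.range_cons, Matrix.range_empty, Set.union_empty] at h1
  rw [Fintype.card_fin] at h1
  have h3 : ({a} ∪ {b} : Set V) = {a, b} := by
    ext x
    simp only [Set.mem_union, Set.mem_singleton_iff, Set.mem_insert_iff]
  have h4 : ({b} ∪ {a} : Set V) = {a, b} := by
    rw [Set.union_comm, h3]
  first | rw [h3] at h1 | rw [h4] at h1
  exact h1.symm

theorem bv_mem_span {V : Type*} [AddCommGroup V] [Module F V] (a b : V) (φ : Dual F V) :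
    bv a b φ ∈ Submodule.span F {a, b} := by
  rw [bv_apply]
  exact Submodule.sub_mem _ (Submodule.smul_mem _ _ (Submodule.subset_span (by simp)))
    (Submodule.smul_mem _ _ (Submodule.subset_span (by simp)))

variable {ι : Type*} [DecidableEq ι]

theorem exists_matching (h2 : (2 : F) ≠ 0) : ∀ (r : ℕ) (V : Type*) [AddCommGroup V] [Module F V]
    [FiniteDimensional F V] (a b : ι → V) (S : Finset ι) (x : ι → F),
    2 * r ≤ finrank F (LinearMap.range (∑ i ∈ S, x i • bv (F := F) (a i) (b i))) →
    ∃ M ⊆ S, M.card = r ∧ IndepSet F a b M := by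
  intro r
  induction r with
  | zero =>
    intro V _ _ _ a b S x _
    exact ⟨∅, Finset.empty_subset _, rfl, fun α β _ i hi => absurd hi (by simp)⟩
  | succ r ih =>
    intro V _ _ _ a b S
    induction S using Finset.strongInduction with
    | H S ihS =>
    intro x hx
    by_cases hmin : ∃ i ∈ S, ∃ x' : ι → F, 2 * (r + 1) ≤
        finrank F (LinearMap.range (∑ i ∈ S.erase i, x' i • bv (F := F) (a i) (b i)))
    · obtain ⟨i, hi, x', hx'⟩ := hmin
      obtain ⟨M, hM, hM2⟩ := ihS (S.erase i) (Finset.erase_ssubset hi) x' hx'
      exact ⟨M, hM.trans (Finset.erase_subset _ _), hM2⟩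
    push Not at hmin
    have hS : S.Nonempty := by
      by_contra hne
      rw [Finset.not_nonempty_iff_eq_empty] at hne
      subst hne
      rw [Finset.sum_empty, LinearMap.range_zero, finrank_bot] at hx
      omega
    obtain ⟨i, hi⟩ := hS
    have hlt := hmin i hi x
    set A' := ∑ i ∈ S.erase i, x i • bv (F := F) (a i) (b i) with hA'
    have hA : ∑ i ∈ S, x i • bv (F := F) (a i) (b i) = x i • bv (a i) (b i) + A' :=
      (Finset.add_sum_erase S (fun i => x i • bv (F := F) (a i) (b i)) hi).symm
    rw [hA] at hx
    have hAlt : Alt A' := Alt.sum _ fun j => (alt_bv _ _).smul _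
    have heven := hAlt.even_rank h2
    set L := Submodule.span F {a i, b i} with hL
    have hle : LinearMap.range (x i • bv (F := F) (a i) (b i) + A') ≤ LinearMap.range A' ⊔ L := by
      rintro _ ⟨φ, rfl⟩
      rw [LinearMap.add_apply, add_comm]
      exact Submodule.add_mem_sup ⟨φ, rfl⟩ (Submodule.smul_mem _ _ (bv_mem_span _ _ _))
    have h3 := Submodule.finrank_mono hle
    have h4 := Submodule.finrank_sup_add_finrank_inf_eq (LinearMap.range A') L
    have h5 : finrank F L ≤ 2 := finrank_pair_le _ _
    have h6 : finrank F L = 2 := by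
      obtain ⟨k, hk⟩ := heven
      omega
    have h7 : finrank F ↥(LinearMap.range A' ⊓ L) = 0 := by
      obtain ⟨k, hk⟩ := heven
      omega
    have h8 : finrank F (LinearMap.range A') = 2 * r := by
      obtain ⟨k, hk⟩ := heven
      omega
    rw [Submodule.finrank_eq_zero] at h7
    -- the quotient
    let π := L.mkQ
    let A'' := ∑ j ∈ S.erase i, x j • bv (F := F) (π (a j)) (π (b j))
    have hA'' : ∀ φ : Dual F (V ⧸ L), A'' φ = π (A' (φ.comp π)) := by
      intro φ
      simp only [A'', hA', LinearMap.sum_apply, LinearMap.smul_apply, bv_apply,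
        LinearMap.comp_apply, map_sum, map_smul, map_sub]
    have hsup : LinearMap.ker A' ⊔ L.dualAnnihilator = ⊤ := by
      have e1 : LinearMap.ker A' = (LinearMap.range A').dualAnnihilator := by
        rw [hAlt.range_eq, Subspace.dualCoannihilator_dualAnnihilator_eq]
      rw [e1, ← Subspace.dualAnnihilator_inf_eq, h7, Submodule.dualAnnihilator_bot]
    have hrange : (LinearMap.range A').map π ≤ LinearMap.range A'' := by
      rintro _ ⟨_, ⟨ψ, rfl⟩, rfl⟩
      have : ψ ∈ LinearMap.ker A' ⊔ L.dualAnnihilator := by rw [hsup]; trivial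
      obtain ⟨η, hη, φ, hφ, rfl⟩ := Submodule.mem_sup.1 this
      rw [Submodule.mem_dualAnnihilator] at hφ
      have hφ' : L ≤ LinearMap.ker φ := fun w hw => LinearMap.mem_ker.2 (hφ w hw)
      refine ⟨L.liftQ φ hφ', ?_⟩
      rw [hA'', map_add, LinearMap.mem_ker.1 hη, zero_add]
      have e9 : (L.liftQ φ hφ').comp π = φ := Submodule.liftQ_mkQ _ _ _
      rw [e9]
    have hfr : 2 * r ≤ finrank F (LinearMap.range A'') := by
      have e1 := Submodule.finrank_mono hrange
      have e2 : finrank F ↥((LinearMap.range A').map π) = finrank F (LinearMap.range A') := by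
        have e3 : Function.Injective (π.domRestrict (LinearMap.range A')) := by
          rw [← LinearMap.ker_eq_bot, LinearMap.ker_eq_bot']
          rintro ⟨p, hp⟩ h0
          have h1 : p ∈ L := by
            rw [LinearMap.domRestrict_apply] at h0
            exact (Submodule.Quotient.mk_eq_zero L).1 h0
          have h2 : p ∈ LinearMap.range A' ⊓ L := ⟨hp, h1⟩
          rw [h7] at h2
          exact Subtype.ext ((Submodule.mem_bot F).1 h2)
        rw [← LinearMap.range_domRestrict, LinearMap.finrank_range_of_inj e3]
      omega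
    obtain ⟨M', hM'S, hM'c, hM'⟩ := ih (V ⧸ L) (fun j => π (a j)) (fun j => π (b j)) (S.erase i) x hfr
    have hiM : i ∉ M' := fun h => (Finset.notMem_erase i S) (hM'S h)
    refine ⟨insert i M', ?_, by rw [Finset.card_insert_of_notMem hiM, hM'c], ?_⟩
    · intro j hj
      rcases Finset.mem_insert.1 hj with rfl | hj
      · exact hi
      · exact Finset.mem_of_mem_erase (hM'S hj)
    · intro α β h0
      rw [Finset.sum_insert hiM] at h0
      have e1 : π (α i • a i + β i • b i) = 0 := by
        rw [Submodule.mkQ_apply, Submodule.Quotient.mk_eq_zero]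
        exact Submodule.add_mem _ (Submodule.smul_mem _ _ (Submodule.subset_span (by simp)))
          (Submodule.smul_mem _ _ (Submodule.subset_span (by simp)))
      have e2 := congrArg π h0
      rw [map_add, e1, zero_add, map_zero, map_sum] at e2
      simp only [map_add, map_smul] at e2
      have e3 := hM' α β e2
      have e4 : ∑ j ∈ M', (α j • a j + β j • b j) = 0 := by
        apply Finset.sum_eq_zero
        intro j hj
        rw [(e3 j hj).1, (e3 j hj).2]
        simp
      rw [e4, add_zero] at h0
      intro j hj
      rcases Finset.mem_insert.1 hj with rfl | hj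
      · exact pair_of_finrank h6 _ _ h0
      · exact e3 j hj

end

end Pool.Agent.H442R3.MPar
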