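import Pool.Agent.H442R3.MPar.Corr

/-!
# The complete algorithm
-/

namespace Pool.Agent.H442R3.MPar

open Pool.Agent.NPC

/-- bound on the modulus and on the number of rounds -/
def bd (B : List (List ℕ × List ℕ)) : ℕ :=
  ((descs B).length + 1) * ((descs B).length + 1) * (dimOf B + 2) + 2

/-- a prime above the bound -/
def pOf (B : List (List ℕ × List ℕ)) : ℕ :=
  ((List.range (2 * bd B + 1)).filter (fun q => decide (bd B < q) &&
    (List.range (2 * bd B + 1)).all (fun d =>
      !(decide (2 ≤ d) && decide (d < q) && decide (q % d = 0))))).head?.getD 2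

theorem pOf_cases (B : List (List ℕ × List ℕ)) :
    (pOf B).Prime ∧ bd B < pOf B ∧ pOf B ≤ 2 * bd B := by
  have hb : bd B ≠ 0 := by rw [bd]; omega
  obtain ⟨q, hq, hq1, hq2⟩ := Nat.exists_prime_lt_and_le_two_mul (bd B) hb
  set L := ((List.range (2 * bd B + 1)).filter (fun q => decide (bd B < q) &&
    (List.range (2 * bd B + 1)).all (fun d =>
      !(decide (2 ≤ d) && decide (d < q) && decide (q % d = 0))))) with hL
  have hmem : ∀ r, r ∈ L → r.Prime ∧ bd B < r ∧ r ≤ 2 * bd B := by
    intro r hr
    rw [hL, List.mem_filter, List.mem_range] at hr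
    obtain ⟨h1, h2⟩ := hr
    rw [Bool.and_eq_true, decide_eq_true_iff, List.all_eq_true] at h2
    refine ⟨?_, h2.1, by omega⟩
    rw [Nat.prime_def_lt']
    have hbd : 2 ≤ bd B := by rw [bd]; omega
    refine ⟨by omega, fun m hm hmr hdvd => ?_⟩
    have h3 := h2.2 m (List.mem_range.2 (by omega))
    simp only [Bool.not_eq_eq_eq_not, Bool.not_true, Bool.and_eq_false_imp, Bool.and_eq_true,
      decide_eq_true_eq, decide_eq_false_iff_not] at h3
    exact h3 ⟨hm, hmr⟩ (Nat.mod_eq_zero_of_dvd hdvd)
  have hne : q ∈ L := by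
    rw [hL, List.mem_filter, List.mem_range]
    refine ⟨by omega, ?_⟩
    rw [Bool.and_eq_true, decide_eq_true_iff, List.all_eq_true]
    refine ⟨hq1, fun d _ => ?_⟩
    simp only [Bool.not_eq_eq_eq_not, Bool.not_true, Bool.and_eq_false_imp, Bool.and_eq_true,
      decide_eq_true_eq, decide_eq_false_iff_not]
    rintro ⟨h3, h4⟩ h5
    rw [Nat.prime_def_lt'] at hq
    exact hq.2 d h3 h4 (Nat.dvd_of_mod_eq_zero h5)
  have hp : pOf B = L.head?.getD 2 := rfl
  rw [hp]
  cases hLc : L with
  | nil => rw [hLc] at hne; simp at hne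
  | cons r L' =>
    apply hmem
    rw [hLc]
    simp

/-- the algorithm -/
def nuF (B : List (List ℕ × List ℕ)) : ℕ :=
  hrank (pOf B) (List.range (dimOf B)) (List.range (dimOf B + 2)) (linesOf (pOf B) B)
    (search (pOf B) (List.range (dimOf B)) (List.range (dimOf B + 2))
      (List.range (descs B).length) (List.range (pOf B)) (linesOf (pOf B) B)
      (List.range (bd B))) - B.length

/-- **Correctness.** -/
theorem nuF_correct (B : List (List ℕ × List ℕ)) :
    IsGreatest {k | ∃ M, IsMatch B M ∧ M.card = k} (nuF B) := by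
  obtain ⟨hprime, hlt, _⟩ := pOf_cases B
  have hfact : Fact (pOf B).Prime := ⟨hprime⟩
  have hll : (linesOf (pOf B) B).length = (descs B).length := by
    rw [linesOf, List.length_map]
  have h := lines_correct (pOf B) (dimOf B) (linesOf (pOf B) B) (line_len (pOf B) B)
    (line_dim (pOf B) B) (by rw [hll, sq]; exact hlt) (List.range (bd B))
    (by rw [hll, sq, List.length_range, bd]; omega)
  have hrg : List.range (linesOf (pOf B) B).length = List.range (descs B).length := by rw [hll]
  rw [hrg] at h
  set hr := hrank (pOf B) (List.range (dimOf B)) (List.range (dimOf B + 2)) (linesOf (pOf B) B)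
    (search (pOf B) (List.range (dimOf B)) (List.range (dimOf B + 2))
      (List.range (descs B).length) (List.range (pOf B)) (linesOf (pOf B) B)
      (List.range (bd B))) with hhr
  have hnu : nuF B = hr - B.length := rfl
  obtain ⟨h1, M', hM', hc⟩ := h
  have hub : ∀ M, IsMatch B M → B.length + M.card ≤ hr := by
    intro M hM
    obtain ⟨M'', h3, h4⟩ := match_to_lines (pOf B) B M hM
    rw [← h4]
    exact h1 M'' h3
  obtain ⟨M, hM, hMc⟩ := lines_to_match (pOf B) B M' hM'
  constructor
  · refine ⟨M, hM, ?_⟩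
    have := hub M hM
    omega
  · rintro k ⟨M1, hM1, rfl⟩
    have := hub M1 hM1
    omega

section poly

variable {α : Type} [TEnc α]

theorem poly_names {B : α → List (List ℕ × List ℕ)} (hB : Poly B) :
    Poly (fun a => names (B a)) := by
  unfold names
  fun_prop

theorem poly_ed {e : α → List ℕ} {t : α → ℕ} (he : Poly e) (ht : Poly t) :
    Poly (fun a => ed (e a) (t a)) := by
  unfold ed
  fun_prop

attribute [fun_prop] poly_names poly_ed

theorem poly_descs {B : α → List (List ℕ × List ℕ)} (hB : Poly B) :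
    Poly (fun a => descs (B a)) := by
  unfold descs
  fun_prop

attribute [fun_prop] poly_descs

theorem poly_dv {p u v : α → ℕ} {W : α → List ℕ} (hp : Poly p) (hu : Poly u) (hv : Poly v)
    (hW : Poly W) : Poly (fun a => dv (p a) (W a) (u a) (v a)) := by
  unfold dv
  fun_prop

theorem poly_ev {t : α → ℕ} {W E : α → List ℕ} (ht : Poly t) (hW : Poly W) (hE : Poly E) :
    Poly (fun a => ev (W a) (E a) (t a)) := by
  unfold ev
  fun_prop

attribute [fun_prop] poly_dv poly_ev

theorem poly_lineOf {p : α → ℕ} {W E : α → List ℕ} {d : α → ℕ × ℕ × ℕ} (hp : Poly p)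
    (hW : Poly W) (hE : Poly E) (hd : Poly d) :
    Poly (fun a => lineOf (p a) (W a) (E a) (d a)) := by
  unfold lineOf
  fun_prop

attribute [fun_prop] poly_lineOf

theorem upoly_dimOf {B : α → List (List ℕ × List ℕ)} (hB : Poly B) :
    UPoly (fun a => dimOf (B a)) :=
  UPoly.add (UPoly.length (poly_names hB)) (UPoly.mul (UPoly.const 2) (UPoly.length hB))

theorem poly_linesOf {p : α → ℕ} {B : α → List (List ℕ × List ℕ)} (hp : Poly p) (hB : Poly B) :
    Poly (fun a => linesOf (p a) (B a)) := by
  have h1 : Poly (fun a => List.range (2 * (B a).length)) :=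
    (UPoly.mul (UPoly.const 2) (UPoly.length hB)).range
  unfold linesOf
  exact NPC.Poly.map (l := fun a => descs (B a))
    (F := fun a d => lineOf (p a) (names (B a)) (List.range (2 * (B a).length)) d)
    (by fun_prop)
    (poly_lineOf (by fun_prop) (by fun_prop) (h1.comp (NPC.Poly.fst NPC.Poly.id)) (by fun_prop))

theorem upoly_bd {B : α → List (List ℕ × List ℕ)} (hB : Poly B) : UPoly (fun a => bd (B a)) :=
  UPoly.add (UPoly.mul (UPoly.mul (UPoly.add (UPoly.length (poly_descs hB)) (UPoly.const 1))
    (UPoly.add (UPoly.length (poly_descs hB)) (UPoly.const 1)))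
    (UPoly.add (upoly_dimOf hB) (UPoly.const 2))) (UPoly.const 2)

theorem poly_pOf {B : α → List (List ℕ × List ℕ)} (hB : Poly B) : Poly (fun a => pOf (B a)) := by
  have h1 : Poly (fun a => List.range (2 * bd (B a) + 1)) :=
    (UPoly.add (UPoly.mul (UPoly.const 2) (upoly_bd hB)) (UPoly.const 1)).range
  have h2 : Poly (fun a => bd (B a)) := (upoly_bd hB).toPoly
  have h3 : Poly (fun a : α => (List.range (2 * bd (B a) + 1)).filter (fun q =>
      decide (bd (B a) < q) && (List.range (2 * bd (B a) + 1)).all (fun d =>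
      !(decide (2 ≤ d) && decide (d < q) && decide (q % d = 0))))) := by
    refine NPC.Poly.filter (l := fun a => List.range (2 * bd (B a) + 1)) (p := fun a q =>
      decide (bd (B a) < q) && (List.range (2 * bd (B a) + 1)).all (fun d =>
      !(decide (2 ≤ d) && decide (d < q) && decide (q % d = 0)))) h1 ?_
    refine NPC.Poly.and ?_ ?_
    · exact NPC.Poly.decide_lt (h2.comp (NPC.Poly.fst NPC.Poly.id)) (NPC.Poly.snd NPC.Poly.id)
    · exact NPC.Poly.all (l := fun q : α × ℕ => List.range (2 * bd (B q.1) + 1))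
        (p := fun q d => !(decide (2 ≤ d) && decide (d < q.2) && decide (q.2 % d = 0)))
        (h1.comp (NPC.Poly.fst NPC.Poly.id)) (by fun_prop)
  unfold pOf
  fun_prop

theorem poly_nuF {B : α → List (List ℕ × List ℕ)} (hB : Poly B) :
    Poly (fun a => nuF (B a)) := by
  have hp : Poly (fun a => pOf (B a)) := poly_pOf hB
  have hp0 : ∀ a, 0 < pOf (B a) := fun a => (pOf_cases (B a)).1.pos
  have hpu : UPoly (fun a => pOf (B a)) :=
    UPoly.of_le hp (UPoly.mul (UPoly.const 2) (upoly_bd hB)) (fun a => (pOf_cases (B a)).2.2)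
  have hn := (upoly_dimOf hB).range
  have hN := (UPoly.add (upoly_dimOf hB) (UPoly.const 2)).range
  have hI := (UPoly.length (poly_descs hB)).range
  have hF := hpu.range
  have hT := (upoly_bd hB).range
  have hl := poly_linesOf hp hB
  unfold nuF
  refine NPC.Poly.sub ?_ (NPC.Poly.length hB)
  exact poly_hrank hp hp0 hn hN hl (poly_search hp hp0 hn hN hI hF hl hT)

end poly

end Pool.Agent.H442R3.MPar
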