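import Pool.Agent.H442R3.MPar.Stuck

/-!
# A two-step stuck point is optimal
-/

namespace Pool.Agent.H442R3.MPar

open Module

section

variable {F : Type*} [Field F] {V : Type*} [AddCommGroup V] [Module F V] [FiniteDimensional F V]
variable {ι : Type*} {a b : ι → V} {A : Dual F V →ₗ[F] V}

/-- type 1 -/
def T1 (a b : ι → V) (A : Dual F V →ₗ[F] V) (i : ι) : Prop :=
  finrank F ↥(LinearMap.range A ⊓ ln F (a i) (b i)) = 1

/-- type 2 -/
def T2 (a b : ι → V) (A : Dual F V →ₗ[F] V) (i : ι) : Prop :=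
  ln F (a i) (b i) ≤ LinearMap.range A

theorem t1_or_t2 (hA : Alt A) (hS : S1 a b A) (h2 : ∀ i, finrank F (ln F (a i) (b i)) = 2)
    (i : ι) : T1 a b A i ∨ T2 a b A i := by
  have h0 := fact0 hA hS (h2 i)
  have h3 := Submodule.finrank_mono
    (inf_le_right : LinearMap.range A ⊓ ln F (a i) (b i) ≤ ln F (a i) (b i))
  rw [h2] at h3
  by_cases h1 : finrank F ↥(LinearMap.range A ⊓ ln F (a i) (b i)) = 1
  · exact Or.inl h1
  · right
    have h4 : LinearMap.range A ⊓ ln F (a i) (b i) = ln F (a i) (b i) :=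
      Submodule.eq_of_le_of_finrank_eq inf_le_right (by rw [h2]; omega)
    exact inf_eq_right.1 h4

theorem not_t1_of_t2 (h2 : ∀ i, finrank F (ln F (a i) (b i)) = 2) {i : ι}
    (h : T2 a b A i) : ¬ T1 a b A i := by
  intro h1
  rw [T1, inf_eq_right.2 h, h2] at h1
  omega

/-- the link graph -/
def LG (a b : ι → V) (A : Dual F V →ₗ[F] V) (hA : Alt A) : SimpleGraph ι where
  Adj i j := i ≠ j ∧ ((T2 a b A i ∧ T2 a b A j) ∨ (T1 a b A i ∧ T1 a b A j ∧
    ¬ NA A (ln F (a i) (b i)) (ln F (a j) (b j))))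
  symm := ⟨fun i j h => ⟨h.1.symm, h.2.elim (fun h => Or.inl ⟨h.2, h.1⟩)
    (fun h => Or.inr ⟨h.2.1, h.1, fun hn => h.2.2 (NA.symm hA hn)⟩)⟩⟩
  loopless := ⟨fun i h => h.1 rfl⟩

/-- classes -/
def lcl (a b : ι → V) (A : Dual F V →ₗ[F] V) (hA : Alt A) (i : ι) :
    (LG a b A hA).ConnectedComponent := (LG a b A hA).connectedComponentMk i

/-- the space of a class -/
def WC (a b : ι → V) (A : Dual F V →ₗ[F] V) (hA : Alt A)
    (c : (LG a b A hA).ConnectedComponent) : Submodule F V :=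
  ⨆ i : {i // lcl a b A hA i = c}, ln F (a i) (b i)

theorem lcl_eq_of_adj (hA : Alt A) {i j : ι} (h : (LG a b A hA).Adj i j) :
    lcl a b A hA i = lcl a b A hA j :=
  SimpleGraph.ConnectedComponent.sound h.reachable

theorem na_of_ne (hA : Alt A) (hS : S1 a b A) (h2 : ∀ i, finrank F (ln F (a i) (b i)) = 2)
    {i j : ι} (h : lcl a b A hA i ≠ lcl a b A hA j) :
    NA A (ln F (a i) (b i)) (ln F (a j) (b j)) := by
  have hne : i ≠ j := fun h' => h (by rw [h'])
  have hadj : ¬ (LG a b A hA).Adj i j := fun h' => h (lcl_eq_of_adj hA h')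
  rcases t1_or_t2 hA hS h2 i with h1 | h1 <;> rcases t1_or_t2 hA hS h2 j with h3 | h3
  · by_contra hn
    exact hadj ⟨hne, Or.inr ⟨h1, h3, hn⟩⟩
  · exact fact_t2 hA hS (h2 i) h1 h3
  · exact NA.symm hA (fact_t2 hA hS (h2 j) h3 h1)
  · exact (hadj ⟨hne, Or.inl ⟨h1, h3⟩⟩).elim

theorem t1_of_reach (hA : Alt A) (h2 : ∀ i, finrank F (ln F (a i) (b i)) = 2)
    {i j : ι} (hr : (LG a b A hA).Reachable i j) (h : T1 a b A i) : T1 a b A j := by
  obtain ⟨w⟩ := hr
  induction w with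
  | nil => exact h
  | cons hadj _ ih =>
    apply ih
    rcases hadj.2 with h3 | h3
    · exact (not_t1_of_t2 h2 h3.1 h).elim
    · exact h3.2.1

/-- conditions for a functional to kill (the range part of) a class -/
structure KC (a b : ι → V) (A : Dual F V →ₗ[F] V) (hA : Alt A)
    (c : (LG a b A hA).ConnectedComponent) (φ : Dual F V) : Prop where
  one : ∀ j, lcl a b A hA j = c → ∀ p ∈ ln F (a j) (b j), p ∈ LinearMap.range A → φ p = 0
  two : ∀ j k, lcl a b A hA j = c → lcl a b A hA k = c → T1 a b A j → T1 a b A k →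
    ¬ NA A (ln F (a j) (b j)) (ln F (a k) (b k)) →
    ∀ q ∈ ln F (a j) (b j) ⊔ ln F (a k) (b k), q ∈ LinearMap.range A → φ q = 0

theorem kc_t1 (hA : Alt A) (hS : S1 a b A) (h2 : ∀ i, finrank F (ln F (a i) (b i)) = 2)
    {i : ι} (hi : T1 a b A i) (N : NF A (a i) (b i)) {φ : Dual F V}
    (hφ : KC a b A hA (lcl a b A hA i) φ) :
    ∀ p ∈ WC a b A hA (lcl a b A hA i), φ p = φ N.b' * N.η p := by
  have key : ∀ j, (LG a b A hA).Reachable i j → ∀ p ∈ ln F (a j) (b j),
      (φ - φ N.b' • N.η) p = 0 := by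
    have step : ∀ j k, lcl a b A hA j = lcl a b A hA i → (LG a b A hA).Adj j k → T1 a b A j →
        (∀ p ∈ ln F (a j) (b j), (φ - φ N.b' • N.η) p = 0) →
        ∀ p ∈ ln F (a k) (b k), (φ - φ N.b' • N.η) p = 0 := by
      intro j k hjc hadj hj hkill
      have hkc : lcl a b A hA k = lcl a b A hA i := by rw [← lcl_eq_of_adj hA hadj, hjc]
      have hlink : T1 a b A k ∧ ¬ NA A (ln F (a j) (b j)) (ln F (a k) (b k)) := by
        rcases hadj.2 with h3 | h3
        · exact (not_t1_of_t2 h2 h3.1 hj).elim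
        · exact ⟨h3.2.1, h3.2.2⟩
      obtain ⟨hk, hjk⟩ := hlink
      obtain ⟨Nj⟩ := exists_nf hA (h2 j) hj
      obtain ⟨Nk⟩ := exists_nf hA (h2 k) hk
      have hkj : ¬ NA A (ln F (a k) (b k)) (ln F (a j) (b j)) := fun h => hjk (NA.symm hA h)
      have hq : Nk.b' - Nj.η Nk.b' • Nj.b' ∈ LinearMap.range A := by
        rw [hA.mem_range_iff]
        intro η hη
        rw [map_sub, map_smul, star_ker hA hS Nk Nj (h2 k) hk hkj hη, smul_eq_mul]
        ring
      have hψr : ∀ p, p ∈ LinearMap.range A → φ p = 0 → (φ - φ N.b' • N.η) p = 0 := by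
        intro p hp h0
        rw [LinearMap.sub_apply, LinearMap.smul_apply, h0, hA.ker_kills N.hη hp, smul_zero,
          sub_zero]
      have e1 : (φ - φ N.b' • N.η) Nk.a' = 0 :=
        hψr _ Nk.range_a (hφ.one k hkc _ Nk.mem_a Nk.range_a)
      have e2 : (φ - φ N.b' • N.η) (Nk.b' - Nj.η Nk.b' • Nj.b') = 0 := by
        apply hψr _ hq
        apply hφ.two j k hjc hkc hj hk hjk _ _ hq
        exact Submodule.sub_mem _ (Submodule.mem_sup_right Nk.mem_b)
          (Submodule.smul_mem _ _ (Submodule.mem_sup_left Nj.mem_b))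
      have e3 : (φ - φ N.b' • N.η) Nk.b' = 0 := by
        rw [map_sub, map_smul, hkill _ Nj.mem_b, smul_zero, sub_zero] at e2
        exact e2
      intro p hp
      rw [Nk.hl] at hp
      obtain ⟨α, β, rfl⟩ := mem_ln.1 hp
      rw [map_add, map_smul, map_smul, e1, e3, smul_zero, smul_zero, add_zero]
    have base : ∀ p ∈ ln F (a i) (b i), (φ - φ N.b' • N.η) p = 0 := by
      intro p hp
      rw [N.hl] at hp
      obtain ⟨α, β, rfl⟩ := mem_ln.1 hp
      have e1 : φ N.a' = 0 := hφ.one i rfl _ N.mem_a N.range_a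
      simp only [LinearMap.sub_apply, LinearMap.smul_apply, map_add, map_smul, smul_eq_mul,
        e1, NF.η_a hA N N, N.hηb]
      ring
    intro j hj
    rw [SimpleGraph.reachable_iff_reflTransGen] at hj
    induction hj with
    | refl => exact base
    | tail hij hadj ih =>
      rw [← SimpleGraph.reachable_iff_reflTransGen] at hij
      exact step _ _ (SimpleGraph.ConnectedComponent.sound hij).symm hadj
        (t1_of_reach hA h2 hij hi) ih
  intro p hp
  have h3 : WC a b A hA (lcl a b A hA i) ≤ LinearMap.ker (φ - φ N.b' • N.η) := by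
    apply iSup_le
    rintro ⟨j, hj⟩ q hq
    exact key j (SimpleGraph.ConnectedComponent.exact hj).symm q hq
  have h4 := LinearMap.mem_ker.1 (h3 hp)
  rw [LinearMap.sub_apply, LinearMap.smul_apply, smul_eq_mul, sub_eq_zero] at h4
  exact h4

theorem kc_t2 (hA : Alt A) (h2 : ∀ i, finrank F (ln F (a i) (b i)) = 2)
    (hS : S1 a b A)
    {i : ι} (hi : T2 a b A i) : WC a b A hA (lcl a b A hA i) ≤ LinearMap.range A ∧
    ∀ φ, KC a b A hA (lcl a b A hA i) φ → ∀ p ∈ WC a b A hA (lcl a b A hA i), φ p = 0 := by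
  have key : ∀ j, lcl a b A hA j = lcl a b A hA i → T2 a b A j := by
    intro j hj
    rcases t1_or_t2 hA hS h2 j with h | h
    · exact (not_t1_of_t2 h2 hi (t1_of_reach hA h2
        (SimpleGraph.ConnectedComponent.exact hj) h)).elim
    · exact h
  constructor
  · apply iSup_le
    rintro ⟨j, hj⟩
    exact key j hj
  · intro φ hφ p hp
    have h3 : WC a b A hA (lcl a b A hA i) ≤ LinearMap.ker φ := by
      apply iSup_le
      rintro ⟨j, hj⟩ q hq
      exact hφ.one j hj q hq (key j hj hq)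
    exact h3 hp

theorem kc_kill (hA : Alt A) (hS : S1 a b A) (h2 : ∀ i, finrank F (ln F (a i) (b i)) = 2)
    (c : (LG a b A hA).ConnectedComponent) {φ : Dual F V} (hφ : KC a b A hA c φ) {p : V}
    (hp : p ∈ WC a b A hA c) (hpr : p ∈ LinearMap.range A) : φ p = 0 := by
  induction c using SimpleGraph.ConnectedComponent.ind with
  | _ i =>
    rcases t1_or_t2 hA hS h2 i with h | h
    · obtain ⟨N⟩ := exists_nf hA (h2 i) h
      rw [kc_t1 hA hS h2 h N hφ p hp, hA.ker_kills N.hη hpr, mul_zero]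
    · exact (kc_t2 hA h2 hS h).2 φ hφ p hp

/-- elementary functionals -/
theorem kc_elem (hA : Alt A) (hS : S2 a b A) (h2 : ∀ i, finrank F (ln F (a i) (b i)) = 2)
    {c c' : (LG a b A hA).ConnectedComponent} (hcc : c ≠ c') {j : ι}
    (hj : lcl a b A hA j = c) {φ : Dual F V} (hφ : A φ ∈ ln F (a j) (b j)) :
    KC a b A hA c' φ := by
  have hS1 := hS.toS1
  constructor
  · rintro m hm _ hp ⟨ψ, rfl⟩
    exact na_of_ne hA hS1 h2 (by rw [hj, hm]; exact hcc) φ ψ hφ hp
  · intro m n hm hn tm tn hmn q hq hqr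
    exact fact2 hA hS1 (h2 m) tm (h2 n) tn hmn
      (na_of_ne hA hS1 h2 (by rw [hj, hm]; exact hcc))
      (na_of_ne hA hS1 h2 (by rw [hj, hn]; exact hcc)) hφ hq hqr

theorem kc_elem2 (hA : Alt A) (hS : S2 a b A) (h2 : ∀ i, finrank F (ln F (a i) (b i)) = 2)
    {c c' : (LG a b A hA).ConnectedComponent} (hcc : c ≠ c') {j k : ι}
    (hj : lcl a b A hA j = c) (hk : lcl a b A hA k = c) (tj : T1 a b A j) (tk : T1 a b A k)
    (hjk : ¬ NA A (ln F (a j) (b j)) (ln F (a k) (b k)))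
    {φ : Dual F V} (hφ : A φ ∈ ln F (a j) (b j) ⊔ ln F (a k) (b k)) :
    KC a b A hA c' φ := by
  have hS1 := hS.toS1
  constructor
  · rintro m hm _ hp ⟨ψ, rfl⟩
    apply hA.skew'
    exact fact2 hA hS1 (h2 j) tj (h2 k) tk hjk
      (na_of_ne hA hS1 h2 (by rw [hj, hm]; exact hcc.symm))
      (na_of_ne hA hS1 h2 (by rw [hk, hm]; exact hcc.symm)) hp hφ ⟨φ, rfl⟩
  · intro m n hm hn tm tn hmn q hq hqr
    exact fact4 hA hS (h2 m) tm (h2 n) tn (h2 j) tj (h2 k) tk hmn hjk
      (na_of_ne hA hS1 h2 (by rw [hj, hm]; exact hcc))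
      (na_of_ne hA hS1 h2 (by rw [hj, hn]; exact hcc))
      (na_of_ne hA hS1 h2 (by rw [hk, hm]; exact hcc))
      (na_of_ne hA hS1 h2 (by rw [hk, hn]; exact hcc)) hφ hq hqr

theorem class_orth (hA : Alt A) (hS : S2 a b A) (h2 : ∀ i, finrank F (ln F (a i) (b i)) = 2)
    (c c' : (LG a b A hA).ConnectedComponent) (hcc : c ≠ c') (φ : Dual F V)
    (hφ : A φ ∈ WC a b A hA c) (p : V) (hp : p ∈ WC a b A hA c')
    (hpr : p ∈ LinearMap.range A) : φ p = 0 := by
  have hS1 := hS.toS1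
  obtain ⟨ψ, rfl⟩ := hpr
  apply hA.skew'
  apply kc_kill hA hS1 h2 c ?_ hφ ⟨φ, rfl⟩
  constructor
  · rintro j hj _ hq ⟨φ1, rfl⟩
    apply hA.skew'
    exact kc_kill hA hS1 h2 c' (kc_elem hA hS h2 hcc hj hq) hp ⟨ψ, rfl⟩
  · rintro j k hj hk tj tk hjk _ hq ⟨φ1, rfl⟩
    apply hA.skew'
    exact kc_kill hA hS1 h2 c' (kc_elem2 hA hS h2 hcc hj hk tj tk hjk hq) hp ⟨ψ, rfl⟩

theorem class_codim (hA : Alt A) (hS : S1 a b A) (h2 : ∀ i, finrank F (ln F (a i) (b i)) = 2)
    (c : (LG a b A hA).ConnectedComponent) (η : Dual F V) (hη : A η = 0)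
    (h0 : ∃ p ∈ WC a b A hA c, η p ≠ 0) (p : V) (hp : p ∈ WC a b A hA c) (hηp : η p = 0) :
    p ∈ LinearMap.range A := by
  induction c using SimpleGraph.ConnectedComponent.ind with
  | _ i =>
    rcases t1_or_t2 hA hS h2 i with h | h
    · obtain ⟨N⟩ := exists_nf hA (h2 i) h
      have hk : ∀ η', A η' = 0 → KC a b A hA (lcl a b A hA i) η' := fun η' hη' =>
        ⟨fun j _ q _ hq => hA.ker_kills hη' hq, fun j k _ _ _ _ _ q _ hq => hA.ker_kills hη' hq⟩
      obtain ⟨p0, hp0, hne⟩ := h0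
      have e1 := kc_t1 hA hS h2 h N (hk η hη) p0 hp0
      have e2 := kc_t1 hA hS h2 h N (hk η hη) p hp
      have e3 : η N.b' ≠ 0 := by
        intro h3
        rw [h3, zero_mul] at e1
        exact hne e1
      rw [hηp] at e2
      have e4 : N.η p = 0 := (mul_eq_zero.1 e2.symm).resolve_left e3
      rw [hA.mem_range_iff]
      intro η' hη'
      rw [kc_t1 hA hS h2 h N (hk η' hη') p hp, e4, mul_zero]
    · exact (kc_t2 hA h2 hS h).1 hp

/-- **A two-step stuck point is optimal.** -/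
theorem stuck_opt [Fintype ι] (hF : (2 : F) ≠ 0) (hA : Alt A) (hS : S2 a b A)
    (h2 : ∀ i, finrank F (ln F (a i) (b i)) = 2) (M : Finset ι) (hM : IndepSet F a b M) :
    2 * M.card ≤ finrank F (LinearMap.range A) := by
  classical
  haveI : Finite (LG a b A hA).ConnectedComponent := Quot.finite _
  haveI := Fintype.ofFinite (LG a b A hA).ConnectedComponent
  refine upper hF hA (lcl a b A hA) (WC a b A hA) ?_ ?_ ?_ M hM
  · intro i
    have hle : ln F (a i) (b i) ≤ WC a b A hA (lcl a b A hA i) :=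
      le_iSup (fun j : {j // lcl a b A hA j = lcl a b A hA i} => ln F (a j) (b j)) ⟨i, rfl⟩
    exact ⟨hle (Submodule.subset_span (by simp)), hle (Submodule.subset_span (by simp))⟩
  · intro c η hη h0 p hp h3
    exact class_codim hA hS.toS1 h2 c η hη h0 p hp h3
  · intro c c' hcc φ hφ p hp hpr
    exact class_orth hA hS h2 c c' hcc φ hφ p hp hpr

end

end Pool.Agent.H442R3.MPar
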