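import Pool.Agent.H442R3.MPar.Ker

/-!
# Semantics of the list algorithm
-/

namespace Pool.Agent.H442R3.MPar

open Module

section

variable (p : ℕ) [hp : Fact p.Prime] (n : ℕ)

/-- first vectors of the lines -/
def la (lines : List (List ℕ × List ℕ)) : Fin lines.length → (Fin n → ZMod p) :=
  fun i => vec p n (lines.get i).1

/-- second vectors of the lines -/
def lb (lines : List (List ℕ × List ℕ)) : Fin lines.length → (Fin n → ZMod p) :=
  fun i => vec p n (lines.get i).2

/-- optional line as a pair of lists -/
def oL (lines : List (List ℕ × List ℕ)) (o : Option (Fin lines.length)) : List ℕ × List ℕ :=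
  o.elim ([], []) (fun i => lines.get i)

theorem vec_nil (N : ℕ) : vec p N [] = 0 := by
  funext i
  simp [vec]

theorem ov_la (lines : List (List ℕ × List ℕ)) (o : Option (Fin lines.length)) :
    ov (la p n lines) o = vec p n (oL lines o).1 := by
  cases o with
  | none => exact (vec_nil p n).symm
  | some i => rfl

theorem ov_lb (lines : List (List ℕ × List ℕ)) (o : Option (Fin lines.length)) :
    ov (lb p n lines) o = vec p n (oL lines o).2 := by
  cases o with
  | none => exact (vec_nil p n).symm
  | some i => rfl

/-- coordinates -/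
def Phi : (Fin (n + 2) → ZMod p) →ₗ[ZMod p] (Dual (ZMod p) (Fin n → ZMod p) × ZMod p × ZMod p) where
  toFun y := (∑ c : Fin n, y c.castSucc.castSucc • LinearMap.proj c,
    y (Fin.last n).castSucc, y (Fin.last (n + 1)))
  map_add' y z := by
    simp only [Pi.add_apply, add_smul, Finset.sum_add_distrib, Prod.mk_add_mk]
  map_smul' c y := by
    simp only [Pi.smul_apply, smul_eq_mul, mul_smul, RingHom.id_apply, Prod.smul_mk,
      Finset.smul_sum]

theorem Phi_apply (y : Fin (n + 2) → ZMod p) : Phi p n y =
    (∑ c : Fin n, y c.castSucc.castSucc • LinearMap.proj c,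
    y (Fin.last n).castSucc, y (Fin.last (n + 1))) := rfl

theorem phi_eval (y : Fin (n + 2) → ZMod p) (v : Fin n → ZMod p) :
    (∑ c : Fin n, y c.castSucc.castSucc • (LinearMap.proj c : (Fin n → ZMod p) →ₗ[ZMod p] ZMod p)) v =
      ∑ c : Fin n, y c.castSucc.castSucc * v c := by
  rw [LinearMap.sum_apply]
  rfl

theorem Phi_bij : Function.Bijective (Phi p n) := by
  constructor
  · intro y z h
    rw [Phi_apply, Phi_apply, Prod.mk.injEq, Prod.mk.injEq] at h
    obtain ⟨h1, h2, h3⟩ := h
    funext i
    refine Fin.lastCases h3 (fun i => ?_) i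
    refine Fin.lastCases h2 (fun i => ?_) i
    have h4 := congrArg (fun φ : Dual (ZMod p) (Fin n → ZMod p) => φ (Pi.single i 1)) h1
    simp only [phi_eval] at h4
    simpa [Pi.single_apply] using h4
  · rintro ⟨φ, s, t⟩
    refine ⟨Fin.snoc (Fin.snoc (fun c => φ (Pi.single c 1)) s) t, ?_⟩
    rw [Phi_apply]
    simp only [Fin.snoc_castSucc, Fin.snoc_last]
    refine Prod.ext ?_ rfl
    apply LinearMap.pi_ext'
    intro i
    apply LinearMap.ext_ring
    simp only [LinearMap.comp_apply, LinearMap.sum_apply, LinearMap.smul_apply,
      LinearMap.proj_apply, LinearMap.single_apply, smul_eq_mul]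
    simp [Pi.single_apply]

theorem finrank_ker_comp {F E X Y : Type*} [Field F] [AddCommGroup E] [Module F E]
    [AddCommGroup X] [Module F X] [AddCommGroup Y] [Module F Y] (f : E →ₗ[F] X)
    (hf : Function.Bijective f) (T : X →ₗ[F] Y) :
    finrank F (LinearMap.ker (T.comp f)) = finrank F (LinearMap.ker T) := by
  let e := LinearEquiv.ofBijective f hf
  have h := LinearEquiv.finrank_map_eq e (LinearMap.ker (T.comp f))
  have : (LinearMap.ker (T.comp f)).map (e : E →ₗ[F] X) = LinearMap.ker T := by
    ext x
    constructor
    · rintro ⟨y, hy, rfl⟩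
      exact hy
    · intro hx
      obtain ⟨y, rfl⟩ := hf.2 x
      exact ⟨y, hx, rfl⟩
  rw [this] at h
  exact h.symm

theorem sum_zip {β : Type*} (g : β × ℕ → ℕ) : ∀ (l : List β) (x : List ℕ), x.length = l.length →
    ((l.zip x).map g).sum = ∑ i : Fin l.length, g (l.get i, x.getD i 0) := by
  intro l
  induction l with
  | nil => intro x _; simp
  | cons a l ih =>
    intro x hx
    cases x with
    | nil => simp at hx
    | cons y x =>
      rw [List.zip_cons_cons, List.map_cons, List.sum_cons, ih x (by simpa using hx)]
      exact (Fin.sum_univ_succ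
        (fun i : Fin (l.length + 1) => g ((a :: l).get i, (y :: x).getD i 0))).symm

theorem ent_cast (lines : List (List ℕ × List ℕ)) (x : List ℕ) (hx : x.length = lines.length)
    (r c : Fin n) : ((ent p lines x r c : ℕ) : ZMod p) =
      ∑ i, vec p lines.length x i * (lb p n lines i c * la p n lines i r -
        la p n lines i c * lb p n lines i r) := by
  rw [ent, ZMod.natCast_mod, sum_zip _ lines x hx, Nat.cast_sum]
  apply Finset.sum_congr rfl
  intro i _
  have h1 : ((lines.get i).1.getD c 0 * (lines.get i).2.getD r 0) % p ≤ p :=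
    (Nat.mod_lt _ hp.out.pos).le
  simp only [Nat.cast_mul, Nat.cast_add, Nat.cast_sub h1, ZMod.natCast_self, ZMod.natCast_mod]
  simp only [vec, la, lb]
  ring

theorem getD_app (f : ℕ → ℕ) (u v i : ℕ) :
    ((List.range n).map f ++ [u, v]).getD i 0 =
      if i < n then f i else if i = n then u else if i = n + 1 then v else 0 := by
  rw [List.getD_eq_getElem?_getD, List.getElem?_append]
  simp only [List.length_map, List.length_range]
  split_ifs with h1 h2 h3
  · simp [h1]
  · subst h2; simp
  · subst h3; simp
  · have : 2 ≤ i - n := by omega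
    rw [List.getElem?_eq_none (by simpa using this)]
    rfl

theorem DL_row (f : ℕ → ℕ) (u v : ℕ) (y : Fin (n + 2) → ZMod p) :
    DL p (n + 2) ((List.range n).map f ++ [u, v]) y =
      ∑ c : Fin n, ((f c : ℕ) : ZMod p) * y c.castSucc.castSucc +
        (u : ZMod p) * y (Fin.last n).castSucc + (v : ZMod p) * y (Fin.last (n + 1)) := by
  rw [DL_apply, Fin.sum_univ_castSucc, Fin.sum_univ_castSucc]
  simp only [vec, getD_app, Fin.val_castSucc, Fin.val_last]
  congr 1
  · congr 1
    · apply Finset.sum_congr rfl
      intro c _
      rw [if_pos c.2]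
    · simp
  · simp

theorem DL_short (l : List ℕ) (hl : l.length ≤ n) (y : Fin (n + 2) → ZMod p) :
    DL p (n + 2) l y = ∑ c : Fin n, y c.castSucc.castSucc * vec p n l c := by
  rw [DL_apply, Fin.sum_univ_castSucc, Fin.sum_univ_castSucc]
  have e1 : vec p (n + 2) l (Fin.last (n + 1)) = 0 := by
    rw [vec, List.getD_eq_default _ _ (by simp; omega)]
    simp
  have e2 : vec p (n + 2) l (Fin.last n).castSucc = 0 := by
    rw [vec, List.getD_eq_default _ _ (by simp; omega)]
    simp
  rw [e1, e2, zero_mul, zero_mul, add_zero, add_zero]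
  apply Finset.sum_congr rfl
  intro c _
  rw [mul_comm]
  rfl

theorem nulL_eq (lines : List (List ℕ × List ℕ)) (hlen : ∀ l ∈ lines, l.1.length ≤ n ∧ l.2.length ≤ n)
    (x : List ℕ) (hx : x.length = lines.length) (j k : Option (Fin lines.length)) :
    nulL p (List.range n) (List.range (n + 2)) lines x (oL lines j) (oL lines k) =
      nl (la p n lines) (lb p n lines) (AL (la p n lines) (lb p n lines) (vec p lines.length x)) j k := by
  have hj : (oL lines j).1.length ≤ n ∧ (oL lines j).2.length ≤ n := by
    cases j with
    | none => exact ⟨Nat.zero_le _, Nat.zero_le _⟩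
    | some i => exact hlen _ (List.get_mem _ _)
  set T := TM (la p n lines) (lb p n lines)
    (AL (la p n lines) (lb p n lines) (vec p lines.length x)) j k with hT
  rw [nl, nulL, kerL_length p (n + 2) _ (LinearMap.ker (T.comp (Phi p n)))]
  · exact finrank_ker_comp (Phi p n) (Phi_bij p n) T
  · intro y
    rw [LinearMap.mem_ker, LinearMap.comp_apply, Phi_apply, hT, TM_apply, Prod.mk_eq_zero,
      Prod.mk_eq_zero, phi_eval, phi_eval, ov_la, ov_lb, ov_la, ov_lb]
    rw [rowsL]
    constructor
    · rintro ⟨h1, h2, h3⟩ f hf
      rw [List.mem_append] at hf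
      rcases hf with hf | hf
      · obtain ⟨r, hr, rfl⟩ := List.mem_map.1 hf
        rw [List.mem_range] at hr
        have h4 := congrFun h1 ⟨r, hr⟩
        rw [DL_row]
        rw [Pi.zero_apply] at h4
        rw [← h4]
        simp only [AL, LinearMap.sum_apply, LinearMap.smul_apply, bv_apply,
          Pi.add_apply, Finset.sum_apply, Pi.smul_apply, Pi.sub_apply, smul_eq_mul]
        congr 1
        · congr 1
          · have e1 : ∀ c : Fin n, ((ent p lines x r c : ℕ) : ZMod p) =
                ∑ i, vec p lines.length x i * (lb p n lines i c * la p n lines i ⟨r, hr⟩ -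
                la p n lines i c * lb p n lines i ⟨r, hr⟩) := fun c =>
              ent_cast p n lines x hx ⟨r, hr⟩ c
            simp only [e1, Finset.sum_mul]
            rw [Finset.sum_comm]
            apply Finset.sum_congr rfl
            intro i _
            rw [← Finset.sum_sub_distrib, Finset.mul_sum]
            apply Finset.sum_congr rfl
            intro c _
            simp only [LinearMap.proj_apply]
            ring
          · rw [mul_comm]; rfl
        · rw [mul_comm]; rfl
      · simp only [List.mem_cons, List.not_mem_nil, or_false] at hf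
        rcases hf with rfl | rfl
        · rw [DL_short p n _ hj.1]; exact h2
        · rw [DL_short p n _ hj.2]; exact h3
    · intro h
      refine ⟨?_, ?_, ?_⟩
      · funext r
        have h4 := h ((List.range n).map (fun c => ent p lines x r c) ++
          [(oL lines k).1.getD r 0, (oL lines k).2.getD r 0])
          (List.mem_append_left _ (List.mem_map.2 ⟨r, List.mem_range.2 r.2, rfl⟩))
        rw [DL_row] at h4
        rw [Pi.zero_apply]
        rw [← h4]
        simp only [AL, LinearMap.sum_apply, LinearMap.smul_apply, bv_apply,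
          Pi.add_apply, Finset.sum_apply, Pi.smul_apply, Pi.sub_apply, smul_eq_mul]
        symm
        congr 1
        · congr 1
          · have e1 : ∀ c : Fin n, ((ent p lines x r c : ℕ) : ZMod p) =
                ∑ i, vec p lines.length x i * (lb p n lines i c * la p n lines i r -
                la p n lines i c * lb p n lines i r) := fun c =>
              ent_cast p n lines x hx r c
            simp only [e1, Finset.sum_mul]
            rw [Finset.sum_comm]
            apply Finset.sum_congr rfl
            intro i _
            rw [← Finset.sum_sub_distrib, Finset.mul_sum]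
            apply Finset.sum_congr rfl
            intro c _
            simp only [LinearMap.proj_apply]
            ring
          · rw [mul_comm]; rfl
        · rw [mul_comm]; rfl
      · have h4 := h (oL lines j).1 (List.mem_append_right _ (by simp))
        rwa [DL_short p n _ hj.1] at h4
      · have h4 := h (oL lines j).2 (List.mem_append_right _ (by simp))
        rwa [DL_short p n _ hj.2] at h4

theorem sum_list_get {β : Type*} (g : β → ℕ) (l : List β) :
    (l.map g).sum = ∑ i : Fin l.length, g (l.get i) := by
  induction l with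
  | nil => simp
  | cons a l ih =>
    rw [List.map_cons, List.sum_cons, ih]
    exact (Fin.sum_univ_succ (fun i : Fin (l.length + 1) => g ((a :: l).get i))).symm

theorem sum_opt (lines : List (List ℕ × List ℕ)) (g : List ℕ × List ℕ → ℕ) :
    (((([], []) : List ℕ × List ℕ) :: lines).map g).sum =
      ∑ o : Option (Fin lines.length), g (oL lines o) := by
  rw [List.map_cons, List.sum_cons, sum_list_get, Fintype.sum_option]
  rfl

theorem sum_flatMap' {β : Type*} (l : List β) (f : β → List ℕ) :
    (l.flatMap f).sum = (l.map (fun a => (f a).sum)).sum := by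
  induction l with
  | nil => rfl
  | cons a l ih => rw [List.flatMap_cons, List.sum_append, ih, List.map_cons, List.sum_cons]

theorem psiL_eq (lines : List (List ℕ × List ℕ)) (hlen : ∀ l ∈ lines, l.1.length ≤ n ∧ l.2.length ≤ n)
    (x : List ℕ) (hx : x.length = lines.length) :
    psiL p (List.range n) (List.range (n + 2)) lines x =
      Psi (la p n lines) (lb p n lines) (vec p lines.length x) := by
  rw [psiL, Psi, sum_flatMap', Fintype.sum_prod_type]
  rw [sum_opt]
  apply Finset.sum_congr rfl
  intro j _
  rw [sum_opt]
  apply Finset.sum_congr rfl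
  intro k _
  exact nulL_eq p n lines hlen x hx j k

theorem nl_none {F V ι : Type*} [Field F] [AddCommGroup V] [Module F V] [FiniteDimensional F V]
    (a b : ι → V) (A : Dual F V →ₗ[F] V) :
    nl a b A none none = finrank F (LinearMap.ker A) + 2 := by
  have h1 := finrank_map_add (E := Dual F V × F × F) (E' := Dual F V)
    (LinearMap.ker (TM a b A none none)) (LinearMap.fst F (Dual F V) (F × F))
  have h2 : (LinearMap.ker (TM a b A none none)).map (LinearMap.fst F (Dual F V) (F × F)) =
      LinearMap.ker A := by
    ext φ
    constructor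
    · rintro ⟨⟨φ', s, t⟩, hv, rfl⟩
      have hv' := LinearMap.mem_ker.1 hv
      rw [TM_apply, Prod.mk_eq_zero, Prod.mk_eq_zero] at hv'
      have h3 := hv'.1
      simp only [ov, Option.elim, smul_zero, add_zero] at h3
      exact h3
    · intro hφ
      refine ⟨(φ, 0, 0), ?_, rfl⟩
      rw [SetLike.mem_coe, LinearMap.mem_ker, TM_apply, Prod.mk_eq_zero, Prod.mk_eq_zero]
      have hφ' : A φ = 0 := hφ
      exact ⟨by simp [ov, hφ'], by simp [ov], by simp [ov]⟩
  have h3 : finrank F ↥(LinearMap.ker (TM a b A none none) ⊓
      LinearMap.ker (LinearMap.fst F (Dual F V) (F × F))) = 2 := by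
    have e1 : LinearMap.ker (TM a b A none none) ⊓
      LinearMap.ker (LinearMap.fst F (Dual F V) (F × F)) =
        LinearMap.range (LinearMap.inr F (Dual F V) (F × F)) := by
      ext ⟨φ, s, t⟩
      constructor
      · rintro ⟨_, h5⟩
        have h6 : φ = 0 := h5
        subst h6
        exact ⟨(s, t), rfl⟩
      · rintro ⟨⟨s', t'⟩, h5⟩
        rw [LinearMap.inr_apply, Prod.mk.injEq, Prod.mk.injEq] at h5
        obtain ⟨rfl, rfl, rfl⟩ := h5
        refine ⟨?_, rfl⟩
        rw [SetLike.mem_coe, LinearMap.mem_ker, TM_apply, Prod.mk_eq_zero, Prod.mk_eq_zero]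
        exact ⟨by simp [ov], by simp [ov], by simp [ov]⟩
    rw [e1, LinearMap.finrank_range_of_inj LinearMap.inr_injective]
    simp
  rw [h2, h3] at h1
  exact h1.symm

end

end Pool.Agent.H442R3.MPar
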