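import Pool.Agent.H442R3.MPar.Loc

/-!
# Facts at a stuck point
-/

namespace Pool.Agent.H442R3.MPar

open Module

section

variable {F : Type*} [Field F] {V : Type*} [AddCommGroup V] [Module F V]
variable {ι : Type*}

/-- all discrete data agree -/
structure Same (a b : ι → V) (A A' : Dual F V →ₗ[F] V) : Prop where
  rk : finrank F (LinearMap.range A') = finrank F (LinearMap.range A)
  ty : ∀ j, finrank F ↥(LinearMap.range A' ⊓ ln F (a j) (b j)) =
    finrank F ↥(LinearMap.range A ⊓ ln F (a j) (b j))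
  adj : ∀ j m, NA A' (ln F (a j) (b j)) (ln F (a m) (b m)) ↔
    NA A (ln F (a j) (b j)) (ln F (a m) (b m))

/-- one-step stuck -/
def S1 (a b : ι → V) (A : Dual F V →ₗ[F] V) : Prop :=
  ∀ k, ∀ E : Finset F, E.card ≤ 2 → ∃ z ∉ E, Same a b A (mv A z (a k) (b k))

/-- two-step stuck -/
def S2 (a b : ι → V) (A : Dual F V →ₗ[F] V) : Prop :=
  ∀ k, ∀ E : Finset F, E.card ≤ 2 → ∃ z ∉ E, Same a b A (mv A z (a k) (b k)) ∧
    S1 a b (mv A z (a k) (b k))

theorem S2.toS1 {a b : ι → V} {A : Dual F V →ₗ[F] V} (h : S2 a b A) : S1 a b A :=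
  fun k E hE => by
    obtain ⟨z, h1, h2, _⟩ := h k E hE
    exact ⟨z, h1, h2⟩

/-- normal form data -/
structure NF (A : Dual F V →ₗ[F] V) (a b : V) where
  a' : V
  b' : V
  u : Dual F V
  η : Dual F V
  c : F
  hc : c ≠ 0
  hl : ln F a b = ln F a' b'
  hu : A u = a'
  hη : A η = 0
  hηb : η b' = 1
  hb : bv (F := F) a b = c • bv a' b'

theorem mv_nf {A : Dual F V →ₗ[F] V} {a b a' b' : V} {c : F}
    (h : bv (F := F) a b = c • bv a' b') (z : F) : mv A z a b = mv A (z * c) a' b' := by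
  rw [mv, h, mv, smul_smul]

variable {a b : ι → V} {A : Dual F V →ₗ[F] V}

theorem get_z (c : F) (hc : c ≠ 0) (y : F) : ∃ E : Finset F, E.card ≤ 2 ∧ ∀ z ∉ E,
    z * c ≠ 0 ∧ 1 + z * c * y ≠ 0 := by
  classical
  refine ⟨{0, -(c * y)⁻¹}, Finset.card_le_two, fun z hz => ?_⟩
  simp only [Finset.mem_insert, Finset.mem_singleton, not_or] at hz
  refine ⟨mul_ne_zero hz.1 hc, fun h => ?_⟩
  by_cases hy : y = 0
  · subst hy
    simp at h
  · apply hz.2
    have : c * y ≠ 0 := mul_ne_zero hc hy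
    field_simp
    linear_combination h

theorem S1.get (hS : S1 a b A) {k : ι} (N : NF A (a k) (b k)) :
    ∃ z s : F, z ≠ 0 ∧ s ≠ 0 ∧ s * (1 + z * N.u N.b') = z ∧ Same a b A (mv A z N.a' N.b') := by
  obtain ⟨E, hE, hE2⟩ := get_z N.c N.hc (N.u N.b')
  obtain ⟨z, hz, hs⟩ := hS k E hE
  obtain ⟨h1, h2⟩ := hE2 z hz
  refine ⟨z * N.c, z * N.c / (1 + z * N.c * N.u N.b'), h1, div_ne_zero h1 h2,
    div_mul_cancel₀ _ h2, ?_⟩
  rwa [mv_nf N.hb] at hs

theorem S2.get (hS : S2 a b A) {k : ι} (N : NF A (a k) (b k)) :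
    ∃ z : F, z ≠ 0 ∧ Same a b A (mv A z N.a' N.b') ∧ S1 a b (mv A z N.a' N.b') := by
  obtain ⟨E, hE, hE2⟩ := get_z N.c N.hc (N.u N.b')
  obtain ⟨z, hz, hs, hs1⟩ := hS k E hE
  obtain ⟨h1, h2⟩ := hE2 z hz
  refine ⟨z * N.c, h1, ?_, ?_⟩
  · rwa [mv_nf N.hb] at hs
  · rwa [mv_nf N.hb] at hs1

variable [FiniteDimensional F V]

theorem exists_nf (hA : Alt A) {a b : V} (h2 : finrank F (ln F a b) = 2)
    (h1 : finrank F ↥(LinearMap.range A ⊓ ln F a b) = 1) : Nonempty (NF A a b) := by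
  obtain ⟨a', b', u, η, c, h⟩ := nf hA h2 h1
  exact ⟨⟨a', b', u, η, c, h.1, h.2.1, h.2.2.1, h.2.2.2.1, h.2.2.2.2.1, h.2.2.2.2.2⟩⟩

section nflemmas

variable {x y x' y' : V}

omit [FiniteDimensional F V] in
theorem NF.mem_a (N : NF A x y) : N.a' ∈ ln F x y := by
  rw [N.hl]
  exact Submodule.subset_span (by simp)

omit [FiniteDimensional F V] in
theorem NF.mem_b (N : NF A x y) : N.b' ∈ ln F x y := by
  rw [N.hl]
  exact Submodule.subset_span (by simp)

omit [FiniteDimensional F V] in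
theorem NF.range_a (N : NF A x y) : N.a' ∈ LinearMap.range A := ⟨N.u, N.hu⟩

omit [FiniteDimensional F V] in
theorem NF.η_a (hA : Alt A) (N : NF A x y) (N' : NF A x' y') : N.η N'.a' = 0 :=
  hA.ker_kills N.hη N'.range_a

omit [FiniteDimensional F V] in
theorem NF.pre (hA : Alt A) (N : NF A x y) {φ : Dual F V} (h : A φ ∈ ln F x y) {p : V}
    (hp : p ∈ LinearMap.range A) : ∃ t : F, φ p = t * N.u p := by
  rw [N.hl] at h
  obtain ⟨t, ht⟩ := nf_inter hA N.hu N.hη N.hηb h ⟨φ, rfl⟩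
  refine ⟨t, ?_⟩
  have : φ p = (t • N.u) p := NA.ker_pre hA (by rw [map_smul, N.hu, ht]) hp
  rw [this, LinearMap.smul_apply, smul_eq_mul]

omit [FiniteDimensional F V] in
theorem NF.na (hA : Alt A) (N : NF A x y) {P : Submodule F V}
    (h : ∀ p ∈ P, p ∈ LinearMap.range A → N.u p = 0) : NA A (ln F x y) P := by
  intro φ ψ hφ hψ
  obtain ⟨t, ht⟩ := N.pre hA hφ ⟨ψ, rfl⟩
  rw [ht, h _ hψ ⟨ψ, rfl⟩, mul_zero]

omit [FiniteDimensional F V] in
theorem NF.link (hA : Alt A) (N : NF A x y) (N' : NF A x' y')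
    (h : ¬ NA A (ln F x y) (ln F x' y')) : N.u N'.a' ≠ 0 := by
  intro h0
  apply h
  apply N.na hA
  intro p hp hr
  rw [N'.hl] at hp
  obtain ⟨t, rfl⟩ := nf_inter hA N'.hu N'.hη N'.hηb hp hr
  rw [map_smul, h0, smul_zero]

end nflemmas

/-- the basic relation -/
theorem star (hA : Alt A) (hS : S1 a b A) {j k : ι} (Nj : NF A (a j) (b j))
    (Nk : NF A (a k) (b k)) (hj2 : finrank F (ln F (a j) (b j)) = 2)
    (hj : finrank F ↥(LinearMap.range A ⊓ ln F (a j) (b j)) = 1)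
    (hjk : ¬ NA A (ln F (a j) (b j)) (ln F (a k) (b k)))
    {w : Dual F V} (hwj : w Nj.a' = 0) (hwk : w Nk.a' = 0)
    (H : ∀ A', Alt A' → Same a b A A' → ∀ w', A' w' = A w → ∀ p ∈ ln F (a j) (b j),
      p ∈ LinearMap.range A' → w' p = 0) :
    w Nj.b' = w Nk.b' * Nk.η Nj.b' := by
  obtain ⟨z, s, hz, hs0, hs, hsame⟩ := hS.get Nk
  have hA' := alt_mv hA z Nk.a' Nk.b'
  have hε : Nk.u Nj.a' ≠ 0 := Nk.link hA Nj (fun h => hjk (NA.symm hA h))
  have hη'' := move_ker hA Nk.hu Nk.hη Nk.hηb hs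
  have hne : LinearMap.range (mv A z Nk.a' Nk.b') ⊓ ln F (a j) (b j) ≠ ⊥ := by
    intro h
    have := hsame.ty j
    rw [h, finrank_bot, hj] at this
    omega
  obtain ⟨p, ⟨hpr, hpl⟩, hp0⟩ := Submodule.exists_mem_ne_zero_of_ne_bot hne
  have hpl' := hpl
  rw [Nj.hl] at hpl'
  obtain ⟨α, β, hp⟩ := mem_ln.1 hpl'
  have h1 := hA'.ker_kills hη'' hpr
  rw [← hp] at h1
  simp only [LinearMap.sub_apply, LinearMap.smul_apply, map_add, map_smul, smul_eq_mul,
    NF.η_a hA Nk Nj, mul_zero, zero_add] at h1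
  have hβ : β ≠ 0 := by
    rintro rfl
    have h3 : s * (α * Nk.u Nj.a') = 0 := by linear_combination -h1
    rcases mul_eq_zero.1 h3 with h | h
    · exact hs0 h
    · rcases mul_eq_zero.1 h with h | h
      · subst h
        apply hp0
        rw [← hp]
        simp
      · exact hε h
  have hw' : mv A z Nk.a' Nk.b' (w - w Nk.b' • Nk.η) = A w := by
    rw [move_pre hA Nk.hu Nk.hη Nk.hηb, hwk, mul_zero, zero_smul, sub_zero]
  have h2 := H _ hA' hsame _ hw' p hpl hpr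
  rw [← hp] at h2
  simp only [LinearMap.sub_apply, LinearMap.smul_apply, map_add, map_smul, smul_eq_mul,
    NF.η_a hA Nk Nj, mul_zero, zero_add, hwj] at h2
  have h3 : β * (w Nj.b' - w Nk.b' * Nk.η Nj.b') = 0 := by linear_combination h2
  have := (mul_eq_zero.1 h3).resolve_left hβ
  linear_combination this

theorem star_ker (hA : Alt A) (hS : S1 a b A) {j k : ι} (Nj : NF A (a j) (b j))
    (Nk : NF A (a k) (b k)) (hj2 : finrank F (ln F (a j) (b j)) = 2)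
    (hj : finrank F ↥(LinearMap.range A ⊓ ln F (a j) (b j)) = 1)
    (hjk : ¬ NA A (ln F (a j) (b j)) (ln F (a k) (b k)))
    {η : Dual F V} (hη : A η = 0) : η Nj.b' = η Nk.b' * Nk.η Nj.b' := by
  refine star hA hS Nj Nk hj2 hj hjk (hA.ker_kills hη Nj.range_a)
    (hA.ker_kills hη Nk.range_a) ?_
  intro A' hA' _ w' hw' p _ hpr
  rw [hη] at hw'
  exact hA'.ker_kills hw' hpr

theorem kill_of_star {j k : ι} (Nj : NF A (a j) (b j)) (Nk : NF A (a k) (b k)) (hA : Alt A)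
    {w : Dual F V} (hwj : w Nj.a' = 0) (hwk : w Nk.a' = 0)
    (hst : w Nj.b' = w Nk.b' * Nk.η Nj.b') {q : V}
    (hq : q ∈ ln F (a j) (b j) ⊔ ln F (a k) (b k)) (hqr : q ∈ LinearMap.range A) : w q = 0 := by
  rw [Nj.hl, Nk.hl] at hq
  obtain ⟨q1, h1, q2, h2, rfl⟩ := Submodule.mem_sup.1 hq
  obtain ⟨α1, β1, rfl⟩ := mem_ln.1 h1
  obtain ⟨α2, β2, rfl⟩ := mem_ln.1 h2
  have h3 := hA.ker_kills Nk.hη hqr
  simp only [map_add, map_smul, smul_eq_mul, NF.η_a hA, mul_zero, zero_add, Nk.hηb,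
    mul_one] at h3
  simp only [map_add, map_smul, smul_eq_mul, hwj, hwk, mul_zero, zero_add, hst]
  linear_combination (w Nk.b') * h3

/-- two linked lines against a third one -/
theorem fact2 (hA : Alt A) (hS : S1 a b A) {j k m : ι}
    (hj2 : finrank F (ln F (a j) (b j)) = 2)
    (hj : finrank F ↥(LinearMap.range A ⊓ ln F (a j) (b j)) = 1)
    (hk2 : finrank F (ln F (a k) (b k)) = 2)
    (hk : finrank F ↥(LinearMap.range A ⊓ ln F (a k) (b k)) = 1)
    (hjk : ¬ NA A (ln F (a j) (b j)) (ln F (a k) (b k)))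
    (hmj : NA A (ln F (a m) (b m)) (ln F (a j) (b j)))
    (hmk : NA A (ln F (a m) (b m)) (ln F (a k) (b k)))
    {w : Dual F V} (hw : A w ∈ ln F (a m) (b m)) {q : V}
    (hq : q ∈ ln F (a j) (b j) ⊔ ln F (a k) (b k)) (hqr : q ∈ LinearMap.range A) : w q = 0 := by
  obtain ⟨Nj⟩ := exists_nf hA hj2 hj
  obtain ⟨Nk⟩ := exists_nf hA hk2 hk
  have hwj : w Nj.a' = 0 := by
    rw [← Nj.hu]
    exact hmj _ _ hw (by rw [Nj.hu]; exact Nj.mem_a)
  have hwk : w Nk.a' = 0 := by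
    rw [← Nk.hu]
    exact hmk _ _ hw (by rw [Nk.hu]; exact Nk.mem_a)
  refine kill_of_star Nj Nk hA hwj hwk (star hA hS Nj Nk hj2 hj hjk hwj hwk ?_) hq hqr
  rintro A' hA' hsame w' hw' p hpl ⟨ψ, rfl⟩
  exact (hsame.adj m j).2 hmj _ _ (by rw [hw']; exact hw) hpl

/-- lines inside the range do not interact with lines of type 1 -/
theorem fact_t2 (hA : Alt A) (hS : S1 a b A) {k m : ι}
    (hk2 : finrank F (ln F (a k) (b k)) = 2)
    (hk : finrank F ↥(LinearMap.range A ⊓ ln F (a k) (b k)) = 1)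
    (hm : ln F (a m) (b m) ≤ LinearMap.range A) :
    NA A (ln F (a k) (b k)) (ln F (a m) (b m)) := by
  obtain ⟨Nk⟩ := exists_nf hA hk2 hk
  obtain ⟨z, s, hz, hs0, hs, hsame⟩ := hS.get Nk
  have hA' := alt_mv hA z Nk.a' Nk.b'
  have hη'' := move_ker hA Nk.hu Nk.hη Nk.hηb hs
  have hle : ln F (a m) (b m) ≤ LinearMap.range (mv A z Nk.a' Nk.b') := by
    have h1 := hsame.ty m
    rw [inf_eq_right.2 hm] at h1
    have h2 : LinearMap.range (mv A z Nk.a' Nk.b') ⊓ ln F (a m) (b m) = ln F (a m) (b m) :=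
      Submodule.eq_of_le_of_finrank_eq inf_le_right h1
    exact inf_eq_right.1 h2
  apply Nk.na hA
  intro p hp _
  have h1 := hA'.ker_kills hη'' (hle hp)
  rw [LinearMap.sub_apply, LinearMap.smul_apply, hA.ker_kills Nk.hη (hm hp), zero_sub,
    neg_eq_zero, smul_eq_mul] at h1
  exact (mul_eq_zero.1 h1).resolve_left hs0

/-- two linked pairs -/
theorem fact4 (hA : Alt A) (hS : S2 a b A) {j k j' k' : ι}
    (hj2 : finrank F (ln F (a j) (b j)) = 2)
    (hj : finrank F ↥(LinearMap.range A ⊓ ln F (a j) (b j)) = 1)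
    (hk2 : finrank F (ln F (a k) (b k)) = 2)
    (hk : finrank F ↥(LinearMap.range A ⊓ ln F (a k) (b k)) = 1)
    (hj2' : finrank F (ln F (a j') (b j')) = 2)
    (hj' : finrank F ↥(LinearMap.range A ⊓ ln F (a j') (b j')) = 1)
    (hk2' : finrank F (ln F (a k') (b k')) = 2)
    (hk' : finrank F ↥(LinearMap.range A ⊓ ln F (a k') (b k')) = 1)
    (hjk : ¬ NA A (ln F (a j) (b j)) (ln F (a k) (b k)))
    (hjk' : ¬ NA A (ln F (a j') (b j')) (ln F (a k') (b k')))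
    (n1 : NA A (ln F (a j') (b j')) (ln F (a j) (b j)))
    (n2 : NA A (ln F (a j') (b j')) (ln F (a k) (b k)))
    (n3 : NA A (ln F (a k') (b k')) (ln F (a j) (b j)))
    (n4 : NA A (ln F (a k') (b k')) (ln F (a k) (b k)))
    {φ : Dual F V} (hφ : A φ ∈ ln F (a j') (b j') ⊔ ln F (a k') (b k')) {q : V}
    (hq : q ∈ ln F (a j) (b j) ⊔ ln F (a k) (b k)) (hqr : q ∈ LinearMap.range A) : φ q = 0 := by
  have hS1 := hS.toS1
  obtain ⟨Nj⟩ := exists_nf hA hj2' hj'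
  obtain ⟨Nk⟩ := exists_nf hA hk2' hk'
  obtain ⟨z, hz, hsame, hS'⟩ := hS.get Nk
  have hA' := alt_mv hA z Nk.a' Nk.b'
  have hε : Nk.u Nj.a' ≠ 0 := Nk.link hA Nj (fun h => hjk' (NA.symm hA h))
  have hukq : Nk.u q = 0 := fact2 hA hS1 hj2 hj hk2 hk hjk n3 n4
    (by rw [Nk.hu]; exact Nk.mem_a) hq hqr
  have hujq : Nj.u q = 0 := fact2 hA hS1 hj2 hj hk2 hk hjk n1 n2
    (by rw [Nj.hu]; exact Nj.mem_a) hq hqr
  have hηq : Nk.η q = 0 := hA.ker_kills Nk.hη hqr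
  have hqr' : q ∈ LinearMap.range (mv A z Nk.a' Nk.b') := by
    rw [hA'.mem_range_iff]
    intro η' hη'
    have h1 := move_ker' hA Nk.hu Nk.hη Nk.hηb hz hη'
    have h2 := hA.ker_kills h1 hqr
    rwa [LinearMap.add_apply, LinearMap.smul_apply, hukq, smul_zero, add_zero] at h2
  -- the vector q'
  have hq' : Nj.b' - Nk.η Nj.b' • Nk.b' ∈ LinearMap.range A := by
    rw [hA.mem_range_iff]
    intro η hη
    rw [map_sub, map_smul, star_ker hA hS1 Nj Nk hj2' hj' hjk' hη, smul_eq_mul]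
    ring
  obtain ⟨uq, huq⟩ := hq'
  have huqk : uq Nk.a' = - Nk.u (A uq) := by rw [← Nk.hu]; exact hA.skew _ _
  have hujk : Nj.u Nk.a' = - Nk.u Nj.a' := by
    rw [← Nk.hu, hA.skew, Nj.hu]
  have huq0 : uq q = 0 := by
    have hw' := move_pre hA Nk.hu Nk.hη Nk.hηb z
      ((Nk.η Nj.b' - z * Nk.u (A uq)) • Nj.u + (z * Nk.u Nj.a') • uq)
    have hmem : mv A z Nk.a' Nk.b'
        (((Nk.η Nj.b' - z * Nk.u (A uq)) • Nj.u + (z * Nk.u Nj.a') • uq) -
        (((Nk.η Nj.b' - z * Nk.u (A uq)) • Nj.u + (z * Nk.u Nj.a') • uq) Nk.b') • Nk.η) ∈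
        ln F (a j') (b j') := by
      rw [hw', Nj.hl]
      refine mem_ln.2 ⟨Nk.η Nj.b' - z * Nk.u (A uq), z * Nk.u Nj.a', ?_⟩
      rw [map_add, map_smul, map_smul, Nj.hu, LinearMap.add_apply, LinearMap.smul_apply,
        LinearMap.smul_apply, hujk, huqk]
      generalize hX : Nk.u (A uq) = X
      rw [huq]
      simp only [smul_eq_mul, smul_sub, smul_smul]
      have e1 : z * ((Nk.η Nj.b' - z * X) * -Nk.u Nj.a' + z * Nk.u Nj.a' * -X) =
        - (z * Nk.u Nj.a' * Nk.η Nj.b') := by ring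
      rw [e1, neg_smul]
      abel
    have h1 := fact2 hA' hS' hj2 ((hsame.ty j).trans hj) hk2 ((hsame.ty k).trans hk)
      (fun h => hjk ((hsame.adj j k).1 h)) ((hsame.adj j' j).2 n1) ((hsame.adj j' k).2 n2)
      hmem hq hqr'
    rw [LinearMap.sub_apply, LinearMap.add_apply, LinearMap.smul_apply, LinearMap.smul_apply,
      LinearMap.smul_apply, hujq, hηq, smul_zero, smul_zero, zero_add, sub_zero,
      smul_eq_mul] at h1
    exact (mul_eq_zero.1 h1).resolve_left (mul_ne_zero hz hε)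
  -- general φ
  have hφr : A φ ∈ LinearMap.range A := ⟨φ, rfl⟩
  have hφ' := hφ
  rw [Nj.hl, Nk.hl] at hφ'
  obtain ⟨q1, h1, q2, h2, h12⟩ := Submodule.mem_sup.1 hφ'
  obtain ⟨α1, β1, rfl⟩ := mem_ln.1 h1
  obtain ⟨α2, β2, rfl⟩ := mem_ln.1 h2
  have h3 := hA.ker_kills Nk.hη hφr
  rw [← h12] at h3
  simp only [map_add, map_smul, smul_eq_mul, NF.η_a hA, mul_zero, zero_add, Nk.hηb,
    mul_one] at h3
  have h4 : A φ = A (α1 • Nj.u + α2 • Nk.u + β1 • uq) := by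
    rw [← h12, map_add, map_add, map_smul, map_smul, map_smul, Nj.hu, Nk.hu, huq, smul_sub,
      smul_smul]
    have e2 : β2 = - (β1 * Nk.η Nj.b') := by linear_combination h3
    rw [e2, neg_smul]
    abel
  rw [NA.ker_pre hA h4 hqr]
  simp only [LinearMap.add_apply, LinearMap.smul_apply, hujq, hukq, huq0, smul_zero, add_zero]

/-- no line avoids the range -/
theorem fact0 (hA : Alt A) (hS : S1 a b A) {i : ι} (hi2 : finrank F (ln F (a i) (b i)) = 2) :
    finrank F ↥(LinearMap.range A ⊓ ln F (a i) (b i)) ≠ 0 := by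
  classical
  intro h0
  obtain ⟨z, hz, hsame⟩ := hS i {0} (by simp)
  rw [Finset.mem_singleton] at hz
  rw [Submodule.finrank_eq_zero] at h0
  have hle : LinearMap.ker (mv A z (a i) (b i)) ≤ LinearMap.ker A ⊓ (ln F (a i) (b i)).dualAnnihilator := by
    intro φ hφ
    rw [LinearMap.mem_ker, mv_apply] at hφ
    have h1 : A φ ∈ LinearMap.range A ⊓ ln F (a i) (b i) := by
      refine ⟨⟨φ, rfl⟩, ?_⟩
      rw [eq_neg_of_add_eq_zero_left hφ]
      exact Submodule.neg_mem _ (Submodule.smul_mem _ _ (bv_mem_span _ _ _))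
    rw [h0, Submodule.mem_bot] at h1
    rw [h1, zero_add] at hφ
    have h2 := (smul_eq_zero.1 hφ).resolve_left hz
    have h3 := pair_of_finrank hi2 (φ (b i)) (- φ (a i)) (by rw [neg_smul, ← sub_eq_add_neg]; exact h2)
    refine ⟨h1, ?_⟩
    rw [SetLike.mem_coe, Submodule.mem_dualAnnihilator]
    intro p hp
    obtain ⟨α, β, rfl⟩ := mem_ln.1 hp
    rw [map_add, map_smul, map_smul, h3.1, neg_eq_zero.1 h3.2, smul_zero, smul_zero, add_zero]
  have d1 := LinearMap.finrank_range_add_finrank_ker A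
  have d2 := LinearMap.finrank_range_add_finrank_ker (mv A z (a i) (b i))
  have d3 := hsame.rk
  have h5 : LinearMap.ker (mv A z (a i) (b i)) = LinearMap.ker A :=
    Submodule.eq_of_le_of_finrank_eq (hle.trans inf_le_left) (by omega)
  rw [h5] at hle
  have h6 : ln F (a i) (b i) ≤ LinearMap.range A := by
    intro p hp
    rw [hA.mem_range_iff]
    intro η hη
    exact (Submodule.mem_dualAnnihilator _).1 (hle (LinearMap.mem_ker.2 hη)).2 p hp
  rw [inf_eq_right.2 h6] at h0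
  rw [h0, finrank_bot] at hi2
  omega

end

end Pool.Agent.H442R3.MPar
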