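import Pool.Agent.H442R3.MPar.Low

/-!
# The upper bound for matroid parity from an orthogonal class structure
-/

namespace Pool.Agent.H442R3.MPar

open Module

section

variable {F : Type*} [Field F] {V : Type*} [AddCommGroup V] [Module F V] {ι : Type*}

/-- linear combinations of the vectors of the lines in `M` -/
def comb (F : Type*) [Field F] {V : Type*} [AddCommGroup V] [Module F V] {ι : Type*}
    (a b : ι → V) (M : Finset ι) : ((M → F) × (M → F)) →ₗ[F] V :=
  LinearMap.coprod (Fintype.linearCombination F (fun i : M => a i))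
    (Fintype.linearCombination F (fun i : M => b i))

theorem comb_apply (a b : ι → V) (M : Finset ι) (v : (M → F) × (M → F)) :
    comb F a b M v = ∑ i : M, (v.1 i • a i + v.2 i • b i) := by
  rw [comb, LinearMap.coprod_apply, Fintype.linearCombination_apply,
    Fintype.linearCombination_apply, Finset.sum_add_distrib]

theorem comb_inj {a b : ι → V} {M : Finset ι} (hM : IndepSet F a b M)
    {v : (M → F) × (M → F)} (h : comb F a b M v = 0) : v = 0 := by
  classical
  have h1 := hM (fun i => if h : i ∈ M then v.1 ⟨i, h⟩ else 0)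
    (fun i => if h : i ∈ M then v.2 ⟨i, h⟩ else 0) (by
      rw [comb_apply] at h
      rw [← h, ← Finset.sum_coe_sort M]
      apply Finset.sum_congr rfl
      intro i _
      simp only [i.2, dif_pos, Subtype.coe_eta])
  ext i
  · have := (h1 i i.2).1
    simpa [i.2] using this
  · have := (h1 i i.2).2
    simpa [i.2] using this

variable [FiniteDimensional F V]

theorem odd_class (h2 : (2 : F) ≠ 0) {A : Dual F V →ₗ[F] V} (hA : Alt A) {a b : ι → V}
    {M : Finset ι} (hM : IndepSet F a b M) {η : Dual F V} (hη : A η = 0)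
    {v0 : (M → F) × (M → F)} (h0 : η (comb F a b M v0) ≠ 0)
    (hC : ∀ v, η (comb F a b M v) = 0 → comb F a b M v ∈ LinearMap.range A) :
    ∃ φ, A φ ≠ 0 ∧ (∃ v, A φ = comb F a b M v) ∧
      ∀ v, comb F a b M v ∈ LinearMap.range A → φ (comb F a b M v) = 0 := by
  classical
  let f : Dual F ((M → F) × (M → F)) := η.comp (comb F a b M)
  have hf : f ≠ 0 := by
    intro h
    exact h0 (by simpa [f] using congrArg (fun g : Dual F ((M → F) × (M → F)) => g v0) h)
  let X := LinearMap.ker f
  have hX : finrank F X + 1 = 2 * M.card := by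
    have h1 := Module.Dual.finrank_ker_add_one_of_ne_zero hf
    rw [h1, Module.finrank_prod, Module.finrank_fintype_fun_eq_card, Fintype.card_coe]
    omega
  have hodd : Odd (finrank F X) := by
    rw [Nat.odd_iff]
    omega
  obtain ⟨s, hs⟩ := A.rangeRestrict.exists_rightInverse_of_surjective
    (LinearMap.range_rangeRestrict A)
  have hs' : ∀ p : LinearMap.range A, A (s p) = p := by
    intro p
    have := congrArg Subtype.val (LinearMap.congr_fun hs p)
    simpa using this
  let g : X →ₗ[F] LinearMap.range A := LinearMap.codRestrict (LinearMap.range A)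
    ((comb F a b M).domRestrict X) (fun v => hC v (LinearMap.mem_ker.1 v.2))
  let B : X →ₗ[F] X →ₗ[F] F :=
    (LinearMap.lcomp F F ((comb F a b M).domRestrict X)).comp (s.comp g)
  have hB : ∀ v w : X, B v w = s (g v) (comb F a b M w) := fun v w => rfl
  have hg : ∀ v : X, ((g v : LinearMap.range A) : V) = comb F a b M v := fun v => rfl
  have hBa : ∀ v : X, B v v = 0 := by
    intro v
    rw [hB, ← hg, ← hs' (g v)]
    exact hA _
  obtain ⟨r, hr0, hr⟩ := exists_radical (X := X) h2 B hBa hodd
  refine ⟨s (g r), ?_, ⟨r, ?_⟩, ?_⟩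
  · rw [hs', hg]
    intro h
    exact hr0 (Subtype.ext (comb_inj hM h))
  · rw [hs', hg]
  · intro v hv
    have hvX : v ∈ X := LinearMap.mem_ker.2 (hA.ker_kills hη hv)
    have := hr ⟨v, hvX⟩
    rwa [hB] at this

omit [FiniteDimensional F V] in
theorem comb_mem {a b : ι → V} {M : Finset ι} {W : Submodule F V}
    (h : ∀ i ∈ M, a i ∈ W ∧ b i ∈ W) (v : (M → F) × (M → F)) : comb F a b M v ∈ W := by
  rw [comb_apply]
  exact Submodule.sum_mem _ fun i _ => Submodule.add_mem _
    (Submodule.smul_mem _ _ (h i i.2).1) (Submodule.smul_mem _ _ (h i i.2).2)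

omit [FiniteDimensional F V] in
theorem IndepSet.mono {a b : ι → V} {M M' : Finset ι} (hM : IndepSet F a b M) (h : M' ⊆ M) :
    IndepSet F a b M' := by
  classical
  intro α β h0 i hi
  have h1 := hM (fun i => if i ∈ M' then α i else 0) (fun i => if i ∈ M' then β i else 0) (by
    rw [← Finset.sum_subset h]
    · rw [← h0]
      apply Finset.sum_congr rfl
      intro j hj
      simp [hj]
    · intro j _ hj
      simp [hj]) i (h hi)
  simpa [hi] using h1

/-- **Upper bound.** -/
theorem upper (h2 : (2 : F) ≠ 0) {A : Dual F V →ₗ[F] V} (hA : Alt A) {a b : ι → V}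
    {C : Type*} [Fintype C] [DecidableEq C] (cl : ι → C) (W : C → Submodule F V)
    (hW : ∀ i, a i ∈ W (cl i) ∧ b i ∈ W (cl i))
    (hC : ∀ c η, A η = 0 → (∃ p ∈ W c, η p ≠ 0) → ∀ p ∈ W c, η p = 0 → p ∈ LinearMap.range A)
    (hO : ∀ c c', c ≠ c' → ∀ φ, A φ ∈ W c → ∀ p ∈ W c', p ∈ LinearMap.range A → φ p = 0)
    (M : Finset ι) (hM : IndepSet F a b M) : 2 * M.card ≤ finrank F (LinearMap.range A) := by
  classical
  let Mc : C → Finset ι := fun c => M.filter (fun i => cl i = c)
  have hMc : ∀ c, IndepSet F a b (Mc c) := fun c => hM.mono (Finset.filter_subset _ _)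
  have hMW : ∀ c, ∀ i ∈ Mc c, a i ∈ W c ∧ b i ∈ W c := by
    intro c i hi
    have := (Finset.mem_filter.1 hi).2
    subst this
    exact hW i
  -- the odd classes
  let O : Finset C := Finset.univ.filter
    (fun c => ∃ v, comb F a b (Mc c) v ∉ LinearMap.range A)
  have hO1 : ∀ c : O, ∃ η : Dual F V, A η = 0 ∧ ∃ v, η (comb F a b (Mc c) v) ≠ 0 := by
    rintro ⟨c, hc⟩
    obtain ⟨v, hv⟩ := (Finset.mem_filter.1 hc).2
    rw [hA.mem_range_iff] at hv
    push Not at hv
    obtain ⟨η, h1, h3⟩ := hv
    exact ⟨η, h1, v, h3⟩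
  choose η hη v0 hv0 using hO1
  have hO2 : ∀ c : O, ∃ φ v, A φ ≠ 0 ∧ A φ = comb F a b (Mc c) v ∧
      ∀ v, comb F a b (Mc c) v ∈ LinearMap.range A → φ (comb F a b (Mc c) v) = 0 := by
    intro c
    obtain ⟨φ, h1, ⟨v, h3⟩, h4⟩ := odd_class h2 hA (hMc c) (hη c) (hv0 c)
      (fun v hv => hC c (η c) (hη c)
      ⟨_, comb_mem (hMW c) _, hv0 c⟩ _ (comb_mem (hMW c) _) hv)
    exact ⟨φ, v, h1, h3, h4⟩
  choose φ w hφ0 hφw hφk using hO2
  -- the killing space
  have hind : ∀ t : O → F, ∑ c, t c • A (φ c) = 0 → t = 0 := by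
    intro t h1
    simp only [hφw] at h1
    -- coefficients
    let α : ι → F := fun i => if h : cl i ∈ O then
      (if h' : i ∈ Mc (cl i) then t ⟨cl i, h⟩ * (w ⟨cl i, h⟩).1 ⟨i, h'⟩ else 0) else 0
    let β : ι → F := fun i => if h : cl i ∈ O then
      (if h' : i ∈ Mc (cl i) then t ⟨cl i, h⟩ * (w ⟨cl i, h⟩).2 ⟨i, h'⟩ else 0) else 0
    have key : ∀ c : O, ∀ i (hi : i ∈ Mc c), α i = t c * (w c).1 ⟨i, hi⟩ ∧
        β i = t c * (w c).2 ⟨i, hi⟩ := by
      rintro ⟨c, hc⟩ i hi
      have e := (Finset.mem_filter.1 hi).2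
      subst e
      refine ⟨?_, ?_⟩
      · simp only [α, hc, hi, dif_pos]
      · simp only [β, hc, hi, dif_pos]
    have h3 : ∑ i ∈ M, (α i • a i + β i • b i) = 0 := by
      rw [← h1]
      rw [← Finset.sum_fiberwise_of_maps_to (s := M) (t := Finset.univ) (g := cl)
        (fun _ _ => Finset.mem_univ _)]
      rw [← Finset.sum_subset (Finset.subset_univ O)]
      · rw [← Finset.sum_coe_sort O]
        apply Finset.sum_congr rfl
        intro c _
        rw [comb_apply, Finset.smul_sum]
        change ∑ i ∈ Mc c, _ = _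
        rw [← Finset.sum_coe_sort (Mc c)]
        apply Finset.sum_congr rfl
        intro i _
        obtain ⟨e1, e2⟩ := key c i i.2
        rw [e1, e2, smul_add, mul_smul, mul_smul]
      · intro c _ hc
        apply Finset.sum_eq_zero
        intro i hi
        have e := (Finset.mem_filter.1 hi).2
        have e3 : cl i ∉ O := by rw [e]; exact hc
        simp only [α, β, e3, dif_neg, not_false_eq_true, zero_smul, add_zero]
    have h4 := hM α β h3
    funext c
    by_contra htc
    apply hφ0 c
    rw [hφw]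
    rw [comb_apply]
    apply Finset.sum_eq_zero
    intro i _
    obtain ⟨e1, e2⟩ := key c i i.2
    obtain ⟨e3, e4⟩ := h4 i (Finset.filter_subset _ _ i.2)
    rw [e1] at e3
    rw [e2] at e4
    have e5 := (mul_eq_zero.1 e3).resolve_left htc
    have e6 := (mul_eq_zero.1 e4).resolve_left htc
    rw [e5, e6, zero_smul, zero_smul, add_zero]
  have hlin : LinearIndependent F φ := by
    rw [Fintype.linearIndependent_iff]
    intro t h0 c
    have h1 := congrArg A h0
    rw [map_sum, map_zero] at h1
    simp only [map_smul] at h1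
    rw [hind t h1]
    rfl
  let S : Submodule F (Dual F V) := Submodule.span F (Set.range φ)
  have hS : finrank F S = O.card := by
    rw [finrank_span_eq_card hlin, Fintype.card_coe]
  have hdis : LinearMap.ker A ⊓ S = ⊥ := by
    rw [Submodule.eq_bot_iff]
    rintro x ⟨hx1, hx2⟩
    obtain ⟨t, rfl⟩ := (Submodule.mem_span_range_iff_exists_fun F).1 hx2
    have h1 : A (∑ c, t c • φ c) = 0 := hx1
    rw [map_sum] at h1
    simp only [map_smul] at h1
    rw [hind t h1]
    simp
  -- the killed space
  let Z : ((M → F) × (M → F)) →ₗ[F] (O → F) := LinearMap.pi fun c =>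
    (η c).comp ((comb F a b (Mc c)).comp (LinearMap.prodMap
      (LinearMap.funLeft F F (fun i : Mc c => (⟨i, Finset.filter_subset _ _ i.2⟩ : M)))
      (LinearMap.funLeft F F (fun i : Mc c => (⟨i, Finset.filter_subset _ _ i.2⟩ : M)))))
  let res : (c : C) → ((M → F) × (M → F)) → ((Mc c → F) × (Mc c → F)) := fun c v =>
    (fun i => v.1 ⟨i, Finset.filter_subset _ _ i.2⟩, fun i => v.2 ⟨i, Finset.filter_subset _ _ i.2⟩)
  have hZ : ∀ v c, Z v c = η c (comb F a b (Mc c) (res c v)) := fun v c => rfl
  have hsum : ∀ v, comb F a b M v = ∑ c, comb F a b (Mc c) (res c v) := by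
    intro v
    rw [comb_apply]
    let G : ι → V := fun i => if h : i ∈ M then v.1 ⟨i, h⟩ • a i + v.2 ⟨i, h⟩ • b i else 0
    have e1 : ∑ i : M, (v.1 i • a i + v.2 i • b i) = ∑ i ∈ M, G i := by
      rw [← Finset.sum_coe_sort M]
      apply Finset.sum_congr rfl
      intro i _
      simp only [G, i.2, dif_pos, Subtype.coe_eta]
    rw [e1, ← Finset.sum_fiberwise_of_maps_to (s := M) (t := Finset.univ) (g := cl)
        (fun _ _ => Finset.mem_univ _)]
    apply Finset.sum_congr rfl
    intro c _
    rw [comb_apply]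
    change ∑ i ∈ Mc c, _ = _
    rw [← Finset.sum_coe_sort (Mc c)]
    apply Finset.sum_congr rfl
    intro i _
    have e2 : (i : ι) ∈ M := Finset.filter_subset _ _ i.2
    simp only [G, e2, dif_pos, res]
  let K : Submodule F (Dual F V) := LinearMap.ker A ⊔ S
  have hker : (LinearMap.ker Z).map (comb F a b M) ≤ K.dualCoannihilator := by
    rintro _ ⟨v, hv, rfl⟩
    have hv' : ∀ c, comb F a b (Mc c) (res c v) ∈ LinearMap.range A := by
      intro c
      by_cases hc : c ∈ O
      · have e1 : Z v ⟨c, hc⟩ = 0 := by rw [LinearMap.mem_ker.1 hv]; rfl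
        rw [hZ] at e1
        exact hC c (η ⟨c, hc⟩) (hη _) ⟨_, comb_mem (hMW c) _, hv0 ⟨c, hc⟩⟩ _
          (comb_mem (hMW c) _) e1
      · by_contra hno
        exact hc (Finset.mem_filter.2 ⟨Finset.mem_univ _, _, hno⟩)
    rw [Submodule.mem_dualCoannihilator]
    intro x hx
    obtain ⟨η', hη', y, hy, rfl⟩ := Submodule.mem_sup.1 hx
    obtain ⟨t, rfl⟩ := (Submodule.mem_span_range_iff_exists_fun F).1 hy
    rw [LinearMap.add_apply, LinearMap.sum_apply, hsum, map_sum]
    have e1 : ∑ c, η' (comb F a b (Mc c) (res c v)) = 0 :=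
      Finset.sum_eq_zero fun c _ => hA.ker_kills hη' (hv' c)
    rw [e1, zero_add]
    apply Finset.sum_eq_zero
    intro c _
    rw [LinearMap.smul_apply, map_sum]
    rw [Finset.sum_eq_zero, smul_zero]
    intro c' _
    by_cases hcc : (c : C) = c'
    · subst hcc
      exact hφk c _ (hv' c)
    · exact hO c c' hcc (φ c) (by rw [hφw]; exact comb_mem (hMW c) _) _
        (comb_mem (hMW c') _) (hv' c')
  -- dimension count
  have d1 : finrank F (LinearMap.ker Z) + O.card ≥ 2 * M.card := by
    have e1 := LinearMap.finrank_range_add_finrank_ker Z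
    have e2 : finrank F (LinearMap.range Z) ≤ O.card := by
      have := Submodule.finrank_le (LinearMap.range Z)
      rwa [Module.finrank_fintype_fun_eq_card, Fintype.card_coe] at this
    rw [Module.finrank_prod, Module.finrank_fintype_fun_eq_card, Fintype.card_coe] at e1
    omega
  have d2 : finrank F ↥((LinearMap.ker Z).map (comb F a b M)) = finrank F (LinearMap.ker Z) := by
    have e3 : Function.Injective ((comb F a b M).domRestrict (LinearMap.ker Z)) := by
      rw [← LinearMap.ker_eq_bot, LinearMap.ker_eq_bot']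
      rintro ⟨p, hp⟩ h0
      exact Subtype.ext (comb_inj hM h0)
    rw [← LinearMap.range_domRestrict, LinearMap.finrank_range_of_inj e3]
  have d3 := Submodule.finrank_mono hker
  have d4 := Subspace.finrank_add_finrank_dualCoannihilator_eq K
  have d5 : finrank F K = finrank F (LinearMap.ker A) + O.card := by
    have e1 := Submodule.finrank_sup_add_finrank_inf_eq (LinearMap.ker A) S
    rw [hdis, finrank_bot, hS] at e1
    exact e1
  have d6 := LinearMap.finrank_range_add_finrank_ker A
  have d7 : finrank F (Dual F V) = finrank F V := Subspace.dual_finrank_eq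
  omega

end

end Pool.Agent.H442R3.MPar
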